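import Mathlib

/-!
Exponentials and logarithms of nilpotent and unipotent elements of a Banach algebra.
-/

set_option autoImplicit false

open Set Filter Topology

namespace Pool.Agent.U352.UH

variable {A : Type} [NormedRing A] [NormedAlgebra ℝ A] [CompleteSpace A]

/-- the exponential -/
noncomputable def ex (x : A) : A := NormedSpace.exp x

theorem ex_zero : ex (0 : A) = 1 := NormedSpace.exp_zero

theorem ex_add {x y : A} (h : Commute x y) : ex (x + y) = ex x * ex y := by
  let := NormedAlgebra.restrictScalars ℚ ℝ A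
  exact NormedSpace.exp_add_of_commute h

theorem ex_cont : Continuous (ex : A → A) := by
  let := NormedAlgebra.restrictScalars ℚ ℝ A
  exact NormedSpace.exp_continuous

theorem ex_neg_mul (x : A) : ex (-x) * ex x = 1 := by
  rw [← ex_add (Commute.neg_left (Commute.refl x)), neg_add_cancel, ex_zero]

theorem ex_mul_neg (x : A) : ex x * ex (-x) = 1 := by
  rw [← ex_add (Commute.neg_right (Commute.refl x)), add_neg_cancel, ex_zero]

theorem ex_sum {x : A} {m : ℕ} (h : x ^ m = 0) :
    ex x = ∑ n ∈ Finset.range m, ((n.factorial : ℝ)⁻¹) • x ^ n := by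
  have h1 : ex x = ∑' n : ℕ, ((n.factorial : ℝ)⁻¹) • x ^ n := by
    have := NormedSpace.exp_eq_tsum ℝ (𝔸 := A)
    exact congrFun this x
  rw [h1]
  refine tsum_eq_sum fun n hn => ?_
  rw [Finset.mem_range, not_lt] at hn
  rw [pow_eq_zero_of_le hn h, smul_zero]

/-- the second order expansion -/
theorem ex_expand {x : A} (h : IsNilpotent x) :
    ∃ ψ ∈ Algebra.adjoin ℝ {x}, ex x = 1 + x + x * x * ψ := by
  obtain ⟨m, hm⟩ := h
  have hm2 : x ^ (m + 2) = 0 := pow_eq_zero_of_le (by omega) hm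
  refine ⟨∑ n ∈ Finset.range m, (((n + 2).factorial : ℝ)⁻¹) • x ^ n, ?_, ?_⟩
  · refine Subalgebra.sum_mem _ fun n _ => Subalgebra.smul_mem _ ?_ _
    exact Subalgebra.pow_mem _ (Algebra.self_mem_adjoin_singleton ℝ x) _
  · rw [ex_sum hm2, Finset.sum_range_succ', Finset.sum_range_succ', Finset.mul_sum]
    have h1 : ∀ n ∈ Finset.range m, (((n + 1 + 1).factorial : ℝ)⁻¹) • x ^ (n + 1 + 1) =
        x * x * ((((n + 2).factorial : ℝ)⁻¹) • x ^ n) := by
      intro n _
      rw [mul_smul_comm, pow_succ', pow_succ', mul_assoc]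
    rw [Finset.sum_congr rfl h1]
    simp
    abel

theorem comm_adjoin {x y : A} (h : Commute x y) {ψ : A} (hψ : ψ ∈ Algebra.adjoin ℝ {x}) :
    Commute ψ y := by
  have h1 : Algebra.adjoin ℝ {x} ≤ Subalgebra.centralizer ℝ {y} := by
    rw [Algebra.adjoin_le_iff, singleton_subset_iff]
    intro z hz
    rw [mem_singleton_iff] at hz
    subst hz
    exact h.symm
  exact ((Subalgebra.mem_centralizer_iff ℝ).1 (h1 hψ) y rfl).symm

theorem ex_eq_one {x : A} (h : IsNilpotent x) (he : ex x = 1) : x = 0 := by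
  obtain ⟨ψ, hψ, he'⟩ := ex_expand h
  have hc : Commute ψ x := comm_adjoin (Commute.refl x) hψ
  rw [he'] at he
  have h1 : x * (1 + x * ψ) = 0 := by
    have : (1 : A) + x + x * x * ψ - 1 = 0 := by rw [he, sub_self]
    calc x * (1 + x * ψ) = 1 + x + x * x * ψ - 1 := by noncomm_ring
      _ = 0 := this
  have h2 : IsNilpotent (x * ψ) := hc.symm.isNilpotent_mul_right h
  have h3 : IsUnit (1 + x * ψ) := h2.isUnit_one_add
  exact (h3.mul_left_eq_zero).1 h1

theorem ex_inj {x y : A} (hc : Commute x y) (hx : IsNilpotent x) (hy : IsNilpotent y)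
    (h : ex x = ex y) : x = y := by
  have h1 : ex (x - y) = 1 := by
    rw [sub_eq_add_neg, ex_add hc.neg_right, h, ex_mul_neg]
  have h2 : IsNilpotent (x - y) := hc.isNilpotent_sub hx hy
  exact sub_eq_zero.1 (ex_eq_one h2 h1)

/-- unipotent elements have logarithms -/
theorem exists_log {u : A} (h : IsNilpotent (u - 1)) :
    ∃ ξ ∈ Algebra.adjoin ℝ {u}, IsNilpotent ξ ∧ ex ξ = u := by
  have hcomm : ∀ a ∈ Algebra.adjoin ℝ {u}, ∀ b ∈ Algebra.adjoin ℝ {u}, Commute a b := by
    intro a ha b hb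
    have h1 : Commute b u := comm_adjoin (Commute.refl u) hb
    exact comm_adjoin h1.symm ha
  have huS : u ∈ Algebra.adjoin ℝ {u} := Algebra.self_mem_adjoin_singleton ℝ u
  have hNS : u - 1 ∈ Algebra.adjoin ℝ {u} := Subalgebra.sub_mem _ huS (Subalgebra.one_mem _)
  have hexS : ∀ {x : A}, x ∈ Algebra.adjoin ℝ {u} → IsNilpotent x →
      ex x ∈ Algebra.adjoin ℝ {u} := by
    intro x hx hn
    obtain ⟨m, hm⟩ := hn
    rw [ex_sum hm]
    exact Subalgebra.sum_mem _ fun n _ => Subalgebra.smul_mem _ (Subalgebra.pow_mem _ hx _) _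
  have key : ∀ j : ℕ, ∃ ξ ∈ Algebra.adjoin ℝ {u}, IsNilpotent ξ ∧
      ∃ θ ∈ Algebra.adjoin ℝ {u}, u * ex (-ξ) = 1 + (u - 1) ^ (j + 1) * θ := by
    intro j
    induction j with
    | zero =>
      refine ⟨0, Subalgebra.zero_mem _, IsNilpotent.zero, 1, Subalgebra.one_mem _, ?_⟩
      rw [neg_zero, ex_zero]
      noncomm_ring
    | succ j ih =>
      obtain ⟨ξ, hξS, hξn, θ, hθS, hθ⟩ := ih
      set N := u - 1 with hN
      set η := N ^ (j + 1) * θ with hη
      have hηS : η ∈ Algebra.adjoin ℝ {u} :=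
        Subalgebra.mul_mem _ (Subalgebra.pow_mem _ hNS _) hθS
      have hηn : IsNilpotent η :=
        (hcomm _ (Subalgebra.pow_mem _ hNS _) _ hθS).isNilpotent_mul_right
          (h.pow_of_pos (by omega))
      obtain ⟨ψ, hψ, hexp⟩ := ex_expand hηn.neg
      have hψS : ψ ∈ Algebra.adjoin ℝ {u} := by
        have h1 : Algebra.adjoin ℝ {-η} ≤ Algebra.adjoin ℝ {u} := by
          rw [Algebra.adjoin_le_iff, singleton_subset_iff]
          exact Subalgebra.neg_mem _ hηS
        exact h1 hψ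
      have hc1 : Commute (-ξ) (-η) := (hcomm _ hξS _ hηS).neg_left.neg_right
      refine ⟨ξ + η, Subalgebra.add_mem _ hξS hηS, (hcomm _ hξS _ hηS).isNilpotent_add hξn hηn,
        N ^ j * (θ * θ * (-1 + ψ + η * ψ)), ?_, ?_⟩
      · exact Subalgebra.mul_mem _ (Subalgebra.pow_mem _ hNS _) (Subalgebra.mul_mem _
          (Subalgebra.mul_mem _ hθS hθS) (Subalgebra.add_mem _ (Subalgebra.add_mem _
            (Subalgebra.neg_mem _ (Subalgebra.one_mem _)) hψS) (Subalgebra.mul_mem _ hηS hψS)))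
      · have h1 : -(ξ + η) = -ξ + -η := by abel
        rw [h1, ex_add hc1, ← mul_assoc, hθ, hexp]
        have h2 : (1 + η) * (1 + -η + -η * -η * ψ) = 1 + η * η * (-1 + ψ + η * ψ) := by
          noncomm_ring
        rw [h2]
        have h3 : η * η = N ^ (j + 1 + 1) * (N ^ j * (θ * θ)) := by
          have hcθ : Commute θ (N ^ (j + 1)) := hcomm _ hθS _ (Subalgebra.pow_mem _ hNS _)
          calc η * η = N ^ (j + 1) * (θ * N ^ (j + 1)) * θ := by rw [hη]; noncomm_ring
            _ = N ^ (j + 1) * (N ^ (j + 1) * θ) * θ := by rw [hcθ.eq]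
            _ = (N ^ (j + 1) * N ^ (j + 1)) * (θ * θ) := by noncomm_ring
            _ = (N ^ (j + 1 + 1) * N ^ j) * (θ * θ) := by
                rw [← pow_add, ← pow_add]
                congr 2
                omega
            _ = _ := by rw [mul_assoc]
        rw [h3]
        noncomm_ring
  obtain ⟨m, hm⟩ := h
  obtain ⟨ξ, hξS, hξn, θ, hθS, hθ⟩ := key m
  refine ⟨ξ, hξS, hξn, ?_⟩
  rw [pow_succ, hm, zero_mul, zero_mul, add_zero] at hθ
  calc ex ξ = (u * ex (-ξ)) * ex ξ := by rw [hθ, one_mul]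
    _ = u := by rw [mul_assoc, ex_neg_mul, mul_one]

end Pool.Agent.U352.UH
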