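import Pool.Agent.U352.AF.Fin

/-!
Groups acting properly discontinuously and cocompactly on connected domains are finitely generated.
-/

set_option autoImplicit false
set_option linter.unusedSectionVars false

open Set Filter Topology Pool.Agent.W689.Mk Module
open Pool.Agent.U352.AF (Dom hol_mul hcont)

namespace Pool.Agent.U352.UH

variable {Γ E : Type} [Group Γ] [NormedAddCommGroup E] [NormedSpace ℝ E] [FiniteDimensional ℝ E]
  {hol : Γ →* (E ≃ᵃ[ℝ] E)} {Ω : Set E}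

theorem fg_of_conn (D : Dom hol Ω) (hconn : IsPreconnected Ω) (hne : Ω.Nonempty) :
    Group.FG Γ := by
  obtain ⟨K, hKΩ, hK, hcc⟩ := D.cc
  obtain ⟨L, hL, hKL, hLΩ⟩ := exists_compact_between hK D.isOpen hKΩ
  have hF := D.pd L hLΩ hL
  set F := {γ : Γ | ∃ x ∈ L, hol γ x ∈ L} with hFdef
  let H : Subgroup Γ := Subgroup.closure F
  have hmem : ∀ γ, γ ∈ F → γ ∈ H := fun γ hγ => Subgroup.subset_closure hγ
  let U : Set E := ⋃ γ ∈ (H : Set Γ), hol γ ⁻¹' interior L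
  let W : Set E := ⋃ γ ∈ (H : Set Γ)ᶜ, hol γ ⁻¹' interior L
  have hU : IsOpen U := isOpen_biUnion fun γ _ => isOpen_interior.preimage (hcont γ)
  have hW : IsOpen W := isOpen_biUnion fun γ _ => isOpen_interior.preimage (hcont γ)
  have hcov : Ω ⊆ U ∪ W := by
    intro x hx
    obtain ⟨γ, hγ⟩ := hcc x hx
    by_cases h : γ ∈ H
    · exact Or.inl (mem_iUnion₂.2 ⟨γ, h, hKL hγ⟩)
    · exact Or.inr (mem_iUnion₂.2 ⟨γ, h, hKL hγ⟩)
  have hdisj : ∀ x, x ∈ U → x ∈ W → False := by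
    intro x hxU hxW
    obtain ⟨γ, hγ, h1⟩ := mem_iUnion₂.1 hxU
    obtain ⟨δ, hδ, h2⟩ := mem_iUnion₂.1 hxW
    apply hδ
    have h3 : δ * γ⁻¹ ∈ F := by
      refine ⟨hol γ x, interior_subset h1, ?_⟩
      rw [hol_mul, Pool.Agent.W689.Mk.hol_inv_apply]
      exact interior_subset h2
    have h4 : δ * γ⁻¹ * γ ∈ H := H.mul_mem (hmem _ h3) hγ
    rwa [inv_mul_cancel_right] at h4
  have hKne : K.Nonempty := by
    obtain ⟨x, hx⟩ := hne
    obtain ⟨γ, hγ⟩ := hcc x hx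
    exact ⟨_, hγ⟩
  obtain ⟨k, hk⟩ := hKne
  have hkU : k ∈ U := mem_iUnion₂.2 ⟨1, H.one_mem, by
    show hol 1 k ∈ interior L
    rw [map_one]
    exact hKL hk⟩
  have htop : H = ⊤ := by
    rw [eq_top_iff]
    intro γ _
    by_contra hγ
    have h1 : (Ω ∩ W).Nonempty := by
      refine ⟨hol γ⁻¹ k, D.inv _ _ (hKΩ hk), mem_iUnion₂.2 ⟨γ, hγ, ?_⟩⟩
      show hol γ (hol γ⁻¹ k) ∈ interior L
      rw [Pool.Agent.W689.Mk.hol_apply_inv]
      exact hKL hk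
    obtain ⟨x, -, hxU, hxW⟩ := hconn U W hU hW hcov ⟨k, hKΩ hk, hkU⟩ h1
    exact hdisj x hxU hxW
  refine Group.fg_iff.2 ⟨F, htop, hF⟩

end Pool.Agent.U352.UH
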