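import Mathlib

/-!
Normal subgroups of groups with solvable or virtually solvable normal subgroups.
-/

set_option autoImplicit false

open Subgroup

namespace Pool.Agent.U352.UH

variable {G : Type} [Group G]

theorem exists_abelian_normal (R : Subgroup G) [R.Normal] (hs : Group.IsSolvable R)
    (hne : R ≠ ⊥) :
    ∃ A : Subgroup G, A.Normal ∧ A ≠ ⊥ ∧ ∀ a ∈ A, ∀ b ∈ A, a * b = b * a := by
  classical
  have hex : ∃ n, derivedSeries R n = ⊥ := hs.solvable
  have h0 : Nat.find hex ≠ 0 := by
    intro h
    have h1 := Nat.find_spec hex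
    rw [h, derivedSeries_zero] at h1
    apply hne
    rw [eq_bot_iff]
    intro r hr
    have h2 : (⟨r, hr⟩ : R) ∈ (⊥ : Subgroup R) := by rw [← h1]; trivial
    exact congrArg Subtype.val (mem_bot.1 h2)
  obtain ⟨j, hj⟩ := Nat.exists_eq_succ_of_ne_zero h0
  have h1 : derivedSeries R (j + 1) = ⊥ := by
    have := Nat.find_spec hex
    rwa [hj] at this
  have h2 : derivedSeries R j ≠ ⊥ := Nat.find_min hex (by rw [hj]; exact Nat.lt_succ_self j)
  refine ⟨(derivedSeries R j).map R.subtype, ?_, ?_, ?_⟩
  · exact ConjAct.normal_of_characteristic_of_normal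
  · intro h
    rw [Subgroup.map_eq_bot_iff_of_injective _ R.subtype_injective] at h
    exact h2 h
  · rintro _ ⟨a, ha, rfl⟩ _ ⟨b, hb, rfl⟩
    rw [derivedSeries_succ, commutator_eq_bot_iff_le_centralizer] at h1
    have h3 := mem_centralizer_iff.1 (h1 ha) b hb
    exact (congrArg Subtype.val h3).symm

theorem solvable_sup {S T : Subgroup G} [S.Normal] [T.Normal] (hS : Group.IsSolvable S)
    (hT : Group.IsSolvable T) : Group.IsSolvable (S ⊔ T : Subgroup G) := by
  have := hS
  have := hT
  -- the quotient `(S ⊔ T) / S` is the image of `T`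
  let f : (S ⊔ T : Subgroup G) →* G ⧸ S := (QuotientGroup.mk' S).comp (S ⊔ T).subtype
  have h1 : Group.IsSolvable (T.map (QuotientGroup.mk' S)) := by
    let g : T →* T.map (QuotientGroup.mk' S) := (QuotientGroup.mk' S).subgroupMap T
    exact Group.isSolvable_of_surjective (f := g) (MonoidHom.subgroupMap_surjective _ _)
  have h2 : ∀ x : (S ⊔ T : Subgroup G), f x ∈ T.map (QuotientGroup.mk' S) := by
    intro x
    have h3 : (QuotientGroup.mk' S) x ∈ (S ⊔ T).map (QuotientGroup.mk' S) := ⟨x, x.2, rfl⟩
    rw [Subgroup.map_sup] at h3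
    have h4 : S.map (QuotientGroup.mk' S) = ⊥ := by
      rw [Subgroup.map_eq_bot_iff, QuotientGroup.ker_mk']
    rw [h4, bot_sup_eq] at h3
    exact h3
  let f' : (S ⊔ T : Subgroup G) →* T.map (QuotientGroup.mk' S) := f.codRestrict _ h2
  let i : S →* (S ⊔ T : Subgroup G) := Subgroup.inclusion le_sup_left
  refine Group.isSolvable_of_ker_le_range i f' ?_
  intro x hx
  have h5 : f x = 1 := congrArg Subtype.val (MonoidHom.mem_ker.1 hx)
  have h6 : (x : G) ∈ S := (QuotientGroup.eq_one_iff _).1 h5
  exact ⟨⟨x, h6⟩, rfl⟩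

theorem exists_abelian_or_finite (R : Subgroup G) (hR : R.Normal) (S : Subgroup R)
    (hS : Group.IsSolvable S) (hidx : S.FiniteIndex) :
    (∃ A : Subgroup G, A.Normal ∧ A ≠ ⊥ ∧ ∀ a ∈ A, ∀ b ∈ A, a * b = b * a) ∨ Finite R := by
  classical
  let P : ℕ → Prop := fun n => ∃ T : Subgroup R, T.Normal ∧ Group.IsSolvable T ∧
    T.FiniteIndex ∧ T.index = n
  have hP : ∃ n, P n := by
    refine ⟨_, S.normalCore, inferInstance, ?_, inferInstance, rfl⟩
    exact Group.isSolvable_of_isSolvable_injective
      (f := Subgroup.inclusion (Subgroup.normalCore_le S)) (Subgroup.inclusion_injective _)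
  obtain ⟨T, hT, hTs, hTf, hTn⟩ := Nat.find_spec hP
  have hmax : ∀ T' : Subgroup R, T'.Normal → Group.IsSolvable T' → T' ≤ T := by
    intro T' hT' hTs'
    have h1 : Group.IsSolvable (T ⊔ T' : Subgroup R) := solvable_sup hTs hTs'
    have h2 : (T ⊔ T' : Subgroup R).FiniteIndex := Subgroup.finiteIndex_of_le le_sup_left
    have h3 : P (T ⊔ T').index := ⟨T ⊔ T', inferInstance, h1, h2, rfl⟩
    have h4 := Nat.find_min' hP h3
    rw [← hTn] at h4
    have h5 := Subgroup.relIndex_mul_index (le_sup_left : T ≤ T ⊔ T')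
    have h6 : T.relIndex (T ⊔ T') = 1 := by
      have h7 : T.index ≠ 0 := hTf.index_ne_zero
      have h8 : T.relIndex (T ⊔ T') ≠ 0 := by
        intro h0
        rw [h0, zero_mul] at h5
        exact h7 h5.symm
      by_contra h9
      have h10 : 2 ≤ T.relIndex (T ⊔ T') := by omega
      have h11 : (T ⊔ T').index ≠ 0 := h2.index_ne_zero
      have h12 : 1 ≤ (T ⊔ T').index := by omega
      nlinarith
    exact le_sup_right.trans (Subgroup.relIndex_eq_one.1 h6)
  by_cases hbot : T = ⊥
  · right
    have h1 : (⊥ : Subgroup R).FiniteIndex := by rw [← hbot]; exact hTf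
    have h2 : Nat.card R ≠ 0 := by
      rw [← Subgroup.index_bot]
      exact h1.index_ne_zero
    exact (Nat.finite_of_card_ne_zero h2)
  · left
    have hTn' : (T.map R.subtype).Normal := by
      refine ⟨?_⟩
      rintro _ ⟨t, ht, rfl⟩ g
      let c : R ≃* R := MulAut.conjNormal g
      have h1 : (T.map c.toMonoidHom).Normal := hT.map _ c.surjective
      have h2 : Group.IsSolvable (T.map c.toMonoidHom) := by
        have := hTs
        exact Group.isSolvable_of_surjective (f := c.toMonoidHom.subgroupMap T)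
          (MonoidHom.subgroupMap_surjective _ _)
      have h3 := hmax _ h1 h2 ⟨t, ht, rfl⟩
      exact ⟨_, h3, MulAut.conjNormal_apply g t⟩
    have h1 : Group.IsSolvable (T.map R.subtype) := by
      have := hTs
      exact Group.isSolvable_of_surjective (f := R.subtype.subgroupMap T)
        (MonoidHom.subgroupMap_surjective _ _)
    refine exists_abelian_normal (T.map R.subtype) h1 ?_
    intro h
    rw [Subgroup.map_eq_bot_iff_of_injective _ R.subtype_injective] at h
    exact hbot h

end Pool.Agent.U352.UH
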