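import Pool.Agent.U352.UH.PropP
import Pool.Agent.U352.UH.Fg
import Pool.Agent.U352.UH.Grp
import Pool.Agent.Y150.Ch.Line

/-!
Closed affine manifolds with abelian normal or commensurated subgroups in the fundamental group.
-/

set_option autoImplicit false
set_option linter.unusedSectionVars false

open Set Filter Topology MeasureTheory Module
open Pool.Agent.W689.Ch Pool.Agent.TH845.Mk Pool.Agent.Y150.Ch
open Pool.Agent.W689.Mk (lin hol_add hol_sub hol_inv_apply hol_apply_inv lin_inv_apply lin_mul)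
open Pool.Agent.N520.RO (aff aff_apply aff_mul aff_one affU lin_zero)
open Pool.Agent.U352.AF (Dom toDom)

namespace Pool.Agent.U352.UH

section unip
variable {Γ E : Type} [Group Γ] [NormedAddCommGroup E] [NormedSpace ℝ E] [FiniteDimensional ℝ E]
  {hol : Γ →* (E ≃ᵃ[ℝ] E)}

/-- the unipotent elements of a commutative group of affine maps -/
def UA (hol : Γ →* (E ≃ᵃ[ℝ] E)) (A : Subgroup Γ)
    (hc : ∀ a ∈ A, ∀ b ∈ A, hol (a * b) = hol (b * a)) : Subgroup Γ where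
  carrier := {a | a ∈ A ∧ IsNilpotent (aff (hol a) - 1)}
  one_mem' := ⟨A.one_mem, by rw [map_one, aff_one, sub_self]; exact IsNilpotent.zero⟩
  mul_mem' := by
    rintro a b ⟨ha, hna⟩ ⟨hb, hnb⟩
    refine ⟨A.mul_mem ha hb, ?_⟩
    have hcom : Commute (aff (hol a)) (aff (hol b)) := by
      show aff (hol a) * aff (hol b) = aff (hol b) * aff (hol a)
      rw [← aff_mul, ← aff_mul, ← map_mul, ← map_mul, hc a ha b hb]
    have h1 : aff (hol (a * b)) - 1 = (aff (hol a) - 1) * aff (hol b) + (aff (hol b) - 1) := by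
      rw [map_mul, aff_mul, sub_mul, one_mul]
      abel
    rw [h1]
    have h2 : Commute (aff (hol a) - 1) (aff (hol b)) := hcom.sub_left (Commute.one_left _)
    have h3 : Commute (aff (hol a) - 1) (aff (hol b) - 1) := h2.sub_right (Commute.one_right _)
    refine Commute.isNilpotent_add ?_ (h2.isNilpotent_mul_right hna) hnb
    exact h3.mul_left ((Commute.refl _).sub_right (Commute.one_right _))
  inv_mem' := by
    rintro a ⟨ha, hna⟩
    refine ⟨A.inv_mem ha, ?_⟩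
    have h1 : aff (hol a⁻¹) - 1 = -(aff (hol a⁻¹) * (aff (hol a) - 1)) := by
      rw [mul_sub, aff_inv, mul_one]
      abel
    rw [h1]
    have h2 : Commute (aff (hol a⁻¹)) (aff (hol a)) := by
      show aff (hol a⁻¹) * aff (hol a) = aff (hol a) * aff (hol a⁻¹)
      rw [aff_inv, aff_inv']
    have h3 : Commute (aff (hol a⁻¹)) (aff (hol a) - 1) := h2.sub_right (Commute.one_right _)
    exact (h3.isNilpotent_mul_left hna).neg

theorem UA_un (A : Subgroup Γ) (hc : ∀ a ∈ A, ∀ b ∈ A, hol (a * b) = hol (b * a)) :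
    UN hol (UA hol A hc) := by
  refine ⟨fun a ha b hb => ?_, fun a ha => ha.2⟩
  show aff (hol a) * aff (hol b) = aff (hol b) * aff (hol a)
  rw [← aff_mul, ← aff_mul, ← map_mul, ← map_mul, hc a ha.1 b hb.1]

theorem UA_an (A : Subgroup Γ) (hc : ∀ a ∈ A, ∀ b ∈ A, hol (a * b) = hol (b * a))
    (han : ∀ γ : Γ, ∀ a ∈ A, ∃ k : ℕ, k ≠ 0 ∧ γ * a ^ k * γ⁻¹ ∈ A) :
    AN hol (UA hol A hc) := by
  intro γ a ha
  obtain ⟨k, hk, h1⟩ := han γ a ha.1
  refine ⟨k, hk, γ * a ^ k * γ⁻¹, ⟨h1, ?_⟩, rfl⟩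
  have h2 : IsNilpotent (aff (hol (a ^ k)) - 1) := ((UA hol A hc).pow_mem ha k).2
  have h3 : aff (hol (γ * a ^ k * γ⁻¹)) - 1 = Ad hol γ (aff (hol (a ^ k)) - 1) := by
    have h4 : Ad hol γ (aff (hol (a ^ k)) - 1) = Ad hol γ (aff (hol (a ^ k))) - Ad hol γ 1 :=
      map_sub (AdL hol γ) _ _
    rw [h4, Ad_aff, Ad_one]
  rw [h3]
  exact Ad_nil γ h2

end unip

variable {X Γ E : Type} [TopologicalSpace X] [T2Space X] [Group Γ] [MulAction Γ X]
  [NormedAddCommGroup E] [NormedSpace ℝ E] [FiniteDimensional ℝ E]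
  {dev : X → E} {hol : Γ →* (E ≃ᵃ[ℝ] E)}

theorem on_sub (D : AffMfd X Γ E dev hol) (hinj : Function.Injective dev) (hfg : Group.FG Γ)
    {H : AffineSubspace ℝ E} {p₀ : E} (hp : p₀ ∈ H)
    (hinv : ∀ (γ : Γ), ∀ q ∈ H, hol γ q ∈ H) {N : Subgroup Γ} (h : UN (subHol hp hinv) N)
    (hN : AN (subHol hp hinv) N) (hne : ∃ a ∈ N, ∃ q ∈ H, hol a q ≠ q) :
    ∃ K : Subgroup Γ, K.FiniteIndex ∧ Fld dev (hol.comp K.subtype) H := by
  let _ := subAct D hinv
  have D' := subMfd D hp hinv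
  have hinj' : Function.Injective (subDev dev hp) := by
    intro x y hxy
    have h1 : dev x.1 - p₀ = dev y.1 - p₀ := congrArg Subtype.val hxy
    exact Subtype.ext (hinj (sub_left_injective h1))
  have Dm := toDom D'.loc D'.equi D'.pd D'.cc hinj'
  obtain ⟨K, hK, Z, hZ1, hZ2, hZ3⟩ := propP Dm h hN hfg (by
    obtain ⟨a, ha, q, hq, hne⟩ := hne
    refine ⟨a, ha, fun h1 => hne ?_⟩
    have h2 : subHol hp hinv a ⟨q - p₀, sub_mem_dir hp hq⟩ = ⟨q - p₀, sub_mem_dir hp hq⟩ := by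
      rw [h1]; rfl
    have h3 := congrArg Subtype.val h2
    have h4 : hol a (p₀ + (q - p₀)) - p₀ = q - p₀ := h3
    rw [add_sub_cancel] at h4
    exact sub_left_injective h4)
  refine ⟨K, hK, ?_⟩
  have hinvK : ∀ (γ : K), ∀ q ∈ H, (hol.comp K.subtype) γ q ∈ H := fun γ q hq => hinv γ.1 q hq
  refine fld_of_sub (restr D K hK) hp hinvK ?_
  refine ⟨fun x => Z (subDev dev hp x), ?_, ?_, ?_⟩
  · exact hZ1.comp_continuous D'.loc.continuous fun x => ⟨x, rfl⟩
  · intro γ x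
    have h1 := hZ3 γ.1 γ.2 (subDev dev hp x) ⟨x, rfl⟩
    have h2 := D'.equi γ.1 x
    rw [← h2] at h1
    exact h1
  · intro x
    exact hZ2 _ ⟨x, rfl⟩

theorem nil_of_cond {H : AffineSubspace ℝ E} {p₀ : E} (hp : p₀ ∈ H)
    (hinv : ∀ (γ : Γ), ∀ q ∈ H, hol γ q ∈ H) {a : Γ} {k : ℕ}
    (hk : ∀ q ∈ H, Pool.Agent.Y150.Ch.cond hol a k q) :
    IsNilpotent (aff (subHol hp hinv a) - 1) := by
  apply nil_of_linear
  refine ⟨k + 1, ?_⟩
  apply LinearMap.ext
  intro v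
  apply Subtype.ext
  let M : Module.End ℝ H.direction :=
    ((subHol hp hinv a).linear : H.direction →ₗ[ℝ] H.direction) - LinearMap.id
  have h1 : ∀ (j : ℕ) (w : H.direction), (((M ^ j) w : H.direction) : E) =
      ((T hol a - 1) ^ j) w.1 := by
    intro j
    induction j with
    | zero => intro w; rfl
    | succ j ih =>
      intro w
      rw [pow_succ, pow_succ, Module.End.mul_apply, Module.End.mul_apply, ih]
      rfl
  refine (h1 (k + 1) v).trans ?_
  have h2 := hk _ (add_mem_H hp v)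
  have h3 := hk _ hp
  unfold Pool.Agent.Y150.Ch.cond at h2 h3
  have h4 : dp hol a (p₀ + v.1) - dp hol a p₀ = (T hol a - 1) v.1 := by
    unfold dp
    rw [hol_add]
    show hol a p₀ + T hol a v.1 - _ - _ = T hol a v.1 - v.1
    abel
  rw [pow_succ, Module.End.mul_apply, ← h4, map_sub, h2, h3, sub_zero]
  rfl

theorem nil_of_cond' {G : Subgroup Γ} {H : AffineSubspace ℝ E} {p₀ : E} (hp : p₀ ∈ H)
    (hinv : ∀ (γ : G), ∀ q ∈ H, (hol.comp G.subtype) γ q ∈ H) {a : G} {k : ℕ}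
    (hk : ∀ q ∈ H, Pool.Agent.Y150.Ch.cond hol a.1 k q) :
    IsNilpotent (aff (subHol hp hinv a) - 1) :=
  nil_of_cond hp hinv (k := k) fun q hq => hk q hq

/-- finite index subgroups of subgroups of finite index -/
theorem fld_map {G : Subgroup Γ} (hG : G.FiniteIndex) {K : Subgroup G} (hK : K.FiniteIndex)
    {H : AffineSubspace ℝ E} (h : Fld dev ((hol.comp G.subtype).comp K.subtype) H) :
    (K.map G.subtype) ≤ G ∧ (K.map G.subtype).FiniteIndex ∧
      Fld dev (hol.comp (K.map G.subtype).subtype) H := by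
  refine ⟨Subgroup.map_subtype_le _, ?_, ?_⟩
  · refine ⟨?_⟩
    rw [Subgroup.index_map_subtype]
    exact mul_ne_zero hK.index_ne_zero hG.index_ne_zero
  · obtain ⟨Z, h1, h2, h3⟩ := h
    refine ⟨Z, h1, h2, ?_⟩
    rintro ⟨_, γ, hγ, rfl⟩ x hx
    exact h3 ⟨γ, hγ⟩ x hx

theorem hol_fix (D : AffMfd X Γ E dev hol) (hinj : Function.Injective dev)
    (hfree : ∀ (γ : Γ) (x : X), γ • x = x → γ = 1) {a : Γ} {x : X}
    (h : hol a (dev x) = dev x) : a = 1 :=
  hfree a x (hinj (by rw [D.equi, h]))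

theorem nontriv (D : AffMfd X Γ E dev hol) (hinj : Function.Injective dev)
    (hfree : ∀ (γ : Γ) (x : X), γ • x = x → γ = 1) [Nonempty X] {a : Γ} (ha : a ≠ 1) :
    Nontrivial E := by
  obtain ⟨x⟩ : Nonempty X := inferInstance
  exact ⟨⟨_, _, fun h => ha (hol_fix D hinj hfree (a := a) (x := x) h)⟩⟩

theorem fg_mfd [ConnectedSpace X] (D : AffMfd X Γ E dev hol) (hinj : Function.Injective dev) :
    Group.FG Γ := by
  refine fg_of_conn (toDom D.loc D.equi D.pd D.cc hinj) ?_ (range_nonempty dev)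
  exact isPreconnected_range D.loc.continuous

/-- a finite normal subgroup -/
theorem chern_finite (D : AffMfd X Γ E dev hol)
    (hinj : Function.Injective dev) (hfree : ∀ (γ : Γ) (x : X), γ • x = x → γ = 1)
    {A : Subgroup Γ} (hA : A.Normal) (hAfin : (A : Set Γ).Finite) {a₀ : Γ} (ha₀ : a₀ ∈ A)
    (ha₀1 : a₀ ≠ 1) : ∃ K : Subgroup Γ, K.FiniteIndex ∧ Fld dev (hol.comp K.subtype) ⊤ := by
  classical
  let K : Subgroup Γ := Subgroup.centralizer {a₀}
  have hK : K.FiniteIndex := by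
    -- the orbit of `a₀` under conjugation is finite
    let f : Γ → Γ := fun γ => γ * a₀ * γ⁻¹
    have hf : (range f).Finite := hAfin.subset (by
      rintro _ ⟨γ, rfl⟩
      exact hA.conj_mem a₀ ha₀ γ)
    have : Finite (range f) := hf
    have h1 : Finite (Γ ⧸ K) := by
      let g : Γ ⧸ K → range f := fun q => ⟨f q.out, ⟨q.out, rfl⟩⟩
      refine Finite.of_injective g ?_
      intro p q hpq
      have h2 : f p.out = f q.out := congrArg Subtype.val hpq
      rw [← QuotientGroup.out_eq' p, ← QuotientGroup.out_eq' q, QuotientGroup.eq]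
      rw [Subgroup.mem_centralizer_iff]
      intro z hz
      rw [mem_singleton_iff] at hz
      subst hz
      have h3 : p.out * z * p.out⁻¹ = q.out * z * q.out⁻¹ := h2
      calc z * (p.out⁻¹ * q.out) = p.out⁻¹ * (p.out * z * p.out⁻¹) * q.out := by group
        _ = p.out⁻¹ * (q.out * z * q.out⁻¹) * q.out := by rw [h3]
        _ = p.out⁻¹ * q.out * z := by group
    exact Subgroup.finiteIndex_of_finite_quotient
  refine ⟨K, hK, fun x => hol a₀ (dev x) - dev x, ?_, ?_, ?_⟩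
  · have h1 : Continuous (hol a₀) := Pool.Agent.U352.AF.hcont a₀
    exact ((h1.comp D.loc.continuous).sub D.loc.continuous).continuousOn
  · intro x _
    refine ⟨by rw [AffineSubspace.direction_top]; trivial, fun h => ha₀1 ?_⟩
    exact hol_fix D hinj hfree (sub_eq_zero.1 h)
  · intro γ x _
    have hγ : γ.1 * a₀ = a₀ * γ.1 :=
      ((Subgroup.mem_centralizer_iff.1 γ.2) a₀ rfl).symm
    have h1 : dev (γ • x) = hol γ.1 (dev x) := D.equi γ.1 x
    show hol a₀ (dev (γ • x)) - dev (γ • x) = lin hol γ.1 (hol a₀ (dev x) - dev x)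
    rw [h1]
    have h2 : lin hol γ.1 (hol a₀ (dev x) - dev x) = hol γ.1 (hol a₀ (dev x)) - hol γ.1 (dev x) :=
      (hol_sub (hol := hol) γ.1 _ _).symm
    rw [h2]
    have h3 : hol (γ.1 * a₀) (dev x) = hol (a₀ * γ.1) (dev x) := by rw [hγ]
    rw [map_mul, map_mul] at h3
    have h4 : hol γ.1 (hol a₀ (dev x)) = hol a₀ (hol γ.1 (dev x)) := h3
    rw [h4]

theorem comm_hol {A : Subgroup Γ} (hcom : ∀ a ∈ A, ∀ b ∈ A, a * b = b * a) {a b : Γ}
    (ha : a ∈ A) (hb : b ∈ A) (q : E) : hol a (hol b q) = hol b (hol a q) := by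
  have h1 : hol (a * b) q = hol (b * a) q := by rw [hcom a ha b hb]
  rw [map_mul, map_mul] at h1
  exact h1

/-- closed affine manifolds with injective developing map and a non-trivial abelian normal
subgroup -/
theorem chern_normal [ConnectedSpace X] (D : AffMfd X Γ E dev hol)
    (hinj : Function.Injective dev) (hfree : ∀ (γ : Γ) (x : X), γ • x = x → γ = 1)
    {A : Subgroup Γ} (hA : A.Normal) (hcom : ∀ a ∈ A, ∀ b ∈ A, a * b = b * a) (hne : A ≠ ⊥) :
    ∃ K : Subgroup Γ, K.FiniteIndex ∧ Fld dev (hol.comp K.subtype) ⊤ := by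
  classical
  by_contra hno'
  have hno := hno'
  push Not at hno
  obtain ⟨a₀, ha₀, ha₀1⟩ : ∃ a ∈ A, a ≠ 1 := by
    by_contra hc
    push Not at hc
    exact hne ((Subgroup.eq_bot_iff_forall A).2 hc)
  have hE : Nontrivial E := nontriv D hinj hfree ha₀1
  obtain ⟨G, H, x₀, m⟩ := exists_min D hno
  have hGf := m.fin
  have DG := restr D G hGf
  have hΓ : Group.FG Γ := fg_mfd D hinj
  have hGfg : Group.FG G := G.fg_of_index_ne_zero
  by_cases hAG : ∃ a ∈ A, a ∈ G ∧ a ≠ 1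
  · obtain ⟨a, haA, haG, ha1⟩ := hAG
    have hun : ∀ b ∈ A ⊓ G, ∃ k : ℕ, ∀ q ∈ H, Pool.Agent.Y150.Ch.cond hol b k q := by
      intro b hb
      obtain ⟨n, hn, k, h⟩ := unip (hol := hol) m.mem (K := G) (N := A ⊓ G) m.inv
        (m.star G le_rfl m.fin) (fun b hb => m.inv b hb.2)
        (fun b hb c hc q _ => comm_hol hcom hb.1 hc.1 q) ⊥
        (fun γ hγ b hb => ⟨1, Submonoid.one_mem _, γ * b * γ⁻¹,
            ⟨hA.conj_mem b hb.1 γ, G.mul_mem (G.mul_mem hγ hb.2) (G.inv_mem hγ)⟩, by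
            rw [pow_one]; exact fun _ _ => rfl⟩) b hb
      rw [Submonoid.mem_bot.1 hn, pow_one] at h
      exact ⟨k, h⟩
    have hinv : ∀ (γ : G), ∀ q ∈ H, (hol.comp G.subtype) γ q ∈ H := fun γ q hq =>
      m.inv γ.1 γ.2 q hq
    have hnor : (A.subgroupOf G).Normal := Subgroup.Normal.comap hA G.subtype
    have h : UN (subHol m.mem hinv) (A.subgroupOf G) := by
      refine ⟨fun b hb c hc => ?_, fun b hb => ?_⟩
      · have h1 : b * c = c * b := Subtype.ext (hcom _ hb _ hc)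
        show aff _ * aff _ = aff _ * aff _
        rw [← aff_mul, ← aff_mul, ← map_mul, ← map_mul, h1]
      · obtain ⟨k, hk⟩ := hun b.1 ⟨hb, b.2⟩
        exact nil_of_cond m.mem hinv (k := k) fun q hq => hk q hq
    obtain ⟨K, hK, hF⟩ := on_sub DG hinj hGfg m.mem hinv h (AN.of_normal hnor)
      ⟨⟨a, haG⟩, haA, dev x₀, m.mem, fun h => ha1 (hol_fix D hinj hfree h)⟩
    obtain ⟨h1, h2, h3⟩ := fld_map hGf hK hF
    exact m.fld _ h1 h2 h3
  · -- `A` is finite
    push Not at hAG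
    have hAfin : (A : Set Γ).Finite := by
      have hq : Finite (Γ ⧸ G) := inferInstance
      refine Set.Finite.of_injOn (f := fun a : Γ => (a : Γ ⧸ G)) (t := univ)
        (fun _ _ => mem_univ _) ?_ finite_univ
      intro a ha b hb hab
      have h1 : a⁻¹ * b ∈ G := QuotientGroup.eq.1 hab
      have h2 := hAG (a⁻¹ * b) (A.mul_mem (A.inv_mem ha) hb) h1
      exact (inv_mul_eq_one.1 h2)
    exact hno' (chern_finite D hinj hfree hA hAfin ha₀ ha₀1)

/-- closed affine manifolds with injective developing map and an almost normal abelian subgroup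
with an element of infinite order -/
theorem chern_comm [ConnectedSpace X] (D : AffMfd X Γ E dev hol)
    (hinj : Function.Injective dev) (hfree : ∀ (γ : Γ) (x : X), γ • x = x → γ = 1)
    {H₀ : Subgroup Γ} (hH₀ : H₀.FiniteIndex)
    {A : Subgroup Γ} (han : ∀ γ ∈ H₀, ∀ a ∈ A, ∃ k : ℕ, k ≠ 0 ∧ γ * a ^ k * γ⁻¹ ∈ A)
    (hcom : ∀ a ∈ A, ∀ b ∈ A, a * b = b * a) {a₀ : Γ} (ha₀ : a₀ ∈ A)
    (hinf : ∀ n : ℕ, n ≠ 0 → a₀ ^ n ≠ 1) :
    ∃ K : Subgroup Γ, K.FiniteIndex ∧ Fld dev (hol.comp K.subtype) ⊤ := by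
  classical
  by_contra hno
  push Not at hno
  have ha₀1 : a₀ ≠ 1 := by
    have := hinf 1 one_ne_zero
    rwa [pow_one] at this
  have hE : Nontrivial E := nontriv D hinj hfree ha₀1
  obtain ⟨G₀, H, x₀, m⟩ := exists_min D hno
  have hΓ : Group.FG Γ := fg_mfd D hinj
  have hG₀ := m.fin
  let G : Subgroup Γ := G₀ ⊓ H₀
  have hGf : G.FiniteIndex := inferInstance
  have hGG₀ : G ≤ G₀ := inf_le_left
  have hGH₀ : G ≤ H₀ := inf_le_right
  have DG := restr D G hGf
  have hGfg : Group.FG G := G.fg_of_index_ne_zero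
  have hun : ∀ b ∈ A ⊓ G, ∃ n : ℕ, n ≠ 0 ∧ ∃ k : ℕ, ∀ q ∈ H,
      Pool.Agent.Y150.Ch.cond hol (b ^ n) k q := by
    intro b hb
    obtain ⟨n, hn, k, h⟩ := unip (hol := hol) m.mem (K := G) (N := A ⊓ G)
      (fun γ hγ => m.inv γ (hGG₀ hγ)) (m.star G hGG₀ hGf) (fun b hb => m.inv b (hGG₀ hb.2))
      (fun b hb c hc q _ => comm_hol hcom hb.1 hc.1 q) Pos
      (fun γ hγ b hb => by
        obtain ⟨k, hk, h1⟩ := han γ (hGH₀ hγ) b hb.1
        exact ⟨k, hk, γ * b ^ k * γ⁻¹,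
          ⟨h1, G.mul_mem (G.mul_mem hγ (G.pow_mem hb.2 k)) (G.inv_mem hγ)⟩, fun _ _ => rfl⟩) b hb
    exact ⟨n, hn, k, h⟩
  have hinv : ∀ (γ : G), ∀ q ∈ H, (hol.comp G.subtype) γ q ∈ H := fun γ q hq =>
    m.inv γ.1 (hGG₀ γ.2) q hq
  let A' : Subgroup G := A.subgroupOf G
  have hc : ∀ a ∈ A', ∀ b ∈ A', subHol m.mem hinv (a * b) = subHol m.mem hinv (b * a) := by
    intro a ha b hb
    have h1 : a * b = b * a := Subtype.ext (hcom _ ha _ hb)
    rw [h1]
  have han' : ∀ γ : G, ∀ a ∈ A', ∃ k : ℕ, k ≠ 0 ∧ γ * a ^ k * γ⁻¹ ∈ A' := fun γ a ha =>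
    han γ.1 (hGH₀ γ.2) a.1 ha
  obtain ⟨j, hj0, -, hj⟩ := Subgroup.exists_pow_mem_of_index_ne_zero hGf.index_ne_zero a₀
  obtain ⟨n, hn, k, hk⟩ := hun (a₀ ^ j) ⟨A.pow_mem ha₀ j, hj⟩
  have hbG : (a₀ ^ j) ^ n ∈ G := G.pow_mem hj n
  let b : G := ⟨(a₀ ^ j) ^ n, hbG⟩
  have hbN : b ∈ UA (subHol m.mem hinv) A' hc :=
    ⟨A.pow_mem (A.pow_mem ha₀ j) n, nil_of_cond' (a := b) m.mem hinv hk⟩
  have hbne : hol.comp G.subtype b (dev x₀) ≠ dev x₀ := by
    intro h
    have h1 : (a₀ ^ j) ^ n = 1 := hol_fix D hinj hfree (x := x₀) h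
    rw [← pow_mul] at h1
    exact hinf _ (mul_ne_zero hj0.ne' hn) h1
  obtain ⟨K, hK, hF⟩ := on_sub DG hinj hGfg m.mem hinv (UA_un A' hc) (UA_an A' hc han')
    ⟨b, hbN, dev x₀, m.mem, hbne⟩
  obtain ⟨h1, h2, h3⟩ := fld_map hGf hK hF
  exact m.fld _ (h1.trans hGG₀) h2 h3

/-- normal subgroups of subgroups of finite index, which are virtually solvable -/
theorem chern_vs [ConnectedSpace X] (D : AffMfd X Γ E dev hol)
    (hinj : Function.Injective dev) (hfree : ∀ (γ : Γ) (x : X), γ • x = x → γ = 1)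
    {H₀ : Subgroup Γ} (hH₀ : H₀.FiniteIndex) (R : Subgroup H₀) (hR : R.Normal) (hne : R ≠ ⊥)
    (S : Subgroup R) (hS : Group.IsSolvable S) (hidx : S.FiniteIndex) :
    ∃ K : Subgroup Γ, K.FiniteIndex ∧ Fld dev (hol.comp K.subtype) ⊤ := by
  have D' := restr D H₀ hH₀
  have hfree' : ∀ (γ : H₀) (x : X), γ • x = x → γ = 1 := fun γ x h =>
    Subtype.ext (hfree γ.1 x h)
  have key : ∃ K : Subgroup H₀, K.FiniteIndex ∧
      Fld dev ((hol.comp H₀.subtype).comp K.subtype) ⊤ := by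
    rcases exists_abelian_or_finite R hR S hS hidx with ⟨A, hA, hA1, hcom⟩ | hfin
    · exact chern_normal D' hinj hfree' hA hcom hA1
    · obtain ⟨a, ha, ha1⟩ : ∃ a ∈ R, a ≠ 1 := by
        by_contra hc
        push Not at hc
        exact hne ((Subgroup.eq_bot_iff_forall R).2 hc)
      exact chern_finite D' hinj hfree' hR hfin ha ha1
  obtain ⟨K, hK, hF⟩ := key
  obtain ⟨-, h2, h3⟩ := fld_map hH₀ hK hF
  exact ⟨_, h2, h3⟩

end Pool.Agent.U352.UH
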