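import Pool.Agent.U352.UH.Unit

/-!
Equivariant vector fields without zeros.
-/

set_option autoImplicit false
set_option linter.unusedSectionVars false

open Set Filter Topology MeasureTheory
open scoped NNReal

namespace Pool.Agent.U352.UH

variable {Γ E V : Type} [Group Γ] [NormedAddCommGroup E] [NormedSpace ℝ E]
  [FiniteDimensional ℝ E] [NormedAddCommGroup V] [NormedSpace ℝ V] [FiniteDimensional ℝ V]
  {hol : Γ →* (E ≃ᵃ[ℝ] E)} {N : Subgroup Γ} {Ω : Set E} {P : V → E → E} {l : V → E →L[ℝ] E}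
  {m : Γ → E →L[ℝ] E} {A : Γ → V → V}

/-- locally Lipschitz at a point -/
def LL1 {F G : Type} [NormedAddCommGroup F] [NormedAddCommGroup G] (f : F → G) (x : F) : Prop :=
  ∃ K : ℝ≥0, ∃ t ∈ 𝓝 x, LipschitzOnWith K f t

theorem LL1.cont {F G : Type} [NormedAddCommGroup F] [NormedAddCommGroup G] {f : F → G} {x : F}
    (h : LL1 f x) : ContinuousAt f x := by
  obtain ⟨K, t, ht, hf⟩ := h
  exact hf.continuousOn.continuousAt ht

theorem LL1.comp {F G H : Type} [NormedAddCommGroup F] [NormedAddCommGroup G]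
    [NormedAddCommGroup H] {f : F → G} {g : G → H} {x : F} (hg : LL1 g (f x)) (hf : LL1 f x) :
    LL1 (g ∘ f) x := by
  have hc := hf.cont
  obtain ⟨K, t, ht, h⟩ := hf
  obtain ⟨K', t', ht', h'⟩ := hg
  refine ⟨K' * K, t ∩ f ⁻¹' t', inter_mem ht (hc.preimage_mem_nhds ht'), ?_⟩
  exact h'.comp (h.mono inter_subset_left) (fun y hy => hy.2)

theorem LL1.prod {F G H : Type} [NormedAddCommGroup F] [NormedAddCommGroup G]
    [NormedAddCommGroup H] {f : F → G} {g : F → H} {x : F} (hf : LL1 f x) (hg : LL1 g x) :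
    LL1 (fun y => (f y, g y)) x := by
  obtain ⟨K, t, ht, h⟩ := hf
  obtain ⟨K', t', ht', h'⟩ := hg
  refine ⟨max K K', t ∩ t', inter_mem ht ht', ?_⟩
  exact (h.mono inter_subset_left).prodMk (h'.mono inter_subset_right)

theorem LL1.of_bound {F G : Type} [NormedAddCommGroup F] [NormedAddCommGroup G] {f : F → G}
    {x : F} {t : Set F} (ht : t ∈ 𝓝 x) {K : ℝ} (hK : 0 ≤ K)
    (h : ∀ y ∈ t, ∀ z ∈ t, ‖f y - f z‖ ≤ K * ‖y - z‖) : LL1 f x := by
  refine ⟨⟨K, hK⟩, t, ht, LipschitzOnWith.of_dist_le_mul fun y hy z hz => ?_⟩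
  rw [dist_eq_norm, dist_eq_norm]
  exact h y hy z hz

theorem LL1.of_contDiffAt {F G : Type} [NormedAddCommGroup F] [NormedSpace ℝ F]
    [NormedAddCommGroup G] [NormedSpace ℝ G] {f : F → G} {x : F} (h : ContDiffAt ℝ 1 f x) :
    LL1 f x := h.exists_lipschitzOnWith

/-- images of invariant locally Lipschitz maps have small dimension -/
theorem Sy.dim (S : Sy hol N Ω P l m A) {Ω₁ : Set E} (hO : IsOpen Ω₁) (hsub : Ω₁ ⊆ Ω)
    (hV : ∀ x ∈ Ω₁, ∀ s, P s x ∈ Ω₁) {h : E → E} (hlip : ∀ x ∈ Ω₁, LL1 h x)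
    (hinv : ∀ x ∈ Ω₁, ∀ s, h (P s x) = h x) {C : Set E} (hC : IsCompact C) (hCΩ : C ⊆ Ω₁) :
    dimH (h '' C) ≤ (Module.finrank ℝ E - 1 : ℕ) := by
  refine hC.induction_on (p := fun s => dimH (h '' s) ≤ (Module.finrank ℝ E - 1 : ℕ)) ?_ ?_ ?_ ?_
  · rw [image_empty, dimH_empty]; exact bot_le
  · intro s t hst ht
    exact (dimH_mono (image_mono hst)).trans ht
  · intro s t hs ht
    rw [image_union, dimH_union]
    exact max_le hs ht
  · intro x₀ hx₀
    have hx₁ := hCΩ hx₀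
    obtain ⟨s₀, v, hv, hd⟩ := S.move x₀ (hsub hx₁)
    obtain ⟨f, hf⟩ := SeparatingDual.exists_eq_one (R := ℝ) hv
    -- the affine hyperplane
    let H : Set E := range fun w : LinearMap.ker (f : E →ₗ[ℝ] ℝ) => x₀ + (w : E)
    have hH : dimH H ≤ (Module.finrank ℝ E - 1 : ℕ) := by
      have h1 : ContDiff ℝ 1 fun w : LinearMap.ker (f : E →ₗ[ℝ] ℝ) => x₀ + (w : E) :=
        contDiff_const.add (Submodule.subtypeL (LinearMap.ker (f : E →ₗ[ℝ] ℝ))).contDiff
      refine h1.dimH_range_le.trans ?_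
      have h2 : Module.finrank ℝ (LinearMap.ker (f : E →ₗ[ℝ] ℝ)) < Module.finrank ℝ E := by
        refine Submodule.finrank_lt ?_
        intro htop
        have h3 : v ∈ LinearMap.ker (f : E →ₗ[ℝ] ℝ) := by rw [htop]; trivial
        have h4 : f v = 0 := h3
        rw [hf] at h4
        exact one_ne_zero h4
      exact_mod_cast Nat.le_sub_one_of_lt h2
    have hmemH : ∀ y, f (y - x₀) = 0 → y ∈ H := fun y hy => ⟨⟨y - x₀, hy⟩, by
      show x₀ + (y - x₀) = y
      abel⟩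
    -- signs
    let g : E → ℝ → ℝ := fun x t => f (P (t • s₀) x - x₀)
    have hgc : Continuous fun p : E × ℝ => g p.1 p.2 := by
      refine f.continuous.comp (Continuous.sub ?_ continuous_const)
      exact S.P_cont.comp ((continuous_snd.smul continuous_const).prodMk continuous_fst)
    have hg0 : HasDerivAt (g x₀) 1 0 := by
      have h1 := f.hasFDerivAt.comp_hasDerivAt (0 : ℝ) (hd.sub_const x₀)
      rw [hf] at h1
      exact h1
    have hg00 : g x₀ 0 = 0 := by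
      show f (P ((0 : ℝ) • s₀) x₀ - x₀) = 0
      rw [zero_smul, S.P_zero, sub_self, map_zero]
    obtain ⟨δ, hδ, hpos, hneg⟩ : ∃ δ > 0, 0 < g x₀ δ ∧ g x₀ (-δ) < 0 := by
      have h1 := hg0.tendsto_slope
      have h2 : ∀ᶠ t in 𝓝[≠] (0 : ℝ), 0 < slope (g x₀) 0 t :=
        h1.eventually (lt_mem_nhds one_pos)
      obtain ⟨ε, hε, h3⟩ := Metric.mem_nhdsWithin_iff.1 h2
      have h4 : ∀ t : ℝ, |t| < ε → t ≠ 0 → 0 < g x₀ t / t := by
        intro t ht ht0
        have h5 : t ∈ Metric.ball (0 : ℝ) ε ∩ {0}ᶜ := ⟨by rwa [mem_ball_zero_iff], ht0⟩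
        have h6 : 0 < slope (g x₀) 0 t := h3 h5
        rw [slope_def_field, hg00, sub_zero, sub_zero] at h6
        exact h6
      refine ⟨ε / 2, by positivity, ?_, ?_⟩
      · have h5 := h4 (ε / 2) (by rw [abs_of_pos (by positivity)]; linarith) (by positivity)
        have h6 : 0 < ε / 2 := by positivity
        rcases div_pos_iff.1 h5 with h7 | h7
        · exact h7.1
        · linarith [h7.2]
      · have h6 : 0 < ε / 2 := by positivity
        have h5 := h4 (-(ε / 2)) (by rw [abs_neg, abs_of_pos h6]; linarith) (by linarith)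
        rcases div_pos_iff.1 h5 with h7 | h7
        · linarith [h7.2]
        · exact h7.1
    have hW : {x | x ∈ Ω₁ ∧ 0 < g x δ ∧ g x (-δ) < 0} ∈ 𝓝 x₀ := by
      refine inter_mem (hO.mem_nhds hx₁) (inter_mem ?_ ?_)
      · have h1 : Continuous fun x => g x δ := hgc.comp (continuous_id.prodMk continuous_const)
        exact (isOpen_lt continuous_const h1).mem_nhds hpos
      · have h1 : Continuous fun x => g x (-δ) := hgc.comp (continuous_id.prodMk continuous_const)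
        exact (isOpen_lt h1 continuous_const).mem_nhds hneg
    refine ⟨_, mem_nhdsWithin_of_mem_nhds hW, ?_⟩
    have hsub' : h '' {x | x ∈ Ω₁ ∧ 0 < g x δ ∧ g x (-δ) < 0} ⊆ h '' (Ω₁ ∩ H) := by
      rintro _ ⟨x, ⟨hx, hx1, hx2⟩, rfl⟩
      have h1 : ContinuousOn (g x) (Icc (-δ) δ) := by
        have : Continuous (g x) := hgc.comp (continuous_const.prodMk continuous_id)
        exact this.continuousOn
      obtain ⟨t, -, ht⟩ := intermediate_value_Icc (by linarith : -δ ≤ δ) h1 ⟨hx2.le, hx1.le⟩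
      refine ⟨P (t • s₀) x, ⟨hV x hx _, hmemH _ ht⟩, hinv x hx _⟩
    refine (dimH_mono hsub').trans (le_trans ?_ ((dimH_mono (inter_subset_right (s := Ω₁))).trans hH))
    refine dimH_image_le_of_locally_lipschitzOn fun x hx => ?_
    obtain ⟨K, t, ht, hKt⟩ := hlip x hx.1
    exact ⟨K, t, mem_nhdsWithin_of_mem_nhds ht, hKt⟩

/-- equivariant locally Lipschitz fields -/
structure EF (hol : Γ →* (E ≃ᵃ[ℝ] E)) (Ω : Set E) (P : V → E → E) (l : V → E →L[ℝ] E)
    (m : Γ → E →L[ℝ] E) (Z : E → E) : Prop where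
  lip : ∀ x ∈ Ω, LL1 Z x
  hol : ∀ γ, ∀ x ∈ Ω, Z (hol γ x) = m γ (Z x)
  V : ∀ s, ∀ x ∈ Ω, Z (P s x) = l s (Z x)

section
variable [MeasurableSpace V] [BorelSpace V] {C₀ : Set E} {φ : E → ℝ}

theorem Sy.Lop_LL1 (S : Sy hol N Ω P l m A) (B : Bump Ω C₀ φ) {x : E} (hx : x ∈ Ω) :
    LL1 (Lop hol N P l m φ) x := by
  obtain ⟨r, hr, hsub⟩ := Metric.nhds_basis_closedBall.mem_iff.1 (S.isOpen.mem_nhds hx)
  obtain ⟨K, hK, h⟩ := S.Lop_lip B (isCompact_closedBall x r) hsub
  exact LL1.of_bound (Metric.closedBall_mem_nhds x hr) hK h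

/-- one more compact set -/
theorem Sy.step (S : Sy hol N Ω P l m A) (B : Bump Ω C₀ φ) {Z : E → E} (hZ : EF hol Ω P l m Z)
    {C' C : Set E} (hC' : IsCompact C') (hC'Ω : C' ⊆ Ω) (hne : ∀ x ∈ C', Z x ≠ 0)
    (hC : IsCompact C) (hCΩ : C ⊆ Ω) (hu : ∀ x ∈ C, IsUnit (Lop hol N P l m φ x)) :
    ∃ Z' : E → E, EF hol Ω P l m Z' ∧ ∀ x ∈ C' ∪ C, Z' x ≠ 0 := by
  set L := Lop hol N P l m φ with hL
  by_cases hE : Module.finrank ℝ E = 0
  · -- trivial case: there are no points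
    have hsub : Subsingleton E := Module.finrank_zero_iff.1 hE
    refine ⟨Z, hZ, ?_⟩
    rintro x hx
    exfalso
    have hxΩ : x ∈ Ω := hx.elim (fun h => hC'Ω h) (fun h => hCΩ h)
    obtain ⟨s, v, hv, -⟩ := S.move x hxΩ
    exact hv (Subsingleton.elim _ _)
  let Ω₁ : Set E := {x | x ∈ Ω ∧ IsUnit (L x)}
  have hLlip : ∀ x ∈ Ω, LL1 L x := fun x hx => S.Lop_LL1 B hx
  have hO : IsOpen Ω₁ := by
    rw [isOpen_iff_mem_nhds]
    rintro x ⟨hx, hux⟩
    have h1 : ContinuousAt L x := (hLlip x hx).cont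
    exact inter_mem (S.isOpen.mem_nhds hx) (h1.preimage_mem_nhds (Units.isOpen.mem_nhds hux))
  have hlunit : ∀ s, IsUnit (l s) := fun s =>
    ⟨⟨l s, l (-s), S.l_neg' s, S.l_neg s⟩, rfl⟩
  have hV : ∀ x ∈ Ω₁, ∀ s, P s x ∈ Ω₁ := by
    rintro x ⟨hx, hux⟩ s
    refine ⟨S.P_inv s x hx, ?_⟩
    rw [hL, S.Lop_V B hx]
    exact (hlunit s).mul hux
  let I : (E →L[ℝ] E) → (E →L[ℝ] E) := Ring.inverse
  let h : E → E := fun x => -(I (L x) (Z x))
  have hhL : ∀ x ∈ Ω₁, L x (h x) = -Z x := by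
    rintro x ⟨-, hux⟩
    show L x (-(I (L x) (Z x))) = -Z x
    rw [map_neg]
    congr 1
    exact congrArg (fun f : E →L[ℝ] E => f (Z x)) (Ring.mul_inverse_cancel _ hux)
  have huniq : ∀ x ∈ Ω₁, ∀ c, L x c = -Z x → c = h x := by
    intro x hx c hc
    have h1 : L x c = L x (h x) := by rw [hhL x hx, hc]
    have h2 := congrArg (I (L x)) h1
    have h3 : ∀ w, I (L x) (L x w) = w := fun w =>
      congrArg (fun f : E →L[ℝ] E => f w) (Ring.inverse_mul_cancel _ hx.2)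
    rwa [h3, h3] at h2
  have hinv : ∀ x ∈ Ω₁, ∀ s, h (P s x) = h x := by
    intro x hx s
    refine (huniq _ (hV x hx s) (h x) ?_).symm
    rw [hL, S.Lop_V B hx.1, hZ.V s x hx.1]
    show l s (L x (h x)) = -(l s (Z x))
    rw [hhL x hx, map_neg]
  have hlip : ∀ x ∈ Ω₁, LL1 h x := by
    rintro x ⟨hx, hux⟩
    have h1 : LL1 (fun y => (L y, Z y)) x := (hLlip x hx).prod (hZ.lip x hx)
    have h2 : LL1 (fun p : (E →L[ℝ] E) × E => -(I p.1 p.2)) (L x, Z x) := by
      refine LL1.of_contDiffAt ?_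
      obtain ⟨u, hu'⟩ := hux
      have h3 : ContDiffAt ℝ 1 I (L x) := by
        rw [← hu']
        exact contDiffAt_ringInverse ℝ u
      have h4 : ContDiffAt ℝ 1 (fun p : (E →L[ℝ] E) × E => I p.1) (L x, Z x) :=
        ContDiffAt.comp (g := I) (L x, Z x) h3 contDiffAt_fst
      exact (h4.clm_apply contDiffAt_snd).neg
    exact LL1.comp (f := fun y => (L y, Z y)) h2 h1
  have hCΩ₁ : C ⊆ Ω₁ := fun x hx => ⟨hCΩ hx, hu x hx⟩
  have hdim := S.dim hO (fun x hx => hx.1) hV hlip hinv hC hCΩ₁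
  have hdense : Dense (h '' C)ᶜ := by
    refine dense_compl_of_dimH_lt_finrank (hdim.trans_lt ?_)
    exact_mod_cast Nat.sub_lt (Nat.pos_of_ne_zero hE) one_pos
  -- bounds on `C'`
  obtain ⟨ε, hε, hεZ⟩ : ∃ ε > 0, ∀ x ∈ C', ε ≤ ‖Z x‖ := by
    rcases C'.eq_empty_or_nonempty with rfl | hne'
    · exact ⟨1, one_pos, fun x hx => absurd hx (notMem_empty _)⟩
    · have hc : ContinuousOn (fun x => ‖Z x‖) C' := fun x hx =>
        (hZ.lip x (hC'Ω hx)).cont.norm.continuousWithinAt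
      obtain ⟨x, hx, hmin⟩ := hC'.exists_isMinOn hne' hc
      exact ⟨‖Z x‖, norm_pos_iff.2 (hne x hx), fun y hy => hmin hy⟩
  obtain ⟨M, hM⟩ : ∃ M : ℝ, ∀ x ∈ C', ‖L x‖ ≤ M := by
    have hc : ContinuousOn L C' := fun x hx => (hLlip x (hC'Ω hx)).cont.continuousWithinAt
    exact hC'.exists_bound_of_continuousOn hc
  have hη : 0 < ε / (|M| + 1) := by positivity
  obtain ⟨c, hc, hcn⟩ := hdense.exists_mem_open Metric.isOpen_ball
    (⟨0, Metric.mem_ball_self hη⟩ : (Metric.ball (0 : E) (ε / (|M| + 1))).Nonempty)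
  rw [mem_ball_zero_iff] at hcn
  refine ⟨fun x => Z x + L x c, ⟨?_, ?_, ?_⟩, ?_⟩
  · intro x hx
    have h1 : LL1 (fun y => (L y, Z y)) x := (hLlip x hx).prod (hZ.lip x hx)
    have h2 : LL1 (fun p : (E →L[ℝ] E) × E => p.2 + p.1 c) (L x, Z x) := by
      refine LL1.of_contDiffAt (contDiffAt_snd.add ?_)
      exact contDiffAt_fst.clm_apply contDiffAt_const
    exact LL1.comp (f := fun y => (L y, Z y)) h2 h1
  · intro γ x hx
    show Z (hol γ x) + L (hol γ x) c = m γ (Z x + L x c)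
    rw [hZ.hol γ x hx, hL, S.Lop_hol B hx, map_add]
    rfl
  · intro s x hx
    show Z (P s x) + L (P s x) c = l s (Z x + L x c)
    rw [hZ.V s x hx, hL, S.Lop_V B hx, map_add]
    rfl
  · rintro x (hx | hx) h0
    · have h1 : ‖L x c‖ < ε := by
        calc ‖L x c‖ ≤ ‖L x‖ * ‖c‖ := (L x).le_opNorm c
          _ ≤ (|M| + 1) * ‖c‖ := by
            refine mul_le_mul_of_nonneg_right ?_ (norm_nonneg _)
            linarith [hM x hx, le_abs_self M]
          _ < (|M| + 1) * (ε / (|M| + 1)) := by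
            exact mul_lt_mul_of_pos_left hcn (by positivity)
          _ = ε := by field_simp
      have h2 : Z x = -(L x c) := eq_neg_of_add_eq_zero_left h0
      have h3 := hεZ x hx
      rw [h2, norm_neg] at h3
      linarith
    · apply hc
      refine ⟨x, hx, (huniq x (hCΩ₁ hx) c ?_).symm⟩
      exact eq_neg_of_add_eq_zero_right h0

theorem Sy.exists_EF (S : Sy hol N Ω P l m A) :
    ∃ Z : E → E, EF hol Ω P l m Z ∧ ∀ x ∈ Ω, Z x ≠ 0 := by
  classical
  obtain ⟨K, hKΩ, hK, hcc⟩ := S.cc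
  choose! r hr hsub hnear using S.near
  obtain ⟨T, hT⟩ := hK.elim_nhds_subcover' (fun x hx => Metric.closedBall x (r x / 2))
    (fun x hx => Metric.closedBall_mem_nhds x (by have := hr x (hKΩ hx); linarith))
  have key : ∀ T' : Finset K, ∃ Z : E → E, EF hol Ω P l m Z ∧
      ∀ x ∈ ⋃ y ∈ T', Metric.closedBall (y : E) (r y / 2), Z x ≠ 0 := by
    intro T'
    induction T' using Finset.induction with
    | empty =>
      refine ⟨fun _ => 0, ⟨fun x _ => ?_, fun γ x _ => (map_zero _).symm,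
        fun s x _ => (map_zero _).symm⟩, fun x hx => ?_⟩
      · exact LL1.of_contDiffAt contDiffAt_const
      · simp at hx
    | insert y T' hy ih =>
      obtain ⟨Z, hZ, hne⟩ := ih
      have hyΩ : (y : E) ∈ Ω := hKΩ y.2
      have B := cone_bump (hsub y hyΩ)
      have hrle : ∀ z : K, Metric.closedBall (z : E) (r z / 2) ⊆ Ω := fun z => by
        have := hr z (hKΩ z.2)
        exact (Metric.closedBall_subset_closedBall (by linarith)).trans (hsub z (hKΩ z.2))
      obtain ⟨Z', hZ', hne'⟩ := S.step B hZ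
        (C' := ⋃ z ∈ T', Metric.closedBall (z : E) (r z / 2))
        (T'.finite_toSet.isCompact_biUnion fun z _ => isCompact_closedBall _ _)
        (iUnion₂_subset fun z _ => hrle z) hne
        (isCompact_closedBall (y : E) (r y / 2)) (hrle y) (fun x hx => by
          refine S.unit (hsub y hyΩ) (hnear y hyΩ) ?_
          have := hr y hyΩ
          exact Metric.closedBall_subset_ball (by linarith) hx)
      refine ⟨Z', hZ', fun x hx => hne' x ?_⟩
      rw [Finset.set_biUnion_insert] at hx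
      exact hx.elim Or.inr Or.inl
  obtain ⟨Z, hZ, hne⟩ := key T
  refine ⟨Z, hZ, fun x hx h0 => ?_⟩
  obtain ⟨γ, hγ⟩ := hcc x hx
  refine hne _ (hT hγ) ?_
  rw [hZ.hol γ x hx, h0, map_zero]

end

end Pool.Agent.U352.UH
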