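import Pool.Agent.U352.UH.Sat

/-!
The hull acts freely and properly on `Ω`.
-/

set_option autoImplicit false
set_option linter.unusedSectionVars false

open Set Filter Topology MeasureTheory Pool.Agent.W689.Mk Module
open Pool.Agent.N520.RO (aff aff_apply aff_mul aff_one affU lin_zero)
open Pool.Agent.U352.AF (Dom hol_mul hcont pack)

namespace Pool.Agent.U352.UH

variable {Γ E : Type} [Group Γ] [NormedAddCommGroup E] [NormedSpace ℝ E] [FiniteDimensional ℝ E]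
  {hol : Γ →* (E ≃ᵃ[ℝ] E)} {N : Subgroup Γ} {Ω : Set E}
  {V : Type} [NormedAddCommGroup V] [NormedSpace ℝ V] [FiniteDimensional ℝ V]

/-- every vector is near the lattice -/
theorem lattice_near (D : Dom hol Ω) {x : E} (hx : x ∈ Ω) {h : UN hol N} (e : V ≃ₗ[ℝ] aa h) :
    ∃ R : ℝ, ∀ v : V, ∃ u ∈ LL e, ‖v - u‖ ≤ R := by
  classical
  have hdisc := LL_disc D hx e
  have hlat : IsZLattice ℝ (LL e) := ⟨LL_span e⟩
  let b := Free.chooseBasis ℤ (LL e)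
  let B := b.ofZLatticeBasis ℝ
  refine ⟨∑ i, ‖B i‖, fun v => ⟨ZSpan.floor B v, ?_, ?_⟩⟩
  · have h1 : Submodule.span ℤ (range B) = LL e := Basis.ofZLatticeBasis_span ℝ (LL e) b
    exact h1.le (ZSpan.floor B v).2
  · exact ZSpan.norm_fract_le B v

theorem LL_elt {h : UN hol N} {e : V ≃ₗ[ℝ] aa h} {u : V} (hu : u ∈ LL e) :
    ∃ a ∈ N, ex (jj e u) = aff (hol a) := hu.2.2

theorem ex_jj_inj {h : UN hol N} (e : V ≃ₗ[ℝ] aa h) {u v : V}
    (he : ex (jj e u) = ex (jj e v)) : u = v :=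
  jj_inj e (ex_inj (aa_comm h (jj_mem e u) (jj_mem e v)) (aa_prop h (jj_mem e u)).2
    (aa_prop h (jj_mem e v)).2 he)

theorem hull_image (D : Dom hol Ω) {h : UN hol N} (e : V ≃ₗ[ℝ] aa h) (hN : AN hol N) (R : ℝ)
    {C : Set E} (hC : IsCompact C) (hCΩ : C ⊆ Ω) :
    ∃ C' : Set E, IsCompact C' ∧ C' ⊆ Ω ∧ C ⊆ C' ∧ ∀ s : V, ‖s‖ ≤ R → ∀ y ∈ C, Pe e s y ∈ C' := by
  refine ⟨(fun p : V × E => Pe e p.1 p.2) '' (Metric.closedBall 0 R ×ˢ C) ∪ C,
    (((isCompact_closedBall _ _).prod hC).image (Pe_cont e)).union hC, ?_, subset_union_right, ?_⟩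
  · refine union_subset ?_ hCΩ
    rintro _ ⟨⟨σ, y⟩, ⟨-, hy⟩, rfl⟩
    exact hull_inv_co D e hN (hCΩ hy) σ
  · intro s hs y hy
    exact Or.inl ⟨(s, y), ⟨mem_closedBall_zero_iff.2 hs, hy⟩, rfl⟩

/-- reduction of elements of the extended group to a bounded set -/
theorem prop_G (D : Dom hol Ω) {h : UN hol N} (e : V ≃ₗ[ℝ] aa h) (hN : AN hol N)
    {C : Set E} (hC : IsCompact C) (hCΩ : C ⊆ Ω) :
    ∃ (R : ℝ) (F : Set Γ), F.Finite ∧ ∀ (s : V) (γ : Γ) (y : E), y ∈ C →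
      Pe e s (hol γ y) ∈ C → ∃ u ∈ LL e, ∃ a ∈ N, ex (jj e u) = aff (hol a) ∧ ‖s - u‖ ≤ R ∧
        a * γ ∈ F := by
  rcases C.eq_empty_or_nonempty with rfl | ⟨x, hx⟩
  · exact ⟨0, ∅, finite_empty, fun s γ y hy => absurd hy (notMem_empty _)⟩
  obtain ⟨R, hR⟩ := lattice_near D (hCΩ hx) e
  obtain ⟨C', hC', hC'Ω, hCC', hball⟩ := hull_image D e hN R hC hCΩ
  refine ⟨R, _, D.pd C' hC'Ω hC', fun s γ y hy hs => ?_⟩
  obtain ⟨u, hu, hus⟩ := hR s
  obtain ⟨a, ha, hea⟩ := LL_elt hu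
  refine ⟨u, hu, a, ha, hea, hus, y, hCC' hy, ?_⟩
  have h1 : hol (a * γ) y = Pe e (-(s - u)) (Pe e s (hol γ y)) := by
    rw [← Pe_add, hol_mul]
    have h2 : -(s - u) + s = u := by abel
    rw [h2]
    exact (Ph_Lam (h := h) hea _).symm
  rw [h1]
  exact hball _ (by rwa [norm_neg]) _ hs

/-- the hull acts properly -/
theorem hull_proper (D : Dom hol Ω) {h : UN hol N} (e : V ≃ₗ[ℝ] aa h) (hN : AN hol N)
    {C : Set E} (hC : IsCompact C) (hCΩ : C ⊆ Ω) :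
    ∃ B : ℝ, ∀ (s : V) (y : E), y ∈ C → Pe e s y ∈ C → ‖s‖ ≤ B := by
  obtain ⟨R, F, hF, hp⟩ := prop_G D e hN hC hCΩ
  have hfin : {u : V | ∃ a ∈ F, ex (jj e u) = aff (hol a)}.Finite := by
    have h1 : ((fun a => aff (hol a)) '' F).Finite := hF.image _
    refine (h1.preimage (f := fun u : V => ex (jj e u)) ?_).subset ?_
    · exact fun u _ v _ he => ex_jj_inj e he
    · rintro u ⟨a, ha, he⟩
      exact ⟨a, ha, he.symm⟩
  obtain ⟨B, hB⟩ := hfin.isBounded.exists_norm_le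
  refine ⟨R + B, fun s y hy hs => ?_⟩
  obtain ⟨u, hu, a, ha, hea, hus, haF⟩ := hp s 1 y hy (by rw [map_one]; exact hs)
  rw [mul_one] at haF
  have h1 := hB u ⟨a, haF, hea⟩
  calc ‖s‖ = ‖(s - u) + u‖ := by rw [sub_add_cancel]
    _ ≤ ‖s - u‖ + ‖u‖ := norm_add_le _ _
    _ ≤ R + B := add_le_add hus h1

/-- the hull acts freely -/
theorem Pe_free (D : Dom hol Ω) {h : UN hol N} (e : V ≃ₗ[ℝ] aa h) (hN : AN hol N)
    {x : E} (hx : x ∈ Ω) {s : V} (hs : Pe e s x = x) : s = 0 := by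
  obtain ⟨B, hB⟩ := hull_proper D e hN (isCompact_singleton (x := x)) (singleton_subset_iff.2 hx)
  have h1 : ∀ k : ℕ, Pe e ((k : ℝ) • s) x = x := by
    intro k
    induction k with
    | zero => rw [Nat.cast_zero, zero_smul, Pe_zero]
    | succ k ih => rw [Nat.cast_succ, add_smul, one_smul, Pe_add, hs, ih]
  by_contra hne
  have h2 : 0 < ‖s‖ := norm_pos_iff.2 hne
  obtain ⟨k, hk⟩ := exists_nat_gt (B / ‖s‖)
  have h3 := hB ((k : ℝ) • s) x rfl (h1 k)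
  rw [norm_smul, Real.norm_of_nonneg (Nat.cast_nonneg k)] at h3
  rw [div_lt_iff₀ h2] at hk
  linarith

end Pool.Agent.U352.UH
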