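import Pool.Agent.U352.UH.Ex
import Pool.Agent.U352.AF.Comp
import Pool.Agent.N520.RO.Def

/-!
The unipotent hull of an abelian normal subgroup with unipotent affine holonomy.
-/

set_option autoImplicit false

open Set Filter Topology MeasureTheory Pool.Agent.W689.Mk Module
open Pool.Agent.N520.RO (aff aff_apply aff_mul aff_one affU lin_zero)
open Pool.Agent.U352.AF (Dom hol_mul hcont)

namespace Pool.Agent.U352.UH

variable {Γ E : Type} [Group Γ] [NormedAddCommGroup E] [NormedSpace ℝ E] [FiniteDimensional ℝ E]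

/-- the algebra of operators -/
abbrev BB (E : Type) [NormedAddCommGroup E] [NormedSpace ℝ E] : Type := (E × ℝ) →L[ℝ] (E × ℝ)

/-- the action of an operator on `E`, identified with `E × {1}` -/
def act (f : BB E) (x : E) : E := (f (x, 1)).1

/-- the linear part -/
def ln (f : BB E) (v : E) : E := (f (v, 0)).1

theorem act_add (f : BB E) (x v : E) : act f (x + v) = act f x + ln f v := by
  have : ((x + v, 1) : E × ℝ) = (x, 1) + (v, 0) := by simp
  rw [act, act, ln, this, map_add]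
  rfl

theorem act_one (x : E) : act (1 : BB E) x = x := rfl

theorem act_aff (g : E ≃ᵃ[ℝ] E) (x : E) : act (aff g) x = g x := by
  rw [act, aff_apply, lin_zero g x, one_smul]

theorem ln_aff (g : E ≃ᵃ[ℝ] E) (v : E) : ln (aff g) v = g.linear v := by
  rw [ln, aff_apply, zero_smul, add_zero]

/-- the abelian group `N` acts by unipotent affine maps -/
structure UN (hol : Γ →* (E ≃ᵃ[ℝ] E)) (N : Subgroup Γ) : Prop where
  comm : ∀ a ∈ N, ∀ b ∈ N, Commute (aff (hol a)) (aff (hol b))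
  unip : ∀ a ∈ N, IsNilpotent (aff (hol a) - 1)

/-- the algebra generated by the operators of `N` -/
def SA (hol : Γ →* (E ≃ᵃ[ℝ] E)) (N : Subgroup Γ) : Subalgebra ℝ (BB E) :=
  Algebra.adjoin ℝ {f | ∃ a ∈ N, f = aff (hol a)}

variable {hol : Γ →* (E ≃ᵃ[ℝ] E)} {N : Subgroup Γ} {Ω : Set E}

theorem mem_SA {a : Γ} (ha : a ∈ N) : aff (hol a) ∈ SA hol N :=
  Algebra.subset_adjoin ⟨a, ha, rfl⟩

theorem SA_comm (h : UN hol N) {f g : BB E} (hf : f ∈ SA hol N) (hg : g ∈ SA hol N) :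
    Commute f g := by
  have h1 : ∀ a ∈ N, SA hol N ≤ Subalgebra.centralizer ℝ {aff (hol a)} := by
    intro a ha
    rw [SA, Algebra.adjoin_le_iff]
    rintro _ ⟨b, hb, rfl⟩
    rw [SetLike.mem_coe, Subalgebra.mem_centralizer_iff]
    intro z hz
    rw [mem_singleton_iff] at hz
    subst hz
    exact (h.comm a ha b hb).eq
  have h2 : SA hol N ≤ Subalgebra.centralizer ℝ {f} := by
    rw [SA, Algebra.adjoin_le_iff]
    rintro _ ⟨b, hb, rfl⟩
    rw [SetLike.mem_coe, Subalgebra.mem_centralizer_iff]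
    intro z hz
    rw [mem_singleton_iff] at hz
    subst hz
    exact ((Subalgebra.mem_centralizer_iff ℝ).1 (h1 b hb hf) _ rfl).symm
  exact (Subalgebra.mem_centralizer_iff ℝ).1 (h2 hg) f rfl

theorem ex_mem_SA {f : BB E} (hf : f ∈ SA hol N) (hn : IsNilpotent f) : ex f ∈ SA hol N := by
  obtain ⟨m, hm⟩ := hn
  rw [ex_sum hm]
  exact Subalgebra.sum_mem _ fun n _ => Subalgebra.smul_mem _ (Subalgebra.pow_mem _ hf _) _

/-- operators acting on the last component by a scalar -/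
theorem SA_snd {f : BB E} (hf : f ∈ SA hol N) : ∃ c : ℝ, ∀ w, (f w).2 = c * w.2 := by
  refine Algebra.adjoin_induction (p := fun f _ => ∃ c : ℝ, ∀ w, (f w).2 = c * w.2)
    ?_ ?_ ?_ ?_ hf
  · rintro _ ⟨a, -, rfl⟩
    exact ⟨1, fun w => by rw [aff_apply, one_mul]⟩
  · intro r
    refine ⟨r, fun w => ?_⟩
    rw [Algebra.algebraMap_eq_smul_one]
    rfl
  · rintro f g - - ⟨c, hc⟩ ⟨d, hd⟩
    refine ⟨c + d, fun w => ?_⟩
    rw [add_mul, ← hc, ← hd]
    rfl
  · rintro f g - - ⟨c, hc⟩ ⟨d, hd⟩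
    refine ⟨c * d, fun w => ?_⟩
    show (f (g w)).2 = _
    rw [hc, hd, mul_assoc]

theorem nil_snd {f : BB E} (hf : f ∈ SA hol N) (hn : IsNilpotent f) (w : E × ℝ) :
    (f w).2 = 0 := by
  obtain ⟨c, hc⟩ := SA_snd hf
  obtain ⟨m, hm⟩ := hn
  have h1 : ∀ (m : ℕ) (w : E × ℝ), ((f ^ m) w).2 = c ^ m * w.2 := by
    intro m
    induction m with
    | zero => intro w; rw [pow_zero, pow_zero, one_mul]; rfl
    | succ m ih =>
      intro w
      rw [pow_succ', pow_succ']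
      show (f ((f ^ m) w)).2 = _
      rw [hc, ih, mul_assoc]
  have h2 := h1 m (0, 1)
  rw [hm] at h2
  have h3 : (0 : ℝ) = c ^ m * 1 := h2
  rw [mul_one] at h3
  have h4 : c = 0 := eq_zero_of_pow_eq_zero h3.symm
  rw [hc, h4, zero_mul]

/-- the logarithms of the elements of `N` -/
def Lam (h : UN hol N) : AddSubgroup (BB E) where
  carrier := {ξ | ξ ∈ SA hol N ∧ IsNilpotent ξ ∧ ∃ a ∈ N, ex ξ = aff (hol a)}
  add_mem' := by
    rintro ξ η ⟨h1, h2, a, ha, h3⟩ ⟨h4, h5, b, hb, h6⟩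
    have hc := SA_comm h h1 h4
    refine ⟨Subalgebra.add_mem _ h1 h4, hc.isNilpotent_add h2 h5, a * b, N.mul_mem ha hb, ?_⟩
    rw [ex_add hc, h3, h6, map_mul, aff_mul]
  zero_mem' := ⟨Subalgebra.zero_mem _, IsNilpotent.zero, 1, N.one_mem, by
    rw [ex_zero, map_one, aff_one]⟩
  neg_mem' := by
    rintro ξ ⟨h1, h2, a, ha, h3⟩
    refine ⟨Subalgebra.neg_mem _ h1, h2.neg, a⁻¹, N.inv_mem ha, ?_⟩
    have h4 : aff (hol a⁻¹) * aff (hol a) = 1 := by
      rw [← aff_mul, ← map_mul, inv_mul_cancel, map_one, aff_one]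
    calc ex (-ξ) = (aff (hol a⁻¹) * aff (hol a)) * ex (-ξ) := by rw [h4, one_mul]
      _ = aff (hol a⁻¹) * (ex ξ * ex (-ξ)) := by rw [h3, mul_assoc]
      _ = aff (hol a⁻¹) := by rw [ex_mul_neg, mul_one]

theorem exists_Lam (h : UN hol N) {a : Γ} (ha : a ∈ N) : ∃ ξ ∈ Lam h, ex ξ = aff (hol a) := by
  obtain ⟨ξ, h1, h2, h3⟩ := exists_log (h.unip a ha)
  refine ⟨ξ, ⟨?_, h2, a, ha, h3⟩, h3⟩
  have : Algebra.adjoin ℝ {aff (hol a)} ≤ SA hol N := by
    rw [Algebra.adjoin_le_iff, singleton_subset_iff]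
    exact mem_SA ha
  exact this h1

theorem ex_commute {A : Type} [NormedRing A] [NormedAlgebra ℝ A] [CompleteSpace A] (x : A) :
    Commute x (ex x) := by
  have h1 : ex (x + x) = ex x * ex x := ex_add (Commute.refl x)
  exact (Commute.refl x).exp_right

theorem mem_Lam_iff (h : UN hol N) {ξ : BB E} :
    ξ ∈ Lam h ↔ IsNilpotent ξ ∧ ∃ a ∈ N, ex ξ = aff (hol a) := by
  constructor
  · rintro ⟨-, h1, h2⟩
    exact ⟨h1, h2⟩
  · rintro ⟨hn, a, ha, he⟩
    obtain ⟨η, h1, h2, h3⟩ := exists_log (h.unip a ha)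
    have hc : Commute η ξ := by
      refine comm_adjoin ?_ h1
      rw [← he]
      exact (ex_commute ξ).symm
    have h4 : ξ = η := ex_inj hc.symm hn h2 (he.trans h3.symm)
    subst h4
    refine ⟨?_, hn, a, ha, he⟩
    have : Algebra.adjoin ℝ {aff (hol a)} ≤ SA hol N := by
      rw [Algebra.adjoin_le_iff, singleton_subset_iff]
      exact mem_SA ha
    exact this h1

theorem nsmul_aff {ξ : BB E} {a : Γ} (he : ex ξ = aff (hol a)) (k : ℕ) :
    ex ((k : ℝ) • ξ) = aff (hol (a ^ k)) := by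
  induction k with
  | zero => rw [Nat.cast_zero, zero_smul, ex_zero, pow_zero, map_one, aff_one]
  | succ k ih =>
    have hc : Commute ((k : ℝ) • ξ) ξ := (Commute.refl ξ).smul_left _
    rw [Nat.cast_succ, add_smul, one_smul, ex_add hc, ih, he, pow_succ, map_mul, aff_mul]

/-- Up to powers, the conjugates of the elements of `N` act as elements of `N`. -/
def AN (hol : Γ →* (E ≃ᵃ[ℝ] E)) (N : Subgroup Γ) : Prop :=
  ∀ γ : Γ, ∀ a ∈ N, ∃ k : ℕ, k ≠ 0 ∧ ∃ b ∈ N, hol (γ * a ^ k * γ⁻¹) = hol b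

theorem AN.of_normal (hN : N.Normal) : AN hol N := fun γ a ha =>
  ⟨1, one_ne_zero, γ * a ^ 1 * γ⁻¹, hN.conj_mem _ (N.pow_mem ha 1) γ, rfl⟩

theorem nil_smul {ξ : BB E} (h : IsNilpotent ξ) (c : ℝ) : IsNilpotent (c • ξ) := by
  obtain ⟨m, hm⟩ := h
  exact ⟨m, by rw [smul_pow, hm, smul_zero]⟩

/-- the Lie algebra of the hull -/
def aa (h : UN hol N) : Submodule ℝ (BB E) := Submodule.span ℝ (Lam h : Set (BB E))

theorem aa_prop (h : UN hol N) {s : BB E} (hs : s ∈ aa h) : s ∈ SA hol N ∧ IsNilpotent s := by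
  refine Submodule.span_induction (p := fun s _ => s ∈ SA hol N ∧ IsNilpotent s) ?_ ?_ ?_ ?_ hs
  · rintro ξ ⟨h1, h2, -⟩
    exact ⟨h1, h2⟩
  · exact ⟨Subalgebra.zero_mem _, IsNilpotent.zero⟩
  · rintro s t - - ⟨h1, h2⟩ ⟨h3, h4⟩
    exact ⟨Subalgebra.add_mem _ h1 h3, (SA_comm h h1 h3).isNilpotent_add h2 h4⟩
  · rintro c s - ⟨h1, h2⟩
    refine ⟨Subalgebra.smul_mem _ h1 _, ?_⟩
    obtain ⟨m, hm⟩ := h2
    exact ⟨m, by rw [smul_pow, hm, smul_zero]⟩

theorem aa_comm (h : UN hol N) {s t : BB E} (hs : s ∈ aa h) (ht : t ∈ aa h) : Commute s t :=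
  SA_comm h (aa_prop h hs).1 (aa_prop h ht).1

theorem ex_snd (h : UN hol N) {s : BB E} (hs : s ∈ aa h) (w : E × ℝ) : (ex s w).2 = w.2 := by
  obtain ⟨h1, h2⟩ := aa_prop h hs
  obtain ⟨ψ, hψ, he⟩ := ex_expand h2
  have hψS : ψ ∈ SA hol N := by
    have : Algebra.adjoin ℝ {s} ≤ SA hol N := by
      rw [Algebra.adjoin_le_iff, singleton_subset_iff]
      exact h1
    exact this hψ
  rw [he]
  show w.2 + (s w).2 + (s (s (ψ w))).2 = w.2
  rw [nil_snd h1 h2, nil_snd h1 h2, add_zero, add_zero]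

/-- the action of the hull -/
noncomputable def Ph (s : BB E) (x : E) : E := act (ex s) x

theorem Ph_zero (x : E) : Ph (0 : BB E) x = x := by rw [Ph, ex_zero, act_one]

theorem act_mul {f g : BB E} (hg : ∀ w, (g w).2 = w.2) (x : E) :
    act (f * g) x = act f (act g x) := by
  have h1 : g (x, 1) = ((g (x, 1)).1, 1) := Prod.ext rfl (hg _)
  show (f (g (x, 1))).1 = (f ((g (x, 1)).1, 1)).1
  rw [← h1]

theorem ln_mul {f g : BB E} (hg : ∀ w, (g w).2 = w.2) (v : E) :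
    ln (f * g) v = ln f (ln g v) := by
  have h1 : g (v, 0) = ((g (v, 0)).1, 0) := Prod.ext rfl (hg _)
  show (f (g (v, 0))).1 = (f ((g (v, 0)).1, 0)).1
  rw [← h1]

theorem aff_snd (g : E ≃ᵃ[ℝ] E) (w : E × ℝ) : (aff g w).2 = w.2 := by rw [aff_apply]

theorem Ph_add (h : UN hol N) {s t : BB E} (hs : s ∈ aa h) (ht : t ∈ aa h) (x : E) :
    Ph (s + t) x = Ph s (Ph t x) := by
  rw [Ph, Ph, Ph, ex_add (aa_comm h hs ht), act_mul (ex_snd h ht)]

theorem Ph_cont : Continuous fun p : BB E × E => Ph p.1 p.2 := by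
  have h1 : Continuous fun p : BB E × E => ex p.1 := ex_cont.comp continuous_fst
  exact ((h1.clm_apply (continuous_snd.prodMk continuous_const)).fst :)

/-- conjugation by the holonomy -/
noncomputable def Ad (hol : Γ →* (E ≃ᵃ[ℝ] E)) (γ : Γ) (s : BB E) : BB E :=
  aff (hol γ) * s * aff (hol γ⁻¹)

theorem aff_inv (γ : Γ) : aff (hol γ⁻¹) * aff (hol γ) = 1 := by
  rw [← aff_mul, ← map_mul, inv_mul_cancel, map_one, aff_one]

theorem aff_inv' (γ : Γ) : aff (hol γ) * aff (hol γ⁻¹) = 1 := by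
  rw [← aff_mul, ← map_mul, mul_inv_cancel, map_one, aff_one]

theorem Ad_mul (γ : Γ) (s t : BB E) : Ad hol γ (s * t) = Ad hol γ s * Ad hol γ t := by
  rw [Ad, Ad, Ad]
  calc aff (hol γ) * (s * t) * aff (hol γ⁻¹)
      = aff (hol γ) * s * 1 * t * aff (hol γ⁻¹) := by noncomm_ring
    _ = aff (hol γ) * s * (aff (hol γ⁻¹) * aff (hol γ)) * t * aff (hol γ⁻¹) := by rw [aff_inv]
    _ = _ := by noncomm_ring

theorem Ad_one (γ : Γ) : Ad hol γ (1 : BB E) = 1 := by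
  rw [Ad, mul_one, aff_inv']

theorem Ad_pow (γ : Γ) (s : BB E) (n : ℕ) : Ad hol γ (s ^ n) = Ad hol γ s ^ n := by
  induction n with
  | zero => rw [pow_zero, pow_zero, Ad_one]
  | succ n ih => rw [pow_succ, pow_succ, Ad_mul, ih]

theorem Ad_nil (γ : Γ) {s : BB E} (h : IsNilpotent s) : IsNilpotent (Ad hol γ s) := by
  obtain ⟨m, hm⟩ := h
  exact ⟨m, by rw [← Ad_pow, hm, Ad, mul_zero, zero_mul]⟩

theorem Ad_ex (γ : Γ) (s : BB E) : Ad hol γ (ex s) = ex (Ad hol γ s) := by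
  let := NormedAlgebra.restrictScalars ℚ ℝ (BB E)
  have h1 := NormedSpace.exp_units_conj (affU (hol γ)) s
  have h2 : (((affU (hol γ))⁻¹ : (BB E)ˣ) : BB E) = aff (hol γ⁻¹) := by
    rw [← map_inv, ← map_inv]; rfl
  rw [h2] at h1
  exact h1.symm

theorem Ad_aff (γ a : Γ) : Ad hol γ (aff (hol a)) = aff (hol (γ * a * γ⁻¹)) := by
  rw [Ad, map_mul, map_mul, aff_mul, aff_mul]

theorem Ad_comp (γ δ : Γ) (s : BB E) : Ad hol γ (Ad hol δ s) = Ad hol (γ * δ) s := by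
  rw [Ad, Ad, Ad, map_mul, aff_mul, mul_inv_rev, map_mul, aff_mul]
  noncomm_ring

theorem Ad_id (s : BB E) : Ad hol 1 s = s := by
  rw [Ad, inv_one, map_one, aff_one, one_mul, mul_one]

/-- conjugation as a linear map -/
noncomputable def AdL (hol : Γ →* (E ≃ᵃ[ℝ] E)) (γ : Γ) : BB E →ₗ[ℝ] BB E where
  toFun := Ad hol γ
  map_add' s t := by rw [Ad, Ad, Ad]; noncomm_ring
  map_smul' c s := by
    rw [Ad, Ad, RingHom.id_apply, mul_smul_comm, smul_mul_assoc]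

theorem Ad_aa (h : UN hol N) (hN : AN hol N) (γ : Γ) {s : BB E} (hs : s ∈ aa h) :
    Ad hol γ s ∈ aa h := by
  have h1 : aa h ≤ (aa h).comap (AdL hol γ) := by
    rw [aa, Submodule.span_le]
    rintro ξ ⟨-, h2, a, ha, h3⟩
    obtain ⟨k, hk, b, hb, he⟩ := hN γ a ha
    have h4 : AdL hol γ ((k : ℝ) • ξ) ∈ Lam h := by
      rw [mem_Lam_iff]
      refine ⟨Ad_nil γ (nil_smul h2 _), b, hb, ?_⟩
      show ex (Ad hol γ ((k : ℝ) • ξ)) = _
      rw [← Ad_ex, nsmul_aff h3, Ad_aff, he]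
    have hk' : (k : ℝ) ≠ 0 := Nat.cast_ne_zero.2 hk
    have h5 : AdL hol γ ξ = (k : ℝ)⁻¹ • AdL hol γ ((k : ℝ) • ξ) := by
      rw [map_smul, smul_smul, inv_mul_cancel₀ hk', one_smul]
    show AdL hol γ ξ ∈ aa h
    rw [h5]
    exact (aa h).smul_mem _ (Submodule.subset_span h4)
  exact h1 hs

theorem Ad_SA (h : UN hol N) (hN : AN hol N) (γ : Γ) {f : BB E} (hf : f ∈ SA hol N) :
    Ad hol γ f ∈ SA hol N := by
  refine Algebra.adjoin_induction (p := fun f _ => Ad hol γ f ∈ SA hol N) ?_ ?_ ?_ ?_ hf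
  · rintro _ ⟨a, ha, rfl⟩
    obtain ⟨ξ, hξ, he⟩ := exists_Lam h ha
    have h1 := aa_prop h (Ad_aa h hN γ (show ξ ∈ aa h from Submodule.subset_span hξ))
    rw [← he, Ad_ex]
    exact ex_mem_SA h1.1 h1.2
  · intro r
    have : Ad hol γ (algebraMap ℝ (BB E) r) = algebraMap ℝ (BB E) r := by
      rw [Algebra.algebraMap_eq_smul_one]
      have h1 : AdL hol γ (r • (1 : BB E)) = r • AdL hol γ 1 := map_smul _ _ _
      have h2 : AdL hol γ (1 : BB E) = 1 := Ad_one γ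
      rw [h2] at h1
      exact h1
    rw [this]
    exact Subalgebra.algebraMap_mem _ r
  · rintro f g - - h1 h2
    have : Ad hol γ (f + g) = Ad hol γ f + Ad hol γ g := (AdL hol γ).map_add f g
    rw [this]
    exact Subalgebra.add_mem _ h1 h2
  · rintro f g - - h1 h2
    rw [Ad_mul]
    exact Subalgebra.mul_mem _ h1 h2

theorem Ad_inj (γ : Γ) {s : BB E} (hs : Ad hol γ s = 0) : s = 0 := by
  have h1 : Ad hol γ⁻¹ (Ad hol γ s) = s := by rw [Ad_comp, inv_mul_cancel, Ad_id]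
  rw [← h1, hs, Ad, mul_zero, zero_mul]

/-- the holonomy is equivariant for the hull -/
theorem hol_Ph (h : UN hol N) (γ : Γ) {s : BB E} (hs : s ∈ aa h) (x : E) :
    hol γ (Ph s x) = Ph (Ad hol γ s) (hol γ x) := by
  have h1 : aff (hol γ) * ex s = ex (Ad hol γ s) * aff (hol γ) := by
    rw [← Ad_ex, Ad, mul_assoc _ (aff (hol γ⁻¹)), aff_inv, mul_one]
  rw [← act_aff, ← act_aff (hol γ) x, Ph, Ph, ← act_mul (ex_snd h hs), h1,
    act_mul (aff_snd _)]

theorem Ph_Lam {h : UN hol N} {ξ : BB E} {a : Γ} (he : ex ξ = aff (hol a)) (x : E) :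
    Ph ξ x = hol a x := by
  rw [Ph, he, act_aff]

end Pool.Agent.U352.UH
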