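import Pool.Agent.U352.UH.Tr
import Pool.Agent.U352.UH.Fq

/-!
After passing to a subgroup of finite index, the extended group acts freely on `Ω`.
-/

set_option autoImplicit false
set_option linter.unusedSectionVars false

open Set Filter Topology MeasureTheory Pool.Agent.W689.Mk Module
open Pool.Agent.N520.RO (aff aff_apply aff_mul aff_one affU lin_zero)
open Pool.Agent.U352.AF (Dom hol_mul hcont pack)

namespace Pool.Agent.U352.UH

variable {Γ E : Type} [Group Γ] [NormedAddCommGroup E] [NormedSpace ℝ E] [FiniteDimensional ℝ E]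
  {hol : Γ →* (E ≃ᵃ[ℝ] E)} {N : Subgroup Γ} {Ω : Set E}

theorem Ph_hol (s : BB E) (γ : Γ) (x : E) : Ph s (hol γ x) = act (ex s * aff (hol γ)) x := by
  rw [act_mul (aff_snd _), act_aff, Ph]

/-- elements of the extended group with a fixed point in `Ω` have finite order -/
theorem fin_order (D : Dom hol Ω) (h : UN hol N) (hN : AN hol N) {x : E} (hx : x ∈ Ω) {γ : Γ}
    {s : BB E} (hs : s ∈ aa h) (hfix : Ph s (hol γ x) = x) :
    ∃ m : ℕ, m ≠ 0 ∧ (ex s * aff (hol γ)) ^ m = 1 := by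
  obtain ⟨d, ⟨e⟩⟩ := exists_co h
  obtain ⟨R, F, hF, hp⟩ := prop_G D e hN (isCompact_singleton (x := x))
    (singleton_subset_iff.2 hx)
  set φ : BB E := ex s * aff (hol γ) with hφ
  have hsnd : ∀ (k : ℕ) (w : E × ℝ), ((φ ^ k) w).2 = w.2 := by
    intro k
    induction k with
    | zero => intro w; rw [pow_zero]; rfl
    | succ k ih =>
      intro w
      rw [pow_succ]
      show ((φ ^ k) (φ w)).2 = _
      rw [ih, hφ]
      show (ex s (aff (hol γ) w)).2 = _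
      rw [ex_snd h hs, aff_snd]
  have hfk : ∀ k : ℕ, act (φ ^ k) x = x := by
    intro k
    induction k with
    | zero => rw [pow_zero, act_one]
    | succ k ih =>
      rw [pow_succ, act_mul (fun w => by have := hsnd 1 w; rwa [pow_one] at this)]
      rw [← Ph_hol, hfix, ih]
  have hform : ∀ k : ℕ, ∃ σ ∈ aa h, ∃ g ∈ F, φ ^ k = ex σ * aff (hol g) := by
    intro k
    obtain ⟨t, ht, he⟩ := pow_form h hN γ hs k
    obtain ⟨v, rfl⟩ := jj_surj e ht
    have h1 : Pe e v (hol (γ ^ k) x) = x := by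
      show Ph (jj e v) (hol (γ ^ k) x) = x
      rw [Ph_hol, ← he]
      exact hfk k
    obtain ⟨u, hu, a, ha, hea, -, hF'⟩ := hp v (γ ^ k) x rfl h1
    refine ⟨jj e (v - u), jj_mem e _, a * γ ^ k, hF', ?_⟩
    rw [he, map_mul, aff_mul, ← hea, ← mul_assoc, ← ex_add (aa_comm h (jj_mem e _) (jj_mem e _)),
      ← map_add, sub_add_cancel]
  choose σ hσ g hg he using hform
  obtain ⟨k, l, hkl, hgg⟩ : ∃ k l : ℕ, k < l ∧ g k = g l := by
    have hinf : ¬ Function.Injective (fun k : ℕ => (⟨g k, hg k⟩ : F)) := by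
      intro hinj
      have := hF.to_subtype
      exact not_injective_infinite_finite _ hinj
    rw [Function.Injective] at hinf
    push Not at hinf
    obtain ⟨k, l, h1, h2⟩ := hinf
    have h3 : g k = g l := congrArg Subtype.val h1
    rcases lt_or_gt_of_ne h2 with h4 | h4
    · exact ⟨k, l, h4, h3⟩
    · exact ⟨l, k, h4, h3.symm⟩
  refine ⟨l - k, by omega, ?_⟩
  -- `φ ^ l = ex τ * φ ^ k`
  have h1 : φ ^ l = ex (σ l - σ k) * φ ^ k := by
    rw [he l, he k, hgg, ← mul_assoc, ← ex_add (aa_comm h ((aa h).sub_mem (hσ l) (hσ k)) (hσ k)),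
      sub_add_cancel]
  have hunit : IsUnit φ := by
    refine IsUnit.mul ?_ ?_
    · exact ⟨⟨ex s, ex (-s), ex_mul_neg s, ex_neg_mul s⟩, rfl⟩
    · exact ⟨affU (hol γ), rfl⟩
  have h2 : φ ^ (l - k) = ex (σ l - σ k) := by
    have h3 : φ ^ (l - k) * φ ^ k = ex (σ l - σ k) * φ ^ k := by
      rw [← h1, ← pow_add]
      congr 1
      omega
    exact (hunit.pow k).mul_right_cancel h3
  have h4 : Ph (σ l - σ k) x = x := by
    rw [Ph, ← h2]
    exact hfk _
  obtain ⟨v, hv⟩ := jj_surj e ((aa h).sub_mem (hσ l) (hσ k))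
  have h5 : v = 0 := Pe_free D e hN hx (by
    show Ph (jj e v) x = x
    rw [hv]; exact h4)
  rw [h2, ← hv, h5, map_zero, ex_zero]

theorem conj_pow_BB {g g' f : BB E} (h : g' * g = 1) (k : ℕ) :
    (g * f * g') ^ k * g = g * f ^ k := by
  induction k with
  | zero => rw [pow_zero, pow_zero, one_mul, mul_one]
  | succ k ih =>
    calc (g * f * g') ^ (k + 1) * g = (g * f * g') * ((g * f * g') ^ k * g) := by
          rw [pow_succ']; noncomm_ring
      _ = (g * f * g') * (g * f ^ k) := by rw [ih]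
      _ = g * f * (g' * g) * f ^ k := by noncomm_ring
      _ = g * f ^ (k + 1) := by rw [h, pow_succ']; noncomm_ring

/-- there is a subgroup of finite index such that the extension acts freely -/
theorem exists_iso (D : Dom hol Ω) (h : UN hol N) (hN : AN hol N) (hfg : Group.FG Γ) :
    ∃ K : Subgroup Γ, K.FiniteIndex ∧ ∀ γ ∈ K, ∀ s ∈ aa h, ∀ x ∈ Ω, Ph s (hol γ x) = x →
      ex s * aff (hol γ) = 1 := by
  classical
  obtain ⟨d, ⟨e⟩⟩ := exists_co h
  obtain ⟨C, hCΩ, hC, hcc⟩ := D.cc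
  obtain ⟨R, F, hF, hp⟩ := prop_G D e hN hC hCΩ
  let n := finrank ℝ (E × ℝ)
  let b := finBasis ℝ (E × ℝ)
  let ψ : Γ →* Matrix (Fin n) (Fin n) ℝ :=
    { toFun := fun γ => LinearMap.toMatrix b b (aff (hol γ) : (E × ℝ) →ₗ[ℝ] (E × ℝ))
      map_one' := by
        rw [map_one, aff_one]
        exact LinearMap.toMatrix_id b
      map_mul' := fun γ δ => by
        rw [map_mul, aff_mul]
        exact LinearMap.toMatrix_comp b b b (aff (hol γ) : (E × ℝ) →ₗ[ℝ] (E × ℝ))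
          (aff (hol δ) : (E × ℝ) →ₗ[ℝ] (E × ℝ)) }
  have hψ : ∀ γ, (ψ γ).trace = tr (aff (hol γ)) := fun γ =>
    (LinearMap.trace_eq_matrix_trace ℝ b (aff (hol γ) : (E × ℝ) →ₗ[ℝ] (E × ℝ))).symm
  let Fg : Set Γ := {g | g ∈ F ∧ ∃ σ ∈ aa h, ∃ m : ℕ, m ≠ 0 ∧ (ex σ * aff (hol g)) ^ m = 1}
  have htrk : ∀ (g : Γ) (σ : BB E), σ ∈ aa h → ∀ k : ℕ,
      tr ((ex σ * aff (hol g)) ^ k) = tr (aff (hol (g ^ k))) := by
    intro g σ hσ k
    obtain ⟨t, ht, he⟩ := pow_form h hN g hσ k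
    rw [he, tr_inv h hN (g ^ k) ht]
  let T : Set ℝ := (⋃ g ∈ Fg, range fun k : ℕ => tr (aff (hol (g ^ k)))) \ {(n : ℝ)}
  have hT : T.Finite := by
    refine Set.Finite.subset ?_ sdiff_subset
    refine (hF.subset fun g hg => hg.1).biUnion fun g hg => ?_
    obtain ⟨-, σ, hσ, m, hm, h1⟩ := hg
    refine ((Finset.range m).finite_toSet.image fun k => tr (aff (hol (g ^ k)))).subset ?_
    rintro _ ⟨k, rfl⟩
    refine ⟨k % m, Finset.mem_coe.2 (Finset.mem_range.2 (Nat.mod_lt _ (Nat.pos_of_ne_zero hm))), ?_⟩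
    show tr (aff (hol (g ^ (k % m)))) = tr (aff (hol (g ^ k)))
    rw [← htrk g σ hσ, ← htrk g σ hσ]
    congr 1
    conv_rhs => rw [← Nat.mod_add_div k m, pow_add, pow_mul, h1, one_pow, mul_one]
  obtain ⟨K, hK, hKT⟩ := trace_sep hfg ψ T hT
    (by
      rintro t ⟨ht, -⟩
      obtain ⟨g, hg, k, rfl⟩ := mem_iUnion₂.1 ht
      exact ⟨g ^ k, hψ _⟩)
    (by
      rintro t ⟨-, ht⟩
      exact ht)
  refine ⟨K, hK, fun γ hγ s hs x hx hfix => ?_⟩
  obtain ⟨m, hm, hφm⟩ := fin_order D h hN hx hs hfix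
  refine eq_one_of_tr hm hφm fun k => ?_
  obtain ⟨δ, hδ⟩ := hcc x hx
  -- the conjugate
  have hs' := Ad_aa h hN δ hs
  obtain ⟨v, hv⟩ := jj_surj e hs'
  have hconj : aff (hol δ) * (ex s * aff (hol γ)) * aff (hol δ⁻¹) =
      ex (jj e v) * aff (hol (δ * γ * δ⁻¹)) := by
    rw [hv, ← Ad_ex, Ad, map_mul, map_mul, aff_mul, aff_mul]
    have h2 : aff (hol δ⁻¹) * aff (hol δ) = 1 := aff_inv δ
    calc aff (hol δ) * (ex s * aff (hol γ)) * aff (hol δ⁻¹)
        = aff (hol δ) * ex s * 1 * aff (hol γ) * aff (hol δ⁻¹) := by noncomm_ring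
      _ = aff (hol δ) * ex s * (aff (hol δ⁻¹) * aff (hol δ)) * aff (hol γ) * aff (hol δ⁻¹) := by
          rw [h2]
      _ = _ := by noncomm_ring
  have hfix' : Pe e v (hol (δ * γ * δ⁻¹) (hol δ x)) = hol δ x := by
    have h1 : hol (δ * γ * δ⁻¹) (hol δ x) = hol δ (hol γ x) := by
      rw [hol_mul, hol_mul, Pool.Agent.W689.Mk.hol_inv_apply]
    rw [h1]
    show Ph (jj e v) (hol δ (hol γ x)) = hol δ x
    rw [hv, ← hol_Ph h δ hs, hfix]
  obtain ⟨u, hu, a, ha, hea, -, hF'⟩ := hp v (δ * γ * δ⁻¹) (hol δ x) hδ (by rw [hfix']; exact hδ)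
  have hform : ex (jj e v) * aff (hol (δ * γ * δ⁻¹)) =
      ex (jj e (v - u)) * aff (hol (a * (δ * γ * δ⁻¹))) := by
    rw [map_mul hol a, aff_mul, ← hea, ← mul_assoc,
      ← ex_add (aa_comm h (jj_mem e _) (jj_mem e _)), ← map_add, sub_add_cancel]
  have hcp : ∀ j : ℕ, (ex (jj e (v - u)) * aff (hol (a * (δ * γ * δ⁻¹)))) ^ j * aff (hol δ) =
      aff (hol δ) * (ex s * aff (hol γ)) ^ j := by
    intro j
    rw [← hform, ← hconj]
    exact conj_pow_BB (aff_inv δ) j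
  have hg : a * (δ * γ * δ⁻¹) ∈ Fg := by
    refine ⟨hF', jj e (v - u), jj_mem e _, m, hm, ?_⟩
    have h1 := hcp m
    rw [hφm, mul_one] at h1
    have h3 : aff (hol δ) * aff (hol δ⁻¹) = 1 := aff_inv' δ
    have h2 : (ex (jj e (v - u)) * aff (hol (a * (δ * γ * δ⁻¹)))) ^ m *
        (aff (hol δ) * aff (hol δ⁻¹)) = aff (hol δ) * aff (hol δ⁻¹) := by
      rw [← mul_assoc, h1]
    rw [h3, mul_one] at h2
    exact h2
  -- traces
  have htr1 : tr ((ex s * aff (hol γ)) ^ k) =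
      tr ((ex (jj e (v - u)) * aff (hol (a * (δ * γ * δ⁻¹)))) ^ k) := by
    have h1 : (ex s * aff (hol γ)) ^ k = aff (hol δ⁻¹) *
        ((ex (jj e (v - u)) * aff (hol (a * (δ * γ * δ⁻¹)))) ^ k * aff (hol δ)) := by
      rw [hcp, ← mul_assoc, aff_inv, one_mul]
    rw [h1, tr_mul_comm, mul_assoc, aff_inv', mul_one]
  by_contra hne
  have h1 : tr ((ex s * aff (hol γ)) ^ k) ∈ T := by
    refine ⟨?_, hne⟩
    rw [htr1, htrk _ _ (jj_mem e _)]
    exact mem_iUnion₂.2 ⟨_, hg, k, rfl⟩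
  rw [htrk γ s hs, ← hψ] at h1
  exact hKT (γ ^ k) (K.pow_mem hγ k) h1

end Pool.Agent.U352.UH
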