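import Pool.Agent.U352.UH.Free

/-!
Logarithms of unipotent affine maps, without reference to the algebra generated by the group.
-/

set_option autoImplicit false
set_option linter.unusedSectionVars false

open Set Filter Topology MeasureTheory Pool.Agent.W689.Mk Module
open Pool.Agent.N520.RO (aff aff_apply aff_mul aff_one affU lin_zero)
open Pool.Agent.U352.AF (Dom hol_mul hcont pack)

namespace Pool.Agent.U352.UH

variable {Γ E : Type} [Group Γ] [NormedAddCommGroup E] [NormedSpace ℝ E] [FiniteDimensional ℝ E]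
  {hol : Γ →* (E ≃ᵃ[ℝ] E)} {N : Subgroup Γ} {Ω : Set E}

/-- unipotent linear part -/
theorem nil_of_linear {g : E ≃ᵃ[ℝ] E}
    (h : IsNilpotent ((g.linear : E →ₗ[ℝ] E) - LinearMap.id)) : IsNilpotent (aff g - 1) := by
  obtain ⟨k, hk⟩ := h
  have h1 : ∀ (j : ℕ) (v : E), (((aff g - 1) ^ j) (v, 0)) =
      ((((g.linear : E →ₗ[ℝ] E) - LinearMap.id) ^ j : E →ₗ[ℝ] E) v, 0) := by
    intro j
    induction j with
    | zero => intro v; rfl
    | succ j ih =>
      intro v
      rw [pow_succ, pow_succ]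
      show ((aff g - 1) ^ j) (aff g (v, 0) - (v, 0)) = _
      have h2 : aff g (v, 0) - (v, 0) = ((g.linear : E →ₗ[ℝ] E) v - v, 0) := by
        rw [aff_apply, zero_smul, add_zero]
        exact Prod.ext rfl (sub_self _)
      rw [h2, ih]
      rfl
  refine ⟨k + 1, ?_⟩
  refine ContinuousLinearMap.ext fun w => ?_
  rw [pow_succ]
  show ((aff g - 1) ^ k) (aff g w - w) = 0
  have h2 : aff g w - w = ((aff g w).1 - w.1, 0) := by
    refine Prod.ext rfl ?_
    rw [aff_apply]
    exact sub_self _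
  rw [h2, h1, hk]
  rfl

theorem UN.of_linear (hc : ∀ a ∈ N, ∀ b ∈ N, hol (a * b) = hol (b * a))
    (hu : ∀ a ∈ N, IsNilpotent (((hol a).linear : E →ₗ[ℝ] E) - LinearMap.id)) : UN hol N := by
  refine ⟨fun a ha b hb => ?_, fun a ha => nil_of_linear (hu a ha)⟩
  show aff (hol a) * aff (hol b) = aff (hol b) * aff (hol a)
  rw [← aff_mul, ← aff_mul, ← map_mul, ← map_mul, hc a ha b hb]

/-- the vector field at a point of `Ω` -/
theorem field_ne (D : Dom hol Ω) (h : UN hol N) (hN : AN hol N) {x : E} (hx : x ∈ Ω)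
    {ξ : BB E} (hξ : ξ ∈ aa h) (h0 : ξ (x, 1) = 0) : ξ = 0 := by
  obtain ⟨d, ⟨e⟩⟩ := exists_co h
  obtain ⟨v, rfl⟩ := jj_surj e hξ
  have h1 : Pe e v x = x := by
    obtain ⟨ψ, hψ, he⟩ := ex_expand (aa_prop h hξ).2
    have hc : Commute ψ (jj e v) := comm_adjoin (Commute.refl _) hψ
    show (ex (jj e v) (x, 1)).1 = x
    rw [he]
    show x + (jj e v (x, 1)).1 + (jj e v (jj e v (ψ (x, 1)))).1 = x
    have h2 : jj e v (ψ (x, 1)) = 0 := by
      have h3 : (jj e v * ψ) (x, 1) = (ψ * jj e v) (x, 1) := by rw [hc.eq]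
      have h4 : jj e v (ψ (x, 1)) = ψ (jj e v (x, 1)) := h3
      rw [h4, h0, map_zero]
    rw [h2, h0, map_zero]
    show x + 0 + 0 = x
    rw [add_zero, add_zero]
  have h2 := Pe_free D e hN hx h1
  rw [h2, map_zero]

theorem rank_le (D : Dom hol Ω) (h : UN hol N) (hN : AN hol N) {x : E} (hx : x ∈ Ω) :
    finrank ℝ (aa h) ≤ finrank ℝ E := by
  obtain ⟨d, ⟨e⟩⟩ := exists_co h
  let f : EuclideanSpace ℝ (Fin d) →ₗ[ℝ] E :=
    { toFun := fun v => (jj e v (x, 1)).1
      map_add' := fun v w => by rw [map_add]; rfl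
      map_smul' := fun c v => by rw [map_smul]; rfl }
  have hf : Function.Injective f := by
    rw [← LinearMap.ker_eq_bot, LinearMap.ker_eq_bot']
    intro v hv
    apply jj_inj e
    rw [map_zero]
    refine field_ne D h hN hx (jj_mem e v) (Prod.ext hv ?_)
    exact nil_snd (aa_prop h (jj_mem e v)).1 (aa_prop h (jj_mem e v)).2 _
  have h1 := LinearMap.finrank_le_finrank_of_injective hf
  have h2 : finrank ℝ (EuclideanSpace ℝ (Fin d)) = finrank ℝ (aa h) := e.finrank_eq
  rw [← h2]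
  exact h1

end Pool.Agent.U352.UH
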