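import Pool.Agent.U352.UH.Sy

/-!
Equivariant operator valued functions.
-/

set_option autoImplicit false
set_option linter.unusedSectionVars false

open Set Filter Topology MeasureTheory

namespace Pool.Agent.U352.UH

variable {Γ E V : Type} [Group Γ] [NormedAddCommGroup E] [NormedSpace ℝ E]
  [FiniteDimensional ℝ E] [NormedAddCommGroup V] [NormedSpace ℝ V] [FiniteDimensional ℝ V]
  {hol : Γ →* (E ≃ᵃ[ℝ] E)} {N : Subgroup Γ} {Ω : Set E} {P : V → E → E} {l : V → E →L[ℝ] E}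
  {m : Γ → E →L[ℝ] E} {A : Γ → V → V}

theorem Sy.l_zero (S : Sy hol N Ω P l m A) : l 0 = 1 := by
  refine ContinuousLinearMap.ext fun v => ?_
  have h := S.P_lin 0 0 v
  rw [S.P_zero, S.P_zero, zero_add, zero_add] at h
  exact h.symm

theorem Sy.l_neg (S : Sy hol N Ω P l m A) (s : V) : l (-s) * l s = 1 := by
  rw [← S.l_add, neg_add_cancel, S.l_zero]

theorem Sy.l_neg' (S : Sy hol N Ω P l m A) (s : V) : l s * l (-s) = 1 := by
  rw [← S.l_add, add_neg_cancel, S.l_zero]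

theorem Sy.P_neg (S : Sy hol N Ω P l m A) (s : V) (x : E) : P (-s) (P s x) = x := by
  rw [← S.P_add, neg_add_cancel, S.P_zero]

theorem Sy.P_neg' (S : Sy hol N Ω P l m A) (s : V) (x : E) : P s (P (-s) x) = x := by
  rw [← S.P_add, add_neg_cancel, S.P_zero]

theorem Sy.m_mul (S : Sy hol N Ω P l m A) (γ δ : Γ) : m (γ * δ) = m γ * m δ := by
  refine ContinuousLinearMap.ext fun v => ?_
  show m (γ * δ) v = m γ (m δ v)
  rw [S.m_apply, S.m_apply, S.m_apply, map_mul]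
  rfl

theorem Sy.m_one (S : Sy hol N Ω P l m A) : m 1 = 1 := by
  refine ContinuousLinearMap.ext fun v => ?_
  rw [S.m_apply, map_one]
  rfl

theorem Sy.hol_mul (_S : Sy hol N Ω P l m A) (γ δ : Γ) (x : E) :
    hol (γ * δ) x = hol γ (hol δ x) := by
  rw [map_mul]; rfl

theorem Sy.hol_one (_S : Sy hol N Ω P l m A) (x : E) : hol 1 x = x := by
  rw [map_one]; rfl

theorem Sy.hol_cont (_S : Sy hol N Ω P l m A) (γ : Γ) : Continuous (hol γ) := by
  exact (hol γ : E →ᵃ[ℝ] E).continuous_of_finiteDimensional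

theorem Sy.hol_lin (S : Sy hol N Ω P l m A) (γ : Γ) (x v : E) :
    hol γ (x + v) = hol γ x + m γ v := by
  have h := (hol γ).map_vadd x v
  rw [vadd_eq_add, vadd_eq_add, add_comm v x] at h
  rw [h, S.m_apply, add_comm]

/-- the bump functions which we use -/
structure Bump (Ω C₀ : Set E) (φ : E → ℝ) : Prop where
  lip : ∀ x y, |φ x - φ y| ≤ ‖x - y‖
  nonneg : ∀ x, 0 ≤ φ x
  supp : ∀ x, φ x ≠ 0 → x ∈ C₀
  comp : IsCompact C₀
  sub : C₀ ⊆ Ω

theorem Bump.cont {Ω C₀ : Set E} {φ : E → ℝ} (B : Bump Ω C₀ φ) : Continuous φ := by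
  refine Metric.continuous_iff.2 fun x ε hε => ⟨ε, hε, fun y hy => ?_⟩
  rw [Real.dist_eq]
  rw [dist_eq_norm] at hy
  exact (B.lip y x).trans_lt hy

section
variable [MeasurableSpace V] [BorelSpace V] {C₀ : Set E} {φ : E → ℝ}

/-- the average over the vector group -/
noncomputable def Phi (P : V → E → E) (l : V → E →L[ℝ] E) (φ : E → ℝ) (x : E) : E →L[ℝ] E :=
  ∫ s, φ (P (-s) x) • l s ∂(Measure.addHaar : Measure V)

theorem Sy.supp_bdd (S : Sy hol N Ω P l m A) (B : Bump Ω C₀ φ) {C : Set E} (hC : IsCompact C)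
    (hCΩ : C ⊆ Ω) : ∃ R : ℝ, ∀ x ∈ C, ∀ s, φ (P (-s) x) ≠ 0 → ‖s‖ ≤ R := by
  obtain ⟨R, hR⟩ := S.prop' (C ∪ C₀) (union_subset hCΩ B.sub) (hC.union B.comp)
  refine ⟨R, fun x hx s hs => ?_⟩
  have h := hR (-s) x (Or.inl hx) (Or.inr (B.supp _ hs))
  rwa [norm_neg] at h

theorem Sy.int_cont (S : Sy hol N Ω P l m A) (B : Bump Ω C₀ φ) (x : E) :
    Continuous fun s : V => φ (P (-s) x) := by
  refine B.cont.comp ?_
  exact S.P_cont.comp (continuous_neg.prodMk continuous_const)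

theorem Sy.int_comp (S : Sy hol N Ω P l m A) (B : Bump Ω C₀ φ) {x : E} (hx : x ∈ Ω) :
    HasCompactSupport fun s : V => φ (P (-s) x) := by
  obtain ⟨R, hR⟩ := S.supp_bdd B (isCompact_singleton (x := x)) (singleton_subset_iff.2 hx)
  refine HasCompactSupport.of_support_subset_isCompact (isCompact_closedBall (0 : V) R) ?_
  intro s hs
  exact mem_closedBall_zero_iff.2 (hR x rfl s hs)

theorem Sy.integrable (S : Sy hol N Ω P l m A) (B : Bump Ω C₀ φ) {x : E} (hx : x ∈ Ω) :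
    Integrable (fun s : V => φ (P (-s) x) • l s) (Measure.addHaar : Measure V) := by
  refine Continuous.integrable_of_hasCompactSupport ((S.int_cont B x).smul S.l_cont) ?_
  exact (S.int_comp B hx).smul_right

theorem Sy.integrable' (S : Sy hol N Ω P l m A) (B : Bump Ω C₀ φ) {x : E} (hx : x ∈ Ω) :
    Integrable (fun s : V => φ (P (-s) x)) (Measure.addHaar : Measure V) :=
  Continuous.integrable_of_hasCompactSupport (S.int_cont B x) (S.int_comp B hx)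

theorem Sy.Phi_V (S : Sy hol N Ω P l m A) (B : Bump Ω C₀ φ) {x : E} (hx : x ∈ Ω) (t : V) :
    Phi P l φ (P t x) = l t * Phi P l φ x := by
  let f : V → E →L[ℝ] E := fun s => φ (P (-s) x) • l (s + t)
  have h1 : Phi P l φ (P t x) = ∫ s, f (s - t) ∂(Measure.addHaar : Measure V) := by
    unfold Phi
    congr 1
    funext s
    show φ (P (-s) (P t x)) • l s = φ (P (-(s - t)) x) • l (s - t + t)
    rw [← S.P_add, sub_add_cancel]
    congr 3
    abel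
  rw [h1, integral_sub_right_eq_self]
  have h2 := (ContinuousLinearMap.mul ℝ (E →L[ℝ] E) (l t)).integral_comp_comm (S.integrable B hx)
  have h3 : ∀ s, f s = ContinuousLinearMap.mul ℝ (E →L[ℝ] E) (l t) (φ (P (-s) x) • l s) := by
    intro s
    show φ (P (-s) x) • l (s + t) = l t * (φ (P (-s) x) • l s)
    rw [mul_smul_comm, ← S.l_add, add_comm]
  rw [integral_congr_ae (Eventually.of_forall h3), h2]
  rfl

theorem Sy.Phi_lip (S : Sy hol N Ω P l m A) (B : Bump Ω C₀ φ) {C : Set E} (hC : IsCompact C)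
    (hCΩ : C ⊆ Ω) : ∃ K : ℝ, 0 ≤ K ∧ ∀ x ∈ C, ∀ y ∈ C,
      ‖Phi P l φ x - Phi P l φ y‖ ≤ K * ‖x - y‖ := by
  obtain ⟨R, hR⟩ := S.supp_bdd B hC hCΩ
  obtain ⟨M, hM⟩ := (isCompact_closedBall (0 : V) R).exists_bound_of_continuousOn
    (f := l) S.l_cont.continuousOn
  have hM0 : ∀ s ∈ Metric.closedBall (0 : V) R, 0 ≤ M := fun s hs =>
    (norm_nonneg _).trans (hM s hs)
  set μ : Measure V := Measure.addHaar
  refine ⟨|M| * |M| * μ.real (Metric.closedBall 0 R), by positivity, fun x hx y hy => ?_⟩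
  have h1 : Phi P l φ x - Phi P l φ y =
      ∫ s in Metric.closedBall (0 : V) R, (φ (P (-s) x) - φ (P (-s) y)) • l s ∂μ := by
    have h2 : ∀ s, φ (P (-s) x) • l s - φ (P (-s) y) • l s =
        (φ (P (-s) x) - φ (P (-s) y)) • l s := fun s => (sub_smul _ _ _).symm
    rw [setIntegral_eq_integral_of_forall_compl_eq_zero]
    · unfold Phi
      rw [← integral_sub (S.integrable B (hCΩ hx)) (S.integrable B (hCΩ hy))]
      exact integral_congr_ae (Eventually.of_forall h2)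
    · intro s hs
      rw [mem_closedBall_zero_iff] at hs
      have h3 : φ (P (-s) x) = 0 := by
        by_contra h; exact hs (hR x hx s h)
      have h4 : φ (P (-s) y) = 0 := by
        by_contra h; exact hs (hR y hy s h)
      rw [h3, h4, sub_zero, zero_smul]
  rw [h1]
  have h5 := norm_setIntegral_le_of_norm_le_const (μ := μ) (s := Metric.closedBall (0 : V) R)
    (f := fun s => (φ (P (-s) x) - φ (P (-s) y)) • l s) (C := |M| * |M| * ‖x - y‖)
    (isCompact_closedBall (0 : V) R).measure_lt_top (by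
      intro s hs
      rw [norm_smul, Real.norm_eq_abs]
      have hs' : -s ∈ Metric.closedBall (0 : V) R := by
        rw [mem_closedBall_zero_iff, norm_neg]
        exact mem_closedBall_zero_iff.1 hs
      have h6 : P (-s) x - P (-s) y = l (-s) (x - y) := by
        have := S.P_lin (-s) y (x - y)
        rw [add_sub_cancel] at this
        rw [this, add_sub_cancel_left]
      have h7 : |φ (P (-s) x) - φ (P (-s) y)| ≤ |M| * ‖x - y‖ := by
        refine (B.lip _ _).trans ?_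
        rw [h6]
        refine ((l (-s)).le_opNorm _).trans ?_
        exact mul_le_mul_of_nonneg_right ((hM _ hs').trans (le_abs_self M)) (norm_nonneg _)
      calc |φ (P (-s) x) - φ (P (-s) y)| * ‖l s‖ ≤ (|M| * ‖x - y‖) * |M| := by
            refine mul_le_mul h7 ((hM _ hs).trans (le_abs_self M)) (norm_nonneg _) (by positivity)
        _ = |M| * |M| * ‖x - y‖ := by ring)
  calc _ ≤ _ := h5
    _ = _ := by ring

/-- the terms of the sum over the group -/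
noncomputable def Psi (hol : Γ →* (E ≃ᵃ[ℝ] E)) (P : V → E → E) (l : V → E →L[ℝ] E)
    (m : Γ → E →L[ℝ] E) (φ : E → ℝ) (x : E) (γ : Γ) : E →L[ℝ] E :=
  m γ * Phi P l φ (hol γ⁻¹ x)

theorem Sy.Psi_N (S : Sy hol N Ω P l m A) (B : Bump Ω C₀ φ) {x : E} (hx : x ∈ Ω) (γ : Γ)
    {a : Γ} (ha : a ∈ N) : Psi hol P l m φ x (γ * a) = Psi hol P l m φ x γ := by
  obtain ⟨u, hu, hlu⟩ := S.elt a ha
  have h1 : hol a⁻¹ (hol γ⁻¹ x) = P (-u) (hol γ⁻¹ x) := by
    have h2 : hol γ⁻¹ x = P u (P (-u) (hol γ⁻¹ x)) := (S.P_neg' u _).symm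
    conv_lhs => rw [h2, hu]
    rw [← S.hol_mul, inv_mul_cancel, S.hol_one]
  rw [Psi, Psi, mul_inv_rev, S.hol_mul, h1, S.Phi_V B (S.hol_inv _ _ hx), S.m_mul, ← hlu,
    mul_assoc, ← mul_assoc (l u), S.l_neg', one_mul]

theorem Sy.Psi_hol (S : Sy hol N Ω P l m A) (x : E) (δ γ : Γ) :
    Psi hol P l m φ (hol δ x) γ = m δ * Psi hol P l m φ x (δ⁻¹ * γ) := by
  rw [Psi, Psi, ← mul_assoc, ← S.m_mul, mul_inv_cancel_left, mul_inv_rev, inv_inv, S.hol_mul]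

theorem Sy.Psi_V (S : Sy hol N Ω P l m A) (B : Bump Ω C₀ φ) {x : E} (hx : x ∈ Ω) (t : V)
    (γ : Γ) : Psi hol P l m φ (P t x) γ = l t * Psi hol P l m φ x γ := by
  have h0 : l (A γ (A γ⁻¹ t)) * m γ = l t * m γ := by
    have h1 : ∀ y, P (A γ (A γ⁻¹ t)) y = P t y := by
      intro y
      have h2 := S.comm γ (A γ⁻¹ t) (hol γ⁻¹ y)
      have h3 := S.comm γ⁻¹ t y
      rw [← h3] at h2
      rw [← S.hol_mul, mul_inv_cancel, S.hol_one, ← S.hol_mul, mul_inv_cancel, S.hol_one] at h2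
      exact h2.symm
    congr 1
    refine ContinuousLinearMap.ext fun v => ?_
    have h2 := S.P_lin (A γ (A γ⁻¹ t)) 0 v
    have h3 := S.P_lin t 0 v
    rw [h1, h1, h3] at h2
    exact (add_left_cancel h2).symm
  rw [Psi, Psi, S.comm, S.Phi_V B (S.hol_inv _ _ hx), ← mul_assoc, S.mcomm, h0, mul_assoc]

/-- the operator -/
noncomputable def Lop (hol : Γ →* (E ≃ᵃ[ℝ] E)) (N : Subgroup Γ) (P : V → E → E)
    (l : V → E →L[ℝ] E) (m : Γ → E →L[ℝ] E) (φ : E → ℝ) (x : E) : E →L[ℝ] E :=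
  ∑ᶠ q : Γ ⧸ N, Psi hol P l m φ x q.out

theorem Sy.Psi_out (S : Sy hol N Ω P l m A) (B : Bump Ω C₀ φ) {x : E} (hx : x ∈ Ω) (γ : Γ) :
    Psi hol P l m φ x (γ : Γ ⧸ N).out = Psi hol P l m φ x γ := by
  obtain ⟨a, ha⟩ := QuotientGroup.mk_out_eq_mul N γ
  rw [ha, S.Psi_N B hx γ a.2]

theorem Phi_ne {x : E} (h : Phi P l φ x ≠ 0) : ∃ s : V, φ (P (-s) x) ≠ 0 := by
  by_contra hc
  push Not at hc
  apply h
  unfold Phi
  have h1 : (fun s : V => φ (P (-s) x) • l s) = fun _ => 0 := by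
    funext s
    rw [hc s, zero_smul]
  rw [h1, integral_zero]

/-- local finiteness -/
theorem Sy.fin_supp (S : Sy hol N Ω P l m A) (B : Bump Ω C₀ φ) {C : Set E} (hC : IsCompact C)
    (hCΩ : C ⊆ Ω) : ∃ Q : Finset (Γ ⧸ N), ∀ x ∈ C, ∀ q : Γ ⧸ N,
      (∃ s : V, φ (P (-s) (hol q.out⁻¹ x)) ≠ 0) → q ∈ Q := by
  classical
  obtain ⟨F, hF, hp⟩ := S.prop (C ∪ C₀) (union_subset hCΩ B.sub) (hC.union B.comp)
  have h1 : ((fun f : Γ => ((f⁻¹ : Γ) : Γ ⧸ N)) '' F).Finite := hF.image _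
  refine ⟨h1.toFinset, fun x hx q hq => ?_⟩
  rw [Finite.mem_toFinset]
  obtain ⟨s, hs⟩ := hq
  obtain ⟨a, ha, haF⟩ := hp (-s) q.out⁻¹ x (Or.inl hx) (Or.inr (B.supp _ hs))
  refine ⟨a * q.out⁻¹, haF, ?_⟩
  show (((a * q.out⁻¹)⁻¹ : Γ) : Γ ⧸ N) = q
  rw [mul_inv_rev, inv_inv]
  have h2 : ((q.out * a⁻¹ : Γ) : Γ ⧸ N) = (q.out : Γ ⧸ N) := by
    rw [QuotientGroup.eq]
    have : (q.out * a⁻¹)⁻¹ * q.out = a := by group
    rw [this]
    exact ha
  rw [h2]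
  exact Quotient.out_eq q

theorem Sy.Lop_sum (_S : Sy hol N Ω P l m A) {C : Set E} {Q : Finset (Γ ⧸ N)}
    (hQ : ∀ x ∈ C, ∀ q : Γ ⧸ N, (∃ s : V, φ (P (-s) (hol q.out⁻¹ x)) ≠ 0) → q ∈ Q) {x : E}
    (hx : x ∈ C) : Lop hol N P l m φ x = ∑ q ∈ Q, Psi hol P l m φ x q.out := by
  refine finsum_eq_sum_of_support_subset _ ?_
  intro q hq
  refine hQ x hx q (Phi_ne (l := l) fun h0 => hq ?_)
  show Psi hol P l m φ x q.out = 0
  rw [Psi, h0, mul_zero]

theorem Sy.finite_supp (S : Sy hol N Ω P l m A) (B : Bump Ω C₀ φ) {x : E} (hx : x ∈ Ω) :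
    (Function.support fun q : Γ ⧸ N => Psi hol P l m φ x q.out).Finite := by
  obtain ⟨Q, hQ⟩ := S.fin_supp B (isCompact_singleton (x := x)) (singleton_subset_iff.2 hx)
  refine Q.finite_toSet.subset ?_
  intro q hq
  refine hQ x rfl q (Phi_ne (l := l) fun h0 => hq ?_)
  show Psi hol P l m φ x q.out = 0
  rw [Psi, h0, mul_zero]

theorem Sy.Lop_V (S : Sy hol N Ω P l m A) (B : Bump Ω C₀ φ) {x : E} (hx : x ∈ Ω) (t : V) :
    Lop hol N P l m φ (P t x) = l t * Lop hol N P l m φ x := by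
  have h := (AddMonoidHom.mulLeft (l t)).map_finsum (S.finite_supp B hx)
  show _ = (AddMonoidHom.mulLeft (l t)) (∑ᶠ q : Γ ⧸ N, Psi hol P l m φ x q.out)
  rw [h, Lop]
  exact finsum_congr fun q => S.Psi_V B hx t q.out

theorem Sy.Lop_hol (S : Sy hol N Ω P l m A) (B : Bump Ω C₀ φ) {x : E} (hx : x ∈ Ω) (δ : Γ) :
    Lop hol N P l m φ (hol δ x) = m δ * Lop hol N P l m φ x := by
  have h := (AddMonoidHom.mulLeft (m δ)).map_finsum (S.finite_supp B hx)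
  show _ = (AddMonoidHom.mulLeft (m δ)) (∑ᶠ q : Γ ⧸ N, Psi hol P l m φ x q.out)
  rw [h, Lop]
  have h1 := finsum_comp_equiv (MulAction.toPerm (δ⁻¹ : Γ) : Equiv.Perm (Γ ⧸ N))
    (f := fun q : Γ ⧸ N => (AddMonoidHom.mulLeft (m δ)) (Psi hol P l m φ x q.out))
  rw [← h1]
  refine finsum_congr fun q => ?_
  show Psi hol P l m φ (hol δ x) q.out = m δ * Psi hol P l m φ x ((δ⁻¹ • q : Γ ⧸ N)).out
  rw [S.Psi_hol]
  congr 1
  have h2 : (δ⁻¹ • q : Γ ⧸ N) = ((δ⁻¹ * q.out : Γ) : Γ ⧸ N) := by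
    conv_lhs => rw [← Quotient.out_eq q]
    rfl
  rw [h2, S.Psi_out B hx]

theorem Sy.Lop_lip (S : Sy hol N Ω P l m A) (B : Bump Ω C₀ φ) {C : Set E} (hC : IsCompact C)
    (hCΩ : C ⊆ Ω) : ∃ K : ℝ, 0 ≤ K ∧ ∀ x ∈ C, ∀ y ∈ C,
      ‖Lop hol N P l m φ x - Lop hol N P l m φ y‖ ≤ K * ‖x - y‖ := by
  obtain ⟨Q, hQ⟩ := S.fin_supp B hC hCΩ
  have h1 : ∀ γ : Γ, ∃ K : ℝ, 0 ≤ K ∧ ∀ x ∈ C, ∀ y ∈ C,
      ‖Psi hol P l m φ x γ - Psi hol P l m φ y γ‖ ≤ K * ‖x - y‖ := by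
    intro γ
    obtain ⟨K, hK, h⟩ := S.Phi_lip B (hC.image (S.hol_cont γ⁻¹)) (by
      rintro _ ⟨x, hx, rfl⟩
      exact S.hol_inv _ _ (hCΩ hx))
    refine ⟨‖m γ‖ * (K * ‖m γ⁻¹‖), by positivity, fun x hx y hy => ?_⟩
    have h2 : hol γ⁻¹ x - hol γ⁻¹ y = m γ⁻¹ (x - y) := by
      have := S.hol_lin γ⁻¹ y (x - y)
      rw [add_sub_cancel] at this
      rw [this, add_sub_cancel_left]
    rw [Psi, Psi, ← mul_sub]
    calc ‖m γ * (Phi P l φ (hol γ⁻¹ x) - Phi P l φ (hol γ⁻¹ y))‖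
        ≤ ‖m γ‖ * ‖Phi P l φ (hol γ⁻¹ x) - Phi P l φ (hol γ⁻¹ y)‖ := norm_mul_le _ _
      _ ≤ ‖m γ‖ * (K * ‖hol γ⁻¹ x - hol γ⁻¹ y‖) :=
          mul_le_mul_of_nonneg_left (h _ (mem_image_of_mem _ hx) _ (mem_image_of_mem _ hy))
            (norm_nonneg _)
      _ ≤ ‖m γ‖ * (K * (‖m γ⁻¹‖ * ‖x - y‖)) := by
          refine mul_le_mul_of_nonneg_left (mul_le_mul_of_nonneg_left ?_ hK) (norm_nonneg _)
          rw [h2]
          exact (m γ⁻¹).le_opNorm _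
      _ = _ := by ring
  choose K hK0 hK using h1
  refine ⟨∑ q ∈ Q, K q.out, Finset.sum_nonneg fun q _ => hK0 _, fun x hx y hy => ?_⟩
  rw [S.Lop_sum hQ hx, S.Lop_sum hQ hy, ← Finset.sum_sub_distrib, Finset.sum_mul]
  exact (norm_sum_le _ _).trans (Finset.sum_le_sum fun q _ => hK _ x hx y hy)

end

end Pool.Agent.U352.UH
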