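import Pool.Agent.U352.UH.ToSy
import Pool.Agent.U352.UH.Fld
import Pool.Agent.U352.AF.Fin

/-!
Fields without zeros over a finite covering.
-/

set_option autoImplicit false
set_option linter.unusedSectionVars false

open Set Filter Topology MeasureTheory Pool.Agent.W689.Mk Module
open Pool.Agent.N520.RO (aff aff_apply aff_mul aff_one affU lin_zero)
open Pool.Agent.U352.AF (Dom hol_mul hcont pack)

namespace Pool.Agent.U352.UH

variable {Γ E : Type} [Group Γ] [NormedAddCommGroup E] [NormedSpace ℝ E] [FiniteDimensional ℝ E]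
  {hol : Γ →* (E ≃ᵃ[ℝ] E)} {N : Subgroup Γ} {Ω : Set E}

theorem aff_inj {g : E ≃ᵃ[ℝ] E} (h : aff g = 1) : g = 1 := by
  apply AffineEquiv.ext
  intro x
  rw [← act_aff, h]
  rfl

theorem AN.restrict (hN : AN hol N) {K : Subgroup Γ} (hK : K.FiniteIndex) :
    AN (hol.comp K.subtype) (N.subgroupOf K) := by
  intro γ a ha
  obtain ⟨k, hk, b, hb, he⟩ := hN γ a ha
  obtain ⟨j, hj0, -, hj⟩ := Subgroup.exists_pow_mem_of_index_ne_zero hK.index_ne_zero b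
  refine ⟨k * j, mul_ne_zero hk hj0.ne', ⟨b ^ j, hj⟩, N.pow_mem hb j, ?_⟩
  show hol (γ.1 * a.1 ^ (k * j) * γ.1⁻¹) = hol (b ^ j)
  rw [pow_mul, ← conj_pow, map_pow, map_pow, he]

theorem propP (D : Dom hol Ω) (h : UN hol N) (hN : AN hol N) (hfg : Group.FG Γ)
    (hne : ∃ a ∈ N, hol a ≠ 1) :
    ∃ K : Subgroup Γ, K.FiniteIndex ∧ ∃ Z : E → E, ContinuousOn Z Ω ∧ (∀ x ∈ Ω, Z x ≠ 0) ∧
      ∀ γ ∈ K, ∀ x ∈ Ω, Z (hol γ x) = (hol γ).linear (Z x) := by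
  obtain ⟨K, hK, hiso⟩ := exists_iso D h hN hfg
  refine ⟨K, hK, ?_⟩
  have DK := D.restrict K hK
  let N' : Subgroup K := N.subgroupOf K
  have hN' : AN (hol.comp K.subtype) N' := hN.restrict hK
  have h' : UN (hol.comp K.subtype) N' :=
    ⟨fun a ha b hb => h.comm a ha b hb, fun a ha => h.unip a ha⟩
  have hle : aa h' ≤ aa h := by
    refine Submodule.span_mono fun ξ hξ => ?_
    obtain ⟨h1, a, ha, h2⟩ := (mem_Lam_iff h').1 hξ
    exact (mem_Lam_iff h).2 ⟨h1, a, ha, h2⟩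
  have hI : Isot h' Ω := fun γ s hs x hx hf => hiso γ γ.2 s (hle hs) x hx hf
  obtain ⟨d, ⟨e⟩⟩ := exists_co h'
  have hV : ∃ v : EuclideanSpace ℝ (Fin d), v ≠ 0 := by
    obtain ⟨a, ha, ha1⟩ := hne
    obtain ⟨ξ, hξ, he⟩ := exists_Lam h ha
    obtain ⟨k, hk0, -, hk⟩ := Subgroup.exists_pow_mem_of_index_ne_zero hK.index_ne_zero a
    have h1 : (k : ℝ) • ξ ∈ Lam h' := by
      rw [mem_Lam_iff]
      refine ⟨?_, ⟨a ^ k, hk⟩, N.pow_mem ha k, nsmul_aff he k⟩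
      obtain ⟨m, hm⟩ := hξ.2.1
      exact ⟨m, by rw [smul_pow, hm, smul_zero]⟩
    obtain ⟨v, hv⟩ := jj_surj e (show (k : ℝ) • ξ ∈ aa h' from Submodule.subset_span h1)
    refine ⟨v, fun hv0 => ha1 ?_⟩
    rw [hv0, map_zero] at hv
    have hk' : (k : ℝ) ≠ 0 := by exact_mod_cast hk0.ne'
    have hξ0 : ξ = 0 := (smul_eq_zero.1 hv.symm).resolve_left hk'
    rw [hξ0, ex_zero] at he
    exact aff_inj he.symm
  have S := toSy DK e hN' hI hV
  obtain ⟨Z, hZ, hZ0⟩ := S.exists_EF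
  refine ⟨Z, fun x hx => (hZ.lip x hx).cont.continuousWithinAt, hZ0, fun γ hγ x hx => ?_⟩
  have h1 := hZ.hol ⟨γ, hγ⟩ x hx
  exact h1.trans (S.m_apply ⟨γ, hγ⟩ (Z x))

end Pool.Agent.U352.UH
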