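import Pool.Agent.U352.UH.Hull
import Pool.Agent.U352.AF.Tower

/-!
`Ω` is invariant under the unipotent hull of an abelian normal subgroup.
-/

set_option autoImplicit false

open Set Filter Topology MeasureTheory Pool.Agent.W689.Mk Module
open scoped Pointwise
open Pool.Agent.N520.RO (aff aff_apply aff_mul aff_one affU lin_zero)
open Pool.Agent.U352.AF (Dom hol_mul hcont pack)

namespace Pool.Agent.U352.UH

/-- a set which is disjoint from its translates by a lattice has bounded measure -/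
theorem small_set {V : Type} [NormedAddCommGroup V] [NormedSpace ℝ V] [FiniteDimensional ℝ V]
    [MeasurableSpace V] [BorelSpace V] (μ : Measure V) [μ.IsAddHaarMeasure] (L : Submodule ℤ V)
    [DiscreteTopology L] [IsZLattice ℝ L] :
    ∃ M : ENNReal, M ≠ ⊤ ∧ ∀ P : Set V, MeasurableSet P →
      (∀ t ∈ L, t ≠ 0 → ∀ v ∈ P, v + t ∉ P) → μ P ≤ M := by
  classical
  have : VAddInvariantMeasure L V μ :=
    inferInstanceAs (VAddInvariantMeasure L.toAddSubgroup V μ)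
  let b := Free.chooseBasis ℤ L
  have hF := ZLattice.isAddFundamentalDomain b μ
  have hfin : μ (ZSpan.fundamentalDomain (b.ofZLatticeBasis ℝ)) ≠ ⊤ := by
    have hb := ZSpan.fundamentalDomain_isBounded (b.ofZLatticeBasis ℝ)
    exact hb.measure_lt_top.ne
  refine ⟨_, hfin, fun P hPm hd => ?_⟩
  refine hF.measure_le_of_pairwise_disjoint hPm.nullMeasurableSet ?_
  intro s t hst
  refine Disjoint.aedisjoint ?_
  show Disjoint ((s +ᵥ P) ∩ _) ((t +ᵥ P) ∩ _)
  refine Disjoint.mono inter_subset_left inter_subset_left ?_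
  rw [Set.disjoint_left]
  rintro v hv hv'
  rw [mem_vadd_set] at hv hv'
  obtain ⟨p, hp, rfl⟩ := hv
  obtain ⟨q, hq, he⟩ := hv'
  have he' : (t : V) + q = (s : V) + p := he
  have h2 : p + ((s : V) - t) = q := by
    have : q = (s : V) + p - t := by rw [← he']; abel
    rw [this]; abel
  refine hd ((s : V) - t) (L.sub_mem s.2 t.2) ?_ p hp (by rw [h2]; exact hq)
  rw [sub_ne_zero]
  exact fun h => hst (Subtype.ext h)

/-- the first exit of a path from an open set -/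
theorem first_exit' {X : Type} [TopologicalSpace X] {Ω : Set X} (hΩ : IsOpen Ω) {p : ℝ → X}
    (hp : Continuous p) (h0 : p 0 ∈ Ω) (h1 : p 1 ∉ Ω) :
    ∃ (t : ℝ) (s : ℕ → ℝ), p t ∉ Ω ∧ (∀ n, p (s n) ∈ Ω) ∧ Tendsto s atTop (𝓝 t) := by
  let I : Set ℝ := {s : ℝ | s ∈ Icc (0 : ℝ) 1 ∧ p s ∉ Ω}
  have hI : IsClosed I := by
    have : I = Icc (0 : ℝ) 1 ∩ p ⁻¹' Ωᶜ := rfl
    rw [this]
    exact isClosed_Icc.inter (hΩ.isClosed_compl.preimage hp)
  have hne : I.Nonempty := ⟨1, ⟨zero_le_one, le_rfl⟩, h1⟩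
  have hbdd : BddBelow I := ⟨0, fun s hs => hs.1.1⟩
  have ht := hI.csInf_mem hne hbdd
  set t := sInf I with htdef
  have ht0 : 0 < t := by
    rcases eq_or_lt_of_le ht.1.1 with h0' | h0'
    · exfalso
      apply ht.2
      rw [← h0']
      exact h0
    · exact h0'
  have hs : ∀ n : ℕ, t * ((n + 1 : ℝ) / (n + 2)) < t := by
    intro n
    have h1 : ((n : ℝ) + 1) / (n + 2) < 1 := by
      rw [div_lt_one (by positivity)]; linarith
    calc t * (((n : ℝ) + 1) / (n + 2)) < t * 1 := by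
          apply mul_lt_mul_of_pos_left h1 ht0
      _ = t := mul_one t
  refine ⟨t, fun n => t * ((n + 1 : ℝ) / (n + 2)), ht.2, ?_, ?_⟩
  · intro n
    by_contra hn
    have h1 : t * ((n + 1 : ℝ) / (n + 2)) ∈ I :=
      ⟨⟨by positivity, (hs n).le.trans ht.1.2⟩, hn⟩
    exact absurd (csInf_le hbdd h1) (not_le.2 (hs n))
  · have h1 : Tendsto (fun n : ℕ => ((n : ℝ) + 1) / (n + 2)) atTop (𝓝 1) := by
      have h2 : Tendsto (fun n : ℕ => 1 - 1 / ((n : ℝ) + 2)) atTop (𝓝 (1 - 0)) := by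
        refine tendsto_const_nhds.sub ?_
        have h3 : Tendsto (fun n : ℕ => (n : ℝ) + 2) atTop atTop :=
          tendsto_atTop_add_const_right _ _ tendsto_natCast_atTop_atTop
        have h4 := h3.inv_tendsto_atTop
        refine h4.congr fun n => ?_
        rw [one_div]; rfl
      rw [sub_zero] at h2
      refine h2.congr fun n => ?_
      have : (n : ℝ) + 2 ≠ 0 := by positivity
      field_simp
      ring
    have h2 := h1.const_mul t
    rw [mul_one] at h2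
    exact h2

variable {Γ E : Type} [Group Γ] [NormedAddCommGroup E] [NormedSpace ℝ E] [FiniteDimensional ℝ E]
  {hol : Γ →* (E ≃ᵃ[ℝ] E)} {N : Subgroup Γ} {Ω : Set E}

/-- the logarithms of the unipotent elements of the group are not small -/
theorem grp_gap (D : Dom hol Ω) {x : E} (hx : x ∈ Ω) :
    ∃ ε > 0, ∀ ξ : BB E, IsNilpotent ξ → (∀ w, (ex ξ w).2 = w.2) → ∀ a : Γ,
      ex ξ = aff (hol a) → ‖ξ‖ < ε → ξ = 0 := by
  obtain ⟨ρ, hρ, hρ'⟩ := Metric.nhds_basis_closedBall.mem_iff.1 (D.isOpen.mem_nhds hx)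
  have hF := D.pd _ hρ' (isCompact_closedBall x ρ)
  set F := {γ : Γ | ∃ y ∈ Metric.closedBall x ρ, hol γ y ∈ Metric.closedBall x ρ} with hFdef
  -- the operators of `F` other than `1` are far from `1`
  have hT : ((fun γ => aff (hol γ)) '' F \ {1}).Finite := (hF.image _).subset sdiff_subset
  have h1 : ((fun γ => aff (hol γ)) '' F \ {1})ᶜ ∈ 𝓝 (1 : BB E) :=
    hT.isClosed.isOpen_compl.mem_nhds fun hh => hh.2 rfl
  have h2 : Tendsto (ex : BB E → BB E) (𝓝 0) (𝓝 1) := by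
    have := (ex_cont (A := BB E)).tendsto 0
    rwa [ex_zero] at this
  have h3 : Tendsto (fun s : BB E => Ph s x) (𝓝 0) (𝓝 x) := by
    have h4 : Continuous fun s : BB E => Ph s x := Ph_cont.comp (continuous_id.prodMk
      continuous_const)
    have := h4.tendsto 0
    rwa [Ph_zero] at this
  have h5 := (h2.eventually h1).and (h3.eventually (Metric.closedBall_mem_nhds x hρ))
  obtain ⟨ε, hε, hε'⟩ := Metric.eventually_nhds_iff_ball.1 h5
  refine ⟨ε, hε, fun ξ hn _ a he hlt => ?_⟩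
  obtain ⟨h6, h7⟩ := hε' ξ (by rwa [mem_ball_zero_iff])
  have haF : a ∈ F := ⟨x, Metric.mem_closedBall_self hρ.le, by
    have h8 : Ph ξ x = hol a x := by rw [Ph, he, act_aff]
    rw [← h8]; exact h7⟩
  apply ex_eq_one hn
  by_contra hne
  exact h6 ⟨⟨a, haF, he.symm⟩, hne⟩

/-- the logarithms form a discrete group -/
theorem Lam_gap (D : Dom hol Ω) {x : E} (hx : x ∈ Ω) (h : UN hol N) :
    ∃ ε > 0, ∀ ξ ∈ Lam h, ‖ξ‖ < ε → ξ = 0 := by
  obtain ⟨ε, hε, hg⟩ := grp_gap D hx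
  refine ⟨ε, hε, fun ξ hξ hlt => ?_⟩
  have h1 := ex_snd h (show ξ ∈ aa h from Submodule.subset_span hξ)
  obtain ⟨-, hn, a, -, he⟩ := hξ
  exact hg ξ hn h1 a he hlt

variable {V : Type} [NormedAddCommGroup V] [NormedSpace ℝ V] [FiniteDimensional ℝ V]

set_option linter.unusedSectionVars false

/-- coordinates on the Lie algebra of the hull -/
def jj {h : UN hol N} (e : V ≃ₗ[ℝ] aa h) : V →ₗ[ℝ] BB E := (aa h).subtype ∘ₗ e.toLinearMap

theorem jj_mem {h : UN hol N} (e : V ≃ₗ[ℝ] aa h) (v : V) : jj e v ∈ aa h := (e v).2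

theorem jj_cont {h : UN hol N} (e : V ≃ₗ[ℝ] aa h) : Continuous (jj e) :=
  (jj e).continuous_of_finiteDimensional

theorem jj_inj {h : UN hol N} (e : V ≃ₗ[ℝ] aa h) : Function.Injective (jj e) :=
  (aa h).injective_subtype.comp e.injective

theorem jj_surj {h : UN hol N} (e : V ≃ₗ[ℝ] aa h) {s : BB E} (hs : s ∈ aa h) :
    ∃ v, jj e v = s := ⟨e.symm ⟨s, hs⟩, by
  show ((e (e.symm ⟨s, hs⟩) : aa h) : BB E) = s
  rw [e.apply_symm_apply]⟩

theorem exists_co_aux {W : Type} [AddCommGroup W] [Module ℝ W] [FiniteDimensional ℝ W]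
    (S : Submodule ℝ W) : ∃ d : ℕ, Nonempty (EuclideanSpace ℝ (Fin d) ≃ₗ[ℝ] S) := by
  refine ⟨finrank ℝ S, ⟨LinearEquiv.ofFinrankEq _ _ ?_⟩⟩
  rw [finrank_euclideanSpace, Fintype.card_fin]

theorem exists_co (h : UN hol N) :
    ∃ d : ℕ, Nonempty (EuclideanSpace ℝ (Fin d) ≃ₗ[ℝ] aa h) := exists_co_aux (aa h)

/-- the lattice in the Lie algebra of the hull -/
def LL {h : UN hol N} (e : V ≃ₗ[ℝ] aa h) : Submodule ℤ V where
  carrier := {s | jj e s ∈ Lam h}
  add_mem' {a b} ha hb := by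
    show jj e (a + b) ∈ Lam h
    rw [map_add]
    exact (Lam h).add_mem ha hb
  zero_mem' := by
    show jj e 0 ∈ Lam h
    rw [map_zero]
    exact (Lam h).zero_mem
  smul_mem' z s hs := by
    show jj e (z • s) ∈ Lam h
    rw [map_zsmul]
    exact (Lam h).zsmul_mem hs z

theorem mem_LL {h : UN hol N} {e : V ≃ₗ[ℝ] aa h} {s : V} : s ∈ LL e ↔ jj e s ∈ Lam h := Iff.rfl

theorem LL_gap (D : Dom hol Ω) {x : E} (hx : x ∈ Ω) {h : UN hol N} (e : V ≃ₗ[ℝ] aa h) :
    ∃ ε > 0, ∀ s ∈ LL e, ‖s‖ < ε → s = 0 := by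
  obtain ⟨r, hr, hgap⟩ := Lam_gap D hx h
  have h1 : Tendsto (fun s => ‖jj e s‖) (𝓝 0) (𝓝 0) := by
    have h2 : Continuous fun s => ‖jj e s‖ := (jj_cont e).norm
    have := h2.tendsto 0
    rwa [map_zero, norm_zero] at this
  obtain ⟨ε, hε, hε'⟩ := Metric.eventually_nhds_iff_ball.1 (h1.eventually (gt_mem_nhds hr))
  refine ⟨ε, hε, fun s hs hlt => ?_⟩
  apply jj_inj e
  rw [map_zero]
  exact hgap _ hs (hε' s (mem_ball_zero_iff.2 hlt))

theorem LL_disc (D : Dom hol Ω) {x : E} (hx : x ∈ Ω) {h : UN hol N} (e : V ≃ₗ[ℝ] aa h) :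
    DiscreteTopology (LL e) := by
  obtain ⟨r, hr, hgap⟩ := LL_gap D hx e
  apply discreteTopology_of_isOpen_singleton_zero
  rw [Metric.isOpen_singleton_iff]
  refine ⟨r, hr, fun y hy => ?_⟩
  apply Subtype.ext
  apply hgap _ y.2
  rw [dist_eq_norm, sub_zero] at hy
  exact hy

theorem LL_span {h : UN hol N} (e : V ≃ₗ[ℝ] aa h) :
    Submodule.span ℝ (LL e : Set V) = ⊤ := by
  rw [eq_top_iff]
  intro v _
  have h1 : aa h ≤ (Submodule.span ℝ (LL e : Set V)).map (jj e) := by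
    rw [aa, Submodule.span_le]
    intro ξ hξ
    obtain ⟨w, hw⟩ := jj_surj e (show ξ ∈ aa h from Submodule.subset_span hξ)
    refine ⟨w, Submodule.subset_span ?_, hw⟩
    show jj e w ∈ Lam h
    rw [hw]
    exact hξ
  obtain ⟨w, hw, he⟩ := h1 (jj_mem e v)
  rwa [← jj_inj e he]

/-- conjugation on the Lie algebra -/
noncomputable def AdA {h : UN hol N} (e : V ≃ₗ[ℝ] aa h) (hN : AN hol N) (γ : Γ) : V →ₗ[ℝ] V :=
  e.symm.toLinearMap ∘ₗ ((AdL hol γ).restrict fun _ hs => Ad_aa h hN γ hs) ∘ₗ e.toLinearMap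

theorem AdA_apply {h : UN hol N} (e : V ≃ₗ[ℝ] aa h) (hN : AN hol N) (γ : Γ) (s : V) :
    jj e (AdA e hN γ s) = Ad hol γ (jj e s) := by
  show ((e (e.symm _) : aa h) : BB E) = _
  rw [e.apply_symm_apply]
  rfl

theorem AdA_comp {h : UN hol N} (e : V ≃ₗ[ℝ] aa h) (hN : AN hol N) (γ δ : Γ) :
    AdA e hN γ ∘ₗ AdA e hN δ = AdA e hN (γ * δ) := by
  apply LinearMap.ext
  intro s
  apply jj_inj e
  rw [LinearMap.comp_apply, AdA_apply, AdA_apply, AdA_apply, Ad_comp]

theorem AdA_id {h : UN hol N} (e : V ≃ₗ[ℝ] aa h) (hN : AN hol N) :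
    AdA e hN 1 = LinearMap.id := by
  apply LinearMap.ext
  intro s
  apply jj_inj e
  rw [AdA_apply, Ad_id, LinearMap.id_apply]

theorem AdA_inv {h : UN hol N} (e : V ≃ₗ[ℝ] aa h) (hN : AN hol N) (γ : Γ) :
    AdA e hN γ⁻¹ ∘ₗ AdA e hN γ = LinearMap.id := by
  rw [AdA_comp, inv_mul_cancel, AdA_id]

/-- the conjugates of the lattice are uniformly discrete -/
theorem LL_gap' (D : Dom hol Ω) {x : E} (hx : x ∈ Ω) {h : UN hol N} (e : V ≃ₗ[ℝ] aa h)
    (hN : AN hol N) : ∃ ε > 0, ∀ (γ : Γ), ∀ s ∈ LL e, ‖AdA e hN γ s‖ < ε → s = 0 := by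
  obtain ⟨r, hr, hgap⟩ := grp_gap D hx
  have h1 : Tendsto (fun s => ‖jj e s‖) (𝓝 0) (𝓝 0) := by
    have h2 : Continuous fun s => ‖jj e s‖ := (jj_cont e).norm
    have := h2.tendsto 0
    rwa [map_zero, norm_zero] at this
  obtain ⟨ε, hε, hε'⟩ := Metric.eventually_nhds_iff_ball.1 (h1.eventually (gt_mem_nhds hr))
  refine ⟨ε, hε, fun γ s hs hlt => ?_⟩
  obtain ⟨-, hn, a, -, he⟩ := mem_LL.1 hs
  have h3 := hε' _ (mem_ball_zero_iff.2 hlt)
  have h4 := hgap _ (aa_prop h (jj_mem e (AdA e hN γ s))).2 (ex_snd h (jj_mem e _))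
    (γ * a * γ⁻¹) (by rw [AdA_apply, ← Ad_ex, he, Ad_aff]) h3
  rw [AdA_apply] at h4
  apply jj_inj e
  rw [map_zero]
  exact Ad_inj γ h4

theorem AdA_det (D : Dom hol Ω) {x : E} (hx : x ∈ Ω) {h : UN hol N} (e : V ≃ₗ[ℝ] aa h)
    (hN : AN hol N) (γ : Γ) : |LinearMap.det (AdA e hN γ)| = 1 := by
  classical
  have hdisc := LL_disc D hx e
  have hlat : IsZLattice ℝ (LL e) := ⟨LL_span e⟩
  let _ : MeasurableSpace V := borel V
  have : BorelSpace V := ⟨rfl⟩
  let μ : Measure V := Measure.addHaar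
  obtain ⟨M, hM, hP⟩ := small_set μ (LL e)
  obtain ⟨ε, hε, hgap⟩ := LL_gap' D hx e hN
  have hmul : ∀ γ δ : Γ, LinearMap.det (AdA e hN γ) * LinearMap.det (AdA e hN δ) =
      LinearMap.det (AdA e hN (γ * δ)) := by
    intro γ δ
    rw [← AdA_comp, LinearMap.det_comp]
  have hone : LinearMap.det (AdA e hN 1) = 1 := by rw [AdA_id, LinearMap.det_id]
  have hne : ∀ γ : Γ, LinearMap.det (AdA e hN γ) ≠ 0 := by
    intro γ h0
    have h1 := hmul γ γ⁻¹
    rw [mul_inv_cancel, hone, h0, zero_mul] at h1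
    exact zero_ne_one h1
  have hlow : ∃ c : ℝ, 0 < c ∧ ∀ γ : Γ, c ≤ |LinearMap.det (AdA e hN γ)| := by
    have hb : μ (Metric.ball (0 : V) (ε / 2)) ≠ 0 :=
      (Metric.measure_ball_pos μ _ (by positivity)).ne'
    have hbt : μ (Metric.ball (0 : V) (ε / 2)) ≠ ⊤ := measure_ball_lt_top.ne
    have hb' : 0 < (μ (Metric.ball (0 : V) (ε / 2))).toReal := ENNReal.toReal_pos hb hbt
    refine ⟨(μ (Metric.ball (0 : V) (ε / 2))).toReal / (M.toReal + 1), by positivity, ?_⟩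
    intro γ
    have h1 := hP (⇑(AdA e hN γ) ⁻¹' Metric.ball 0 (ε / 2))
      (Metric.isOpen_ball.preimage (AdA e hN γ).continuous_of_finiteDimensional).measurableSet
      (by
        intro t ht ht0 v hv hv'
        apply ht0
        refine hgap γ t ht ?_
        have h3 : AdA e hN γ t = AdA e hN γ (v + t) - AdA e hN γ v := by
          rw [map_add, add_sub_cancel_left]
        rw [h3]
        have h4 := mem_ball_zero_iff.1 (show AdA e hN γ v ∈ Metric.ball 0 (ε / 2) from hv)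
        have h5 := mem_ball_zero_iff.1 (show AdA e hN γ (v + t) ∈ Metric.ball 0 (ε / 2) from hv')
        calc _ ≤ _ := norm_sub_le _ _
          _ < ε := by linarith)
    rw [Measure.addHaar_preimage_linearMap μ (hne γ), abs_inv] at h1
    set t := |LinearMap.det (AdA e hN γ)| with ht
    have ht0 : 0 < t := abs_pos.2 (hne γ)
    have h2 := ENNReal.toReal_mono hM h1
    rw [ENNReal.toReal_mul, ENNReal.toReal_ofReal (by positivity)] at h2
    rw [div_le_iff₀ (by positivity)]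
    have h3 : (μ (Metric.ball (0 : V) (ε / 2))).toReal ≤ t * M.toReal := by
      have h4 := mul_le_mul_of_nonneg_left h2 ht0.le
      rwa [← mul_assoc, mul_inv_cancel₀ ht0.ne', one_mul] at h4
    nlinarith [ENNReal.toReal_nonneg (a := M)]
  obtain ⟨c, hc, hlow⟩ := hlow
  have hpow : ∀ (γ : Γ) (n : ℕ), LinearMap.det (AdA e hN γ) ^ n =
      LinearMap.det (AdA e hN (γ ^ n)) := by
    intro γ n
    induction n with
    | zero => rw [pow_zero, pow_zero, hone]
    | succ n ih => rw [pow_succ, pow_succ, ih, hmul]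
  have hge : ∀ γ : Γ, 1 ≤ |LinearMap.det (AdA e hN γ)| := by
    intro γ
    by_contra hlt
    push Not at hlt
    obtain ⟨n, hn⟩ := exists_pow_lt_of_lt_one hc hlt
    rw [← abs_pow, hpow] at hn
    exact absurd hn (not_lt.2 (hlow _))
  refine le_antisymm ?_ (hge γ)
  have h1 := hge γ⁻¹
  have h2 := hmul γ γ⁻¹
  rw [mul_inv_cancel, hone] at h2
  have h3 : |LinearMap.det (AdA e hN γ)| * |LinearMap.det (AdA e hN γ⁻¹)| = 1 := by
    rw [← abs_mul, h2, abs_one]
  nlinarith [abs_nonneg (LinearMap.det (AdA e hN γ))]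

/-- the action of the hull in coordinates -/
noncomputable def Pe {h : UN hol N} (e : V ≃ₗ[ℝ] aa h) (s : V) (x : E) : E := Ph (jj e s) x

theorem Pe_cont {h : UN hol N} (e : V ≃ₗ[ℝ] aa h) : Continuous fun p : V × E => Pe e p.1 p.2 :=
  Ph_cont.comp (((jj_cont e).comp continuous_fst).prodMk continuous_snd)

theorem Pe_zero {h : UN hol N} (e : V ≃ₗ[ℝ] aa h) (x : E) : Pe e 0 x = x := by
  rw [Pe, map_zero, Ph_zero]

theorem Pe_add {h : UN hol N} (e : V ≃ₗ[ℝ] aa h) (s t : V) (x : E) :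
    Pe e (s + t) x = Pe e s (Pe e t x) := by
  rw [Pe, map_add, Ph_add h (jj_mem e s) (jj_mem e t)]
  rfl

theorem hol_Pe {h : UN hol N} (e : V ≃ₗ[ℝ] aa h) (hN : AN hol N) (γ : Γ) (s : V) (x : E) :
    hol γ (Pe e s x) = Pe e (AdA e hN γ s) (hol γ x) := by
  rw [Pe, Pe, AdA_apply, hol_Ph h γ (jj_mem e s)]

theorem AdA_N {h : UN hol N} (e : V ≃ₗ[ℝ] aa h) (hN : AN hol N) {τ : Γ} (hτ : τ ∈ N) (s : V) :
    AdA e hN τ s = s := by
  apply jj_inj e
  rw [AdA_apply]
  have hc1 : Commute (aff (hol τ)) (jj e s) := SA_comm h (mem_SA hτ) (aa_prop h (jj_mem e s)).1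
  rw [Ad, hc1.eq, mul_assoc, aff_inv', mul_one]

/-- a compact neighbourhood under small elements of the hull -/
theorem small {h : UN hol N} (e : V ≃ₗ[ℝ] aa h) (hΩ : IsOpen Ω) {K : Set E} (hK : IsCompact K)
    (hKΩ : K ⊆ Ω) : ∃ r > 0, ∀ s : V, ‖s‖ ≤ r → ∀ y ∈ K, Pe e s y ∈ Ω := by
  have hop : IsOpen ((fun p : V × E => Pe e p.1 p.2) ⁻¹' Ω) := hΩ.preimage (Pe_cont e)
  have hsub : ({0} : Set V) ×ˢ K ⊆ (fun p : V × E => Pe e p.1 p.2) ⁻¹' Ω := by
    rintro ⟨s, y⟩ ⟨hs, hy⟩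
    rw [mem_singleton_iff] at hs
    subst hs
    show Pe e 0 y ∈ Ω
    rw [Pe_zero]
    exact hKΩ hy
  obtain ⟨u, v, hu, hv, h0u, hKv, huv⟩ := generalized_tube_lemma isCompact_singleton hK hop hsub
  obtain ⟨r, hr, hr'⟩ := Metric.nhds_basis_closedBall.mem_iff.1 (hu.mem_nhds (h0u rfl))
  refine ⟨r, hr, fun s hs y hy => ?_⟩
  exact huv (show (s, y) ∈ u ×ˢ v from ⟨hr' (mem_closedBall_zero_iff.2 hs), hKv hy⟩)

/-- `Ω` is invariant under the hull, in coordinates. -/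
theorem hull_inv_co (D : Dom hol Ω) {h : UN hol N} (e : V ≃ₗ[ℝ] aa h) (hN : AN hol N) {x : E}
    (hx : x ∈ Ω) (s : V) : Pe e s x ∈ Ω := by
  classical
  by_contra hout
  have hdisc := LL_disc D hx e
  have hlat : IsZLattice ℝ (LL e) := ⟨LL_span e⟩
  have hpc : Continuous fun t : ℝ => Pe e (t • s) x :=
    (Pe_cont e).comp ((continuous_id.smul continuous_const).prodMk continuous_const)
  obtain ⟨t, c, hb, hcΩ, hct⟩ := first_exit' D.isOpen hpc
    (by show Pe e ((0 : ℝ) • s) x ∈ Ω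
        rw [zero_smul, Pe_zero]; exact hx)
    (by show Pe e ((1 : ℝ) • s) x ∉ Ω
        rw [one_smul]; exact hout)
  obtain ⟨K, hKΩ, hK, hcc⟩ := D.cc
  choose g hg using fun n => hcc _ (hcΩ n)
  obtain ⟨r₁, hr₁, hsmall⟩ := small e D.isOpen hK hKΩ
  obtain ⟨ε, hε, hgap⟩ := LL_gap' D hx e hN
  set r := min r₁ (ε / 2) with hrdef
  have hr : 0 < r := lt_min hr₁ (by positivity)
  have hrε : 2 * r ≤ ε := by
    have : r ≤ ε / 2 := min_le_right _ _
    linarith
  let K' : Set E := (fun p : V × E => Pe e p.1 p.2) '' (Metric.closedBall 0 r ×ˢ K)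
  have hK' : IsCompact K' := ((isCompact_closedBall _ _).prod hK).image (Pe_cont e)
  have hK'Ω : K' ⊆ Ω := by
    rintro _ ⟨⟨σ, y⟩, ⟨hσ, hy⟩, rfl⟩
    have hσ' := mem_closedBall_zero_iff.1 (show σ ∈ Metric.closedBall 0 r from hσ)
    exact hsmall σ (hσ'.trans (min_le_left _ _)) y hy
  have hF := D.pd _ hK'Ω hK'
  set F := {γ : Γ | ∃ x ∈ K', hol γ x ∈ K'} with hFdef
  -- images of points of the leaf
  have hnear : ∀ (n : ℕ) (w : V), ‖AdA e hN (g n) (w - c n • s)‖ < r →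
      hol (g n) (Pe e w x) ∈ K' := by
    intro n w hw
    refine ⟨(AdA e hN (g n) (w - c n • s), hol (g n) (Pe e (c n • s) x)),
      ⟨mem_closedBall_zero_iff.2 hw.le, hg n⟩, ?_⟩
    show Pe e (AdA e hN (g n) (w - c n • s)) (hol (g n) (Pe e (c n • s) x)) = _
    rw [← hol_Pe, ← Pe_add, sub_add_cancel]
  by_cases hA : ∃ S : Finset ℕ, ∀ m : ℕ, ∃ n ∈ S, ∃ τ ∈ N, g m * τ * (g n)⁻¹ ∈ F
  · obtain ⟨S, hS⟩ := hA
    let H : Set Γ := image2 (fun φ n => φ * g n) F (S : Set ℕ)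
    have hHfin : H.Finite := hF.image2 _ S.finite_toSet
    have h1 : ∀ m : ℕ, ∃ k ∈ H, ∃ τ ∈ N, g m = k * τ := by
      intro m
      obtain ⟨n, hn, τ, hτ, hmem⟩ := hS m
      refine ⟨g m * τ * (g n)⁻¹ * g n, ⟨_, hmem, n, hn, rfl⟩, τ⁻¹, N.inv_mem hτ, ?_⟩
      group
    -- all these points are in one compact set, up to elements of `N`
    let K₁ : Set E := ⋃ k ∈ H, hol k⁻¹ '' K
    have hK₁ : IsCompact K₁ := hHfin.isCompact_biUnion fun k _ => hK.image (hcont _)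
    have hK₁Ω : K₁ ⊆ Ω := by
      refine iUnion₂_subset fun k _ => ?_
      rintro _ ⟨y, hy, rfl⟩
      exact D.inv _ y (hKΩ hy)
    obtain ⟨δ, hδ, hδ'⟩ := small e D.isOpen hK₁ hK₁Ω
    -- choose a point near the exit
    have hlim : Tendsto (fun n => (t - c n) • s) atTop (𝓝 ((t - t) • s)) :=
      (hct.const_sub t).smul_const s
    rw [sub_self, zero_smul] at hlim
    obtain ⟨n, hn⟩ := (hlim.eventually (Metric.closedBall_mem_nhds (0 : V) hδ)).exists
    have hn := mem_closedBall_zero_iff.1 hn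
    obtain ⟨k, hk, τ, hτ, he⟩ := h1 n
    have h2 : hol τ (Pe e (c n • s) x) ∈ K₁ := by
      refine mem_iUnion₂.2 ⟨k, hk, hol (g n) (Pe e (c n • s) x), hg n, ?_⟩
      rw [he, hol_mul, Pool.Agent.W689.Mk.hol_inv_apply]
    have h3 := hδ' _ hn _ h2
    -- the hull commutes with `N`
    have h5 : Pe e ((t - c n) • s) (hol τ (Pe e (c n • s) x)) = hol τ (Pe e (t • s) x) := by
      conv_lhs => rw [← AdA_N e hN hτ ((t - c n) • s)]
      rw [← hol_Pe, ← Pe_add, ← add_smul, sub_add_cancel]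
    rw [h5] at h3
    apply hb
    have h6 := D.inv τ⁻¹ _ h3
    rwa [Pool.Agent.W689.Mk.hol_inv_apply] at h6
  · push Not at hA
    obtain ⟨φ, -, hφ⟩ := exists_seq_of_forall_finset_exists (fun _ : ℕ => True)
      (fun n m => ∀ τ ∈ N, g m * τ * (g n)⁻¹ ∉ F)
      (fun S _ => (hA S).imp fun m hm => ⟨trivial, fun n hn τ hτ => hm n hn τ hτ⟩)
    have hsymm : ∀ γ ∈ F, γ⁻¹ ∈ F := by
      rintro γ ⟨y, hy, hy'⟩
      exact ⟨hol γ y, hy', by rw [Pool.Agent.W689.Mk.hol_inv_apply]; exact hy⟩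
    have hφ' : ∀ k l, k ≠ l → ∀ τ ∈ N, g (φ l) * τ * (g (φ k))⁻¹ ∉ F := by
      intro k l hkl τ hτ hmem
      rcases lt_or_gt_of_ne hkl with h1 | h1
      · exact hφ k l h1 τ hτ hmem
      · refine hφ l k h1 τ⁻¹ (N.inv_mem hτ) ?_
        have := hsymm _ hmem
        have h2 : (g (φ l) * τ * (g (φ k))⁻¹)⁻¹ = g (φ k) * τ⁻¹ * (g (φ l))⁻¹ := by group
        rwa [h2] at this
    let : MeasurableSpace V := borel V
    haveI : BorelSpace V := ⟨rfl⟩
    let μ : Measure V := Measure.addHaar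
    have hdet : ∀ γ : Γ, |LinearMap.det (AdA e hN γ)| = 1 := AdA_det D hx e hN
    let P : ℕ → Set V := fun k =>
      (fun w : V => w + -(c (φ k) • s)) ⁻¹' (⇑(AdA e hN (g (φ k))) ⁻¹' Metric.ball 0 r)
    have hPmem : ∀ (k : ℕ) (w : V), w ∈ P k ↔
        ‖AdA e hN (g (φ k)) (w - c (φ k) • s)‖ < r := by
      intro k w
      show AdA e hN (g (φ k)) (w + -(c (φ k) • s)) ∈ Metric.ball 0 r ↔ _
      rw [mem_ball_zero_iff, ← sub_eq_add_neg]
    refine pack μ (LL e) P ?_ (μ (Metric.ball 0 r)) ?_ ?_ ?_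
    · intro k
      refine IsOpen.measurableSet ?_
      refine (Metric.isOpen_ball.preimage
        (AdA e hN (g (φ k))).continuous_of_finiteDimensional).preimage ?_
      exact continuous_id.add continuous_const
    · exact (Metric.measure_ball_pos μ _ hr).ne'
    · intro k
      have hne : LinearMap.det (AdA e hN (g (φ k))) ≠ 0 := by
        intro h0
        have := hdet (g (φ k))
        rw [h0, abs_zero] at this
        exact zero_ne_one this
      have h1 : μ (P k) = μ (Metric.ball (0 : V) r) := by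
        have h2 : μ (P k) = μ (⇑(AdA e hN (g (φ k))) ⁻¹' Metric.ball 0 r) :=
          measure_preimage_add_right μ _ _
        rw [h2, Measure.addHaar_preimage_linearMap μ hne, abs_inv, hdet, inv_one,
          ENNReal.ofReal_one, one_mul]
      rw [h1]
    · intro k l u hu hne w hw hw'
      rw [hPmem] at hw hw'
      obtain ⟨-, -, τ, hτ, he⟩ := mem_LL.1 hu
      have h1 : Pe e (w + u) x = hol τ (Pe e w x) := by
        rw [add_comm, Pe_add]
        exact Ph_Lam (h := h) he _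
      by_cases hkl : k = l
      · subst hkl
        have hu0 : u ≠ 0 := by
          rcases hne with h3 | h3
          · exact absurd rfl h3
          · exact h3
        have h3 : ‖AdA e hN (g (φ k)) u‖ < 2 * r := by
          have h4 : AdA e hN (g (φ k)) u = AdA e hN (g (φ k)) (w + u - c (φ k) • s) -
              AdA e hN (g (φ k)) (w - c (φ k) • s) := by
            rw [← map_sub]
            congr 1
            abel
          rw [h4]
          calc _ ≤ _ := norm_sub_le _ _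
            _ < 2 * r := by linarith
        exact hu0 (hgap _ u hu (h3.trans_le hrε))
      · refine hφ' k l hkl τ hτ ⟨hol (g (φ k)) (Pe e w x), hnear _ _ hw, ?_⟩
        rw [hol_mul, hol_mul, Pool.Agent.W689.Mk.hol_inv_apply, ← h1]
        exact hnear _ _ hw'

/-- `Ω` is invariant under the hull. -/
theorem hull_inv (D : Dom hol Ω) (h : UN hol N) (hN : AN hol N) {x : E} (hx : x ∈ Ω)
    {s : BB E} (hs : s ∈ aa h) : Ph s x ∈ Ω := by
  obtain ⟨d, ⟨e⟩⟩ := exists_co h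
  obtain ⟨v, rfl⟩ := jj_surj e hs
  exact hull_inv_co D e hN hx v

end Pool.Agent.U352.UH
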