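import Mathlib

/-!
Actions of a group extended by a vector group: the abstract properties which are needed for the
construction of equivariant vector fields.
-/

set_option autoImplicit false

open Set Filter Topology

namespace Pool.Agent.U352.UH

/-- A group `Γ` acts on the open set `Ω` by affine maps, and so does the vector group `V`,
normalised by `Γ`, such that the extended group acts freely, properly and cocompactly. -/
structure Sy {Γ E V : Type} [Group Γ] [NormedAddCommGroup E] [NormedSpace ℝ E]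
    [NormedAddCommGroup V] [NormedSpace ℝ V] (hol : Γ →* (E ≃ᵃ[ℝ] E)) (N : Subgroup Γ)
    (Ω : Set E) (P : V → E → E) (l : V → E →L[ℝ] E) (m : Γ → E →L[ℝ] E) (A : Γ → V → V) :
    Prop where
  isOpen : IsOpen Ω
  P_zero : ∀ x, P 0 x = x
  P_add : ∀ s t x, P (s + t) x = P s (P t x)
  P_cont : Continuous fun p : V × E => P p.1 p.2
  P_lin : ∀ s x v, P s (x + v) = P s x + l s v
  P_inv : ∀ s, ∀ x ∈ Ω, P s x ∈ Ω
  l_cont : Continuous l
  l_add : ∀ s t, l (s + t) = l s * l t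
  m_apply : ∀ γ v, m γ v = (hol γ).linear v
  hol_inv : ∀ γ, ∀ x ∈ Ω, hol γ x ∈ Ω
  comm : ∀ γ s x, hol γ (P s x) = P (A γ s) (hol γ x)
  mcomm : ∀ γ s, m γ * l s = l (A γ s) * m γ
  elt : ∀ a ∈ N, ∃ u, (∀ x, P u x = hol a x) ∧ l u = m a
  prop : ∀ C ⊆ Ω, IsCompact C → ∃ F : Set Γ, F.Finite ∧ ∀ s γ y, y ∈ C →
    P s (hol γ y) ∈ C → ∃ a ∈ N, a * γ ∈ F
  prop' : ∀ C ⊆ Ω, IsCompact C → ∃ B : ℝ, ∀ s y, y ∈ C → P s y ∈ C → ‖s‖ ≤ B
  near : ∀ x₀ ∈ Ω, ∃ r > 0, Metric.closedBall x₀ r ⊆ Ω ∧ ∀ s γ y, y ∈ Metric.closedBall x₀ r →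
    P s (hol γ y) ∈ Metric.closedBall x₀ r → ‖l s * m γ - 1‖ ≤ 1 / 2
  cc : ∃ K ⊆ Ω, IsCompact K ∧ ∀ x ∈ Ω, ∃ γ, hol γ x ∈ K
  move : ∀ x ∈ Ω, ∃ (s : V) (v : E), v ≠ 0 ∧ HasDerivAt (fun t : ℝ => P (t • s) x) v 0

end Pool.Agent.U352.UH
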