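import Pool.Agent.U352.UH.Iso
import Pool.Agent.U352.UH.Sy

/-!
The hull gives an abstract system.
-/

set_option autoImplicit false
set_option linter.unusedSectionVars false

open Set Filter Topology MeasureTheory Pool.Agent.W689.Mk Module
open Pool.Agent.N520.RO (aff aff_apply aff_mul aff_one affU lin_zero)
open Pool.Agent.U352.AF (Dom hol_mul hcont pack)

namespace Pool.Agent.U352.UH

variable {Γ E : Type} [Group Γ] [NormedAddCommGroup E] [NormedSpace ℝ E] [FiniteDimensional ℝ E]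
  {hol : Γ →* (E ≃ᵃ[ℝ] E)} {N : Subgroup Γ} {Ω : Set E}
  {V : Type} [NormedAddCommGroup V] [NormedSpace ℝ V] [FiniteDimensional ℝ V]

/-- the linear part as a continuous linear map -/
noncomputable def lnC (f : BB E) : E →L[ℝ] E :=
  (ContinuousLinearMap.fst ℝ E ℝ).comp (f.comp (ContinuousLinearMap.inl ℝ E ℝ))

theorem lnC_apply (f : BB E) (v : E) : lnC f v = (f (v, 0)).1 := rfl

theorem lnC_sub (f g : BB E) : lnC (f - g) = lnC f - lnC g := by
  refine ContinuousLinearMap.ext fun v => ?_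
  rfl

theorem lnC_one : lnC (1 : BB E) = 1 := by
  refine ContinuousLinearMap.ext fun v => ?_
  rfl

theorem lnC_norm (f : BB E) : ‖lnC f‖ ≤ ‖f‖ := by
  refine ContinuousLinearMap.opNorm_le_bound _ (norm_nonneg _) fun v => ?_
  have h1 : ‖(f (v, 0)).1‖ ≤ ‖f (v, 0)‖ := norm_fst_le _
  have h2 : ‖f (v, (0 : ℝ))‖ ≤ ‖f‖ * ‖(v, (0 : ℝ))‖ := f.le_opNorm _
  have h3 : ‖(v, (0 : ℝ))‖ = ‖v‖ := by
    rw [Prod.norm_mk, norm_zero, max_eq_left (norm_nonneg _)]
  rw [h3] at h2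
  exact h1.trans h2

theorem lnC_cont : Continuous (lnC : BB E → E →L[ℝ] E) := by
  refine Metric.continuous_iff.2 fun f ε hε => ⟨ε, hε, fun g hg => ?_⟩
  rw [dist_eq_norm] at hg ⊢
  rw [← lnC_sub]
  exact (lnC_norm _).trans_lt hg

theorem lnC_mul {f g : BB E} (hg : ∀ w, (g w).2 = w.2) : lnC (f * g) = lnC f * lnC g := by
  refine ContinuousLinearMap.ext fun v => ?_
  exact ln_mul hg v

/-- the isotropy groups of the extended group are trivial -/
def Isot (h : UN hol N) (Ω : Set E) : Prop :=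
  ∀ γ, ∀ s ∈ aa h, ∀ x ∈ Ω, Ph s (hol γ x) = x → ex s * aff (hol γ) = 1

/-- elements which move a point near `x₀` to a point near `x₀` are near the identity -/
theorem near_id (D : Dom hol Ω) {h : UN hol N} (e : V ≃ₗ[ℝ] aa h) (hN : AN hol N)
    (hiso : Isot h Ω) {x₀ : E} (hx₀ : x₀ ∈ Ω) {ε : ℝ} (hε : 0 < ε) :
    ∃ r > 0, Metric.closedBall x₀ r ⊆ Ω ∧ ∀ s γ y, y ∈ Metric.closedBall x₀ r →
      Pe e s (hol γ y) ∈ Metric.closedBall x₀ r → ‖ex (jj e s) * aff (hol γ) - 1‖ ≤ ε := by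
  obtain ⟨ρ, hρ, hρ'⟩ := Metric.nhds_basis_closedBall.mem_iff.1 (D.isOpen.mem_nhds hx₀)
  obtain ⟨R, F, hF, hp⟩ := prop_G D e hN (isCompact_closedBall x₀ ρ) hρ'
  by_contra hcon
  push Not at hcon
  have hr : ∀ n : ℕ, 0 < ρ / (n + 1) := fun n => by positivity
  have hrle : ∀ n : ℕ, ρ / (n + 1) ≤ ρ := fun n => by
    rw [div_le_iff₀ (by positivity)]
    nlinarith [(Nat.cast_nonneg n : (0 : ℝ) ≤ n)]
  have hsub : ∀ n : ℕ, Metric.closedBall x₀ (ρ / (n + 1)) ⊆ Metric.closedBall x₀ ρ := fun n =>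
    Metric.closedBall_subset_closedBall (hrle n)
  choose s γ y hy hs hlt using fun n : ℕ => hcon _ (hr n) ((hsub n).trans hρ')
  choose u hu a ha hea hR hFm using fun n => hp (s n) (γ n) (y n) (hsub n (hy n)) (hsub n (hs n))
  -- the same element of `F` infinitely often
  obtain ⟨δ, hδ⟩ : ∃ δ : Γ, ∃ᶠ n in atTop, a n * γ n = δ := by
    by_contra hc
    push Not at hc
    have h1 : ∀ δ ∈ F, ∀ᶠ n in atTop, a n * γ n ≠ δ := fun δ _ => hc δ
    have h2 := (hF.eventually_all).2 h1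
    obtain ⟨n, hn⟩ := h2.exists
    exact hn _ (hFm n) rfl
  obtain ⟨θ, hθ, hθ'⟩ := extraction_of_frequently_atTop hδ
  obtain ⟨σ, -, κ, hκ, hlim⟩ := (isCompact_closedBall (0 : V) R).tendsto_subseq
    (x := fun n => s (θ n) - u (θ n)) (fun n => mem_closedBall_zero_iff.2 (hR (θ n)))
  have hform : ∀ n, ex (jj e (s n)) * aff (hol (γ n)) =
      ex (jj e (s n - u n)) * aff (hol (a n * γ n)) := by
    intro n
    rw [map_mul, aff_mul, ← hea n, ← mul_assoc,
      ← ex_add (aa_comm h (jj_mem e _) (jj_mem e _)), ← map_add, sub_add_cancel]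
  have hy' : Tendsto y atTop (𝓝 x₀) := by
    rw [tendsto_iff_dist_tendsto_zero]
    refine squeeze_zero (fun _ => dist_nonneg) (fun n => hy n) ?_
    exact tendsto_const_div_atTop_nhds_zero_nat ρ |>.comp (tendsto_add_atTop_nat 1) |>.congr
      fun n => by simp
  have hz : Tendsto (fun n => Pe e (s n) (hol (γ n) (y n))) atTop (𝓝 x₀) := by
    rw [tendsto_iff_dist_tendsto_zero]
    refine squeeze_zero (fun _ => dist_nonneg) (fun n => hs n) ?_
    exact tendsto_const_div_atTop_nhds_zero_nat ρ |>.comp (tendsto_add_atTop_nat 1) |>.congr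
      fun n => by simp
  have hPz : ∀ n, Pe e (s (θ (κ n))) (hol (γ (θ (κ n))) (y (θ (κ n)))) =
      Pe e (s (θ (κ n)) - u (θ (κ n))) (hol δ (y (θ (κ n)))) := by
    intro n
    show Ph _ _ = Ph _ _
    rw [Ph_hol, Ph_hol, hform, hθ' (κ n)]
  have hθκ : Tendsto (fun n => θ (κ n)) atTop atTop :=
    hθ.tendsto_atTop.comp hκ.tendsto_atTop
  have hl1 : Tendsto (fun n => Pe e (s (θ (κ n)) - u (θ (κ n))) (hol δ (y (θ (κ n))))) atTop
      (𝓝 (Pe e σ (hol δ x₀))) := by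
    have h1 : Tendsto (fun n => hol δ (y (θ (κ n)))) atTop (𝓝 (hol δ x₀)) :=
      ((hcont δ).tendsto x₀).comp (hy'.comp hθκ)
    have h2 : Tendsto (fun p : V × E => Pe e p.1 p.2) (𝓝 (σ, hol δ x₀))
        (𝓝 (Pe e σ (hol δ x₀))) := (Pe_cont e).tendsto (σ, hol δ x₀)
    have h3 : Tendsto (fun n => s (θ (κ n)) - u (θ (κ n))) atTop (𝓝 σ) := hlim
    exact h2.comp (h3.prodMk_nhds h1)
  have hl2 := hz.comp hθκ
  have hfix : Pe e σ (hol δ x₀) = x₀ := by
    refine tendsto_nhds_unique hl1 ?_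
    refine hl2.congr fun n => ?_
    exact hPz n
  have hone : ex (jj e σ) * aff (hol δ) = 1 := hiso δ _ (jj_mem e σ) x₀ hx₀ hfix
  have hl3 : Tendsto (fun n => ex (jj e (s (θ (κ n)))) * aff (hol (γ (θ (κ n))))) atTop
      (𝓝 (1 : BB E)) := by
    rw [← hone]
    have h1 : Tendsto (fun n => ex (jj e (s (θ (κ n)) - u (θ (κ n))))) atTop
        (𝓝 (ex (jj e σ))) := ((ex_cont.comp (jj_cont e)).tendsto σ).comp hlim
    have h2 := h1.mul_const (aff (hol δ))
    refine h2.congr fun n => ?_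
    show ex (jj e (s (θ (κ n)) - u (θ (κ n)))) * aff (hol δ) = _
    rw [hform (θ (κ n)), hθ' (κ n)]
  have hl4 := (hl3.sub_const 1).norm
  rw [sub_self, norm_zero] at hl4
  obtain ⟨n, hn⟩ := (hl4.eventually (gt_mem_nhds hε)).exists
  exact absurd hn (not_lt.2 (hlt (θ (κ n))).le)

theorem toSy (D : Dom hol Ω) {h : UN hol N} (e : V ≃ₗ[ℝ] aa h) (hN : AN hol N)
    (hiso : Isot h Ω) (hV : ∃ v : V, v ≠ 0) :
    Sy hol N Ω (Pe e) (fun s => lnC (ex (jj e s))) (fun γ => lnC (aff (hol γ)))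
      (fun γ s => AdA e hN γ s) where
  isOpen := D.isOpen
  P_zero := Pe_zero e
  P_add := Pe_add e
  P_cont := Pe_cont e
  P_lin := fun s x v => act_add _ x v
  P_inv := fun s x hx => hull_inv_co D e hN hx s
  l_cont := lnC_cont.comp (ex_cont.comp (jj_cont e))
  l_add := fun s t => by
    rw [map_add, ex_add (aa_comm h (jj_mem e s) (jj_mem e t)), lnC_mul (ex_snd h (jj_mem e t))]
  m_apply := fun γ v => ln_aff (hol γ) v
  hol_inv := D.inv
  comm := fun γ s x => hol_Pe e hN γ s x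
  mcomm := fun γ s => by
    rw [← lnC_mul (ex_snd h (jj_mem e s)), ← lnC_mul (aff_snd _), AdA_apply, ← Ad_ex, Ad,
      mul_assoc _ (aff (hol γ⁻¹)), aff_inv, mul_one]
  elt := fun a ha => by
    obtain ⟨ξ, hξ, he⟩ := exists_Lam h ha
    obtain ⟨u, rfl⟩ := jj_surj e (show ξ ∈ aa h from Submodule.subset_span hξ)
    exact ⟨u, fun x => Ph_Lam (h := h) he x, by rw [he]⟩
  prop := fun C hC hCc => by
    obtain ⟨R, F, hF, hp⟩ := prop_G D e hN hCc hC
    refine ⟨F, hF, fun s γ y hy hs => ?_⟩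
    obtain ⟨u, -, a, ha, -, -, hF'⟩ := hp s γ y hy hs
    exact ⟨a, ha, hF'⟩
  prop' := fun C hC hCc => hull_proper D e hN hCc hC
  near := fun x₀ hx₀ => by
    obtain ⟨r, hr, h1, h2⟩ := near_id D e hN hiso hx₀ (ε := 1 / 2) (by norm_num)
    refine ⟨r, hr, h1, fun s γ y hy hs => ?_⟩
    have h3 := h2 s γ y hy hs
    rw [← lnC_mul (aff_snd _), ← lnC_one, ← lnC_sub]
    exact (lnC_norm _).trans h3
  cc := D.cc
  move := fun x hx => by
    obtain ⟨v, hv⟩ := hV
    refine ⟨v, (jj e v (x, 1)).1, ?_, ?_⟩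
    · intro h0
      apply hv
      apply jj_inj e
      rw [map_zero]
      refine field_ne D h hN hx (jj_mem e v) (Prod.ext h0 ?_)
      exact nil_snd (aa_prop h (jj_mem e v)).1 (aa_prop h (jj_mem e v)).2 _
    · have h1 : HasDerivAt (fun t : ℝ => NormedSpace.exp (t • jj e v))
          (NormedSpace.exp ((0 : ℝ) • jj e v) * jj e v) 0 := hasDerivAt_exp_smul_const (jj e v) 0
      rw [zero_smul, NormedSpace.exp_zero, one_mul] at h1
      have h2 := h1.clm_apply (hasDerivAt_const (0 : ℝ) ((x, 1) : E × ℝ))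
      have h3 := (ContinuousLinearMap.fst ℝ E ℝ).hasFDerivAt.comp_hasDerivAt (0 : ℝ) h2
      refine (h3.congr_deriv ?_).congr_of_eventuallyEq ?_
      · simp
      · refine Filter.Eventually.of_forall fun t => ?_
        show Ph (jj e (t • v)) x = _
        rw [map_smul]
        rfl

end Pool.Agent.U352.UH
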