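import Pool.Agent.U352.UH.Logs

/-!
The trace of the elements of the extended group.
-/

set_option autoImplicit false
set_option linter.unusedSectionVars false

open Set Filter Topology MeasureTheory Pool.Agent.W689.Mk Module
open Pool.Agent.N520.RO (aff aff_apply aff_mul aff_one affU lin_zero)
open Pool.Agent.U352.AF (Dom hol_mul hcont pack)

namespace Pool.Agent.U352.UH

theorem prod_nil {R : Type} [CommRing R] [IsNoetherianRing R] (α : R →+* R) :
    ∃ m : ℕ, ∀ (f : R) (P : ℕ → R), IsNilpotent f → P 0 = 1 → (∀ j, P (j + 1) = f * α (P j)) →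
      P m = 0 := by
  obtain ⟨m, hm⟩ := IsNoetherianRing.isNilpotent_nilradical R
  refine ⟨m, fun f P hf h0 hs => ?_⟩
  have h1 : nilradical R ≤ (nilradical R).comap α := by
    intro x hx
    rw [Ideal.mem_comap, mem_nilradical]
    exact (mem_nilradical.1 hx).map α
  have h2 : ∀ j, P j ∈ nilradical R ^ j := by
    intro j
    induction j with
    | zero => rw [pow_zero, Ideal.one_eq_top]; trivial
    | succ j ih =>
      rw [hs, pow_succ']
      refine Ideal.mul_mem_mul (mem_nilradical.2 hf) ?_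
      have h3 : P j ∈ (nilradical R ^ j).comap α :=
        (Ideal.pow_right_mono h1 j).trans (Ideal.le_comap_pow α j) ih
      exact h3
  have h3 := h2 m
  rw [hm] at h3
  exact h3

/-- the commutative ring structure on a commutative subalgebra -/
@[reducible] def CR {A : Type} [Ring A] [Algebra ℝ A] (S : Subalgebra ℝ A)
    (hS : ∀ a ∈ S, ∀ b ∈ S, a * b = b * a) : CommRing S :=
  { (inferInstance : Ring S) with
    mul_comm := fun a b => Subtype.ext (hS a a.2 b b.2) }

theorem noeth {A : Type} [Ring A] [Algebra ℝ A] [Module.Finite ℝ A] (S : Subalgebra ℝ A) :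
    IsNoetherianRing S := by
  have hfd : Module.Finite ℝ S := inferInstance
  exact IsNoetherianRing.of_finite ℝ S

theorem prod_nil' {A : Type} [Ring A] [Algebra ℝ A] [Module.Finite ℝ A] (S : Subalgebra ℝ A)
    (hS : ∀ a ∈ S, ∀ b ∈ S, a * b = b * a) (α : A → A) (h1 : α 1 = 1)
    (hm : ∀ a b, α (a * b) = α a * α b) (h0 : α 0 = 0) (ha : ∀ a b, α (a + b) = α a + α b)
    (hα : ∀ a ∈ S, α a ∈ S) {f : A} (hf : f ∈ S) (hn : IsNilpotent f) (P : ℕ → A)
    (hP0 : P 0 = 1) (hP : ∀ j, P (j + 1) = f * α (P j)) : ∃ m, P m = 0 := by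
  have hno := noeth S
  let _ : CommRing S := CR S hS
  have hno' : IsNoetherianRing S := hno
  let α' : S →+* S :=
    { toFun := fun a => ⟨α a, hα a a.2⟩
      map_one' := Subtype.ext h1
      map_mul' := fun a b => Subtype.ext (hm a b)
      map_zero' := Subtype.ext h0
      map_add' := fun a b => Subtype.ext (ha a b) }
  obtain ⟨m, hm⟩ := prod_nil α'
  have hPS : ∀ j, P j ∈ S := by
    intro j
    induction j with
    | zero => rw [hP0]; exact S.one_mem
    | succ j ih => rw [hP]; exact S.mul_mem hf (hα _ ih)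
  have hnf : IsNilpotent (⟨f, hf⟩ : S) := by
    obtain ⟨k, hk⟩ := hn
    exact ⟨k, Subtype.ext hk⟩
  have h2 := hm ⟨f, hf⟩ (fun j => ⟨P j, hPS j⟩) hnf (Subtype.ext hP0)
    (fun j => Subtype.ext (hP j))
  exact ⟨m, congrArg Subtype.val h2⟩

variable {Γ E : Type} [Group Γ] [NormedAddCommGroup E] [NormedSpace ℝ E] [FiniteDimensional ℝ E]
  {hol : Γ →* (E ≃ᵃ[ℝ] E)} {N : Subgroup Γ} {Ω : Set E}

/-- the trace -/
noncomputable def tr (f : BB E) : ℝ := LinearMap.trace ℝ (E × ℝ) (f : (E × ℝ) →ₗ[ℝ] (E × ℝ))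

theorem tr_add (f g : BB E) : tr (f + g) = tr f + tr g := by
  rw [tr, tr, tr, ← map_add]
  rfl

theorem tr_nil {f : BB E} (h : IsNilpotent f) : tr f = 0 := by
  have h1 : IsNilpotent (f : (E × ℝ) →ₗ[ℝ] (E × ℝ)) := by
    obtain ⟨m, hm⟩ := h
    refine ⟨m, ?_⟩
    have h2 : ∀ j : ℕ, ((f : (E × ℝ) →ₗ[ℝ] (E × ℝ)) ^ j) = ((f ^ j : BB E) : (E × ℝ) →ₗ[ℝ] _) := by
      intro j
      induction j with
      | zero => rfl
      | succ j ih => rw [pow_succ, pow_succ, ih]; rfl
    rw [h2, hm]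
    rfl
  exact (LinearMap.isNilpotent_trace_of_isNilpotent h1).eq_zero

theorem tr_mul_comm (f g : BB E) : tr (f * g) = tr (g * f) := by
  exact LinearMap.trace_mul_comm ℝ (f : (E × ℝ) →ₗ[ℝ] (E × ℝ)) (g : (E × ℝ) →ₗ[ℝ] (E × ℝ))

theorem fg_nil (h : UN hol N) (hN : AN hol N) (γ : Γ) {f : BB E} (hf : f ∈ SA hol N)
    (hn : IsNilpotent f) : IsNilpotent (f * aff (hol γ)) := by
  let P : ℕ → BB E := fun j => Nat.rec 1 (fun _ Q => f * Ad hol γ Q) j
  have hP : ∀ j, (f * aff (hol γ)) ^ j = P j * aff (hol γ) ^ j := by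
    intro j
    induction j with
    | zero => rw [pow_zero, pow_zero, mul_one]; rfl
    | succ j ih =>
      have h1 : P (j + 1) = f * Ad hol γ (P j) := rfl
      rw [pow_succ' (f * aff (hol γ)), ih, pow_succ' (aff (hol γ)), h1, Ad]
      have h2 : aff (hol γ⁻¹) * aff (hol γ) = 1 := aff_inv γ
      calc f * aff (hol γ) * (P j * aff (hol γ) ^ j)
          = f * (aff (hol γ) * P j * 1) * aff (hol γ) ^ j := by noncomm_ring
        _ = f * (aff (hol γ) * P j * (aff (hol γ⁻¹) * aff (hol γ))) * aff (hol γ) ^ j := by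
            rw [h2]
        _ = _ := by noncomm_ring
  obtain ⟨m, h0⟩ := prod_nil' (SA hol N) (fun a ha b hb => (SA_comm h ha hb).eq) (Ad hol γ)
    (Ad_one γ) (Ad_mul γ) (map_zero (AdL hol γ)) (map_add (AdL hol γ)) (fun a ha => Ad_SA h hN γ ha)
    hf hn P rfl (fun _ => rfl)
  refine ⟨m, ?_⟩
  rw [hP, h0]
  exact zero_mul _

theorem ex_sub_one (h : UN hol N) {s : BB E} (hs : s ∈ aa h) :
    ex s - 1 ∈ SA hol N ∧ IsNilpotent (ex s - 1) := by
  obtain ⟨h1, h2⟩ := aa_prop h hs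
  refine ⟨Subalgebra.sub_mem _ (ex_mem_SA h1 h2) (Subalgebra.one_mem _), ?_⟩
  obtain ⟨ψ, hψ, he⟩ := ex_expand h2
  have hc : Commute ψ s := comm_adjoin (Commute.refl _) hψ
  have h3 : ex s - 1 = s * (1 + s * ψ) := by rw [he]; noncomm_ring
  rw [h3]
  refine Commute.isNilpotent_mul_right ?_ h2
  exact (Commute.one_right s).add_right ((Commute.refl s).mul_right hc.symm)

/-- the trace does not depend on the hull -/
theorem tr_inv (h : UN hol N) (hN : AN hol N) (γ : Γ) {s : BB E} (hs : s ∈ aa h) :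
    tr (ex s * aff (hol γ)) = tr (aff (hol γ)) := by
  obtain ⟨h1, h2⟩ := ex_sub_one h hs
  have h3 : ex s * aff (hol γ) = (ex s - 1) * aff (hol γ) + aff (hol γ) := by
    rw [sub_mul, one_mul, sub_add_cancel]
  rw [h3, tr_add, tr_nil (fg_nil h hN γ h1 h2), zero_add]

/-- powers of elements of the extended group -/
theorem pow_form (h : UN hol N) (hN : AN hol N) (γ : Γ) {s : BB E} (hs : s ∈ aa h) (k : ℕ) :
    ∃ t ∈ aa h, (ex s * aff (hol γ)) ^ k = ex t * aff (hol (γ ^ k)) := by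
  induction k with
  | zero =>
    refine ⟨0, (aa h).zero_mem, ?_⟩
    rw [pow_zero, pow_zero, map_one, aff_one, ex_zero, mul_one]
  | succ k ih =>
    obtain ⟨t, ht, he⟩ := ih
    refine ⟨s + Ad hol γ t, (aa h).add_mem hs (Ad_aa h hN γ ht), ?_⟩
    rw [pow_succ', he, ex_add (aa_comm h hs (Ad_aa h hN γ ht)), ← Ad_ex, Ad, pow_succ' γ, map_mul,
      aff_mul]
    have h2 : aff (hol γ⁻¹) * aff (hol γ) = 1 := aff_inv γ
    calc ex s * aff (hol γ) * (ex t * aff (hol (γ ^ k)))
        = ex s * (aff (hol γ) * ex t * 1) * aff (hol (γ ^ k)) := by noncomm_ring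
      _ = ex s * (aff (hol γ) * ex t * (aff (hol γ⁻¹) * aff (hol γ))) * aff (hol (γ ^ k)) := by
          rw [h2]
      _ = _ := by noncomm_ring

/-- an operator of finite order, all of whose powers have full trace, is the identity -/
theorem eq_one_of_tr {f : BB E} {m : ℕ} (hm : m ≠ 0) (hf : f ^ m = 1)
    (ht : ∀ k, tr (f ^ k) = finrank ℝ (E × ℝ)) : f = 1 := by
  have hm' : (m : ℝ) ≠ 0 := Nat.cast_ne_zero.2 hm
  set S : BB E := ∑ k ∈ Finset.range m, f ^ k with hS
  have hfS : f * S = S := by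
    have h1 : f * S = ∑ k ∈ Finset.range m, f ^ (k + 1) := by
      rw [hS, Finset.mul_sum]
      exact Finset.sum_congr rfl fun k _ => (pow_succ' f k).symm
    have h2 := Finset.sum_range_succ' (fun k => f ^ k) m
    rw [Finset.sum_range_succ, hf, pow_zero] at h2
    rw [h1]
    exact (add_right_cancel h2).symm
  set P : BB E := (m : ℝ)⁻¹ • S with hP
  have hfP : f * P = P := by rw [hP, mul_smul_comm, hfS]
  have hkP : ∀ k, f ^ k * P = P := by
    intro k
    induction k with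
    | zero => rw [pow_zero, one_mul]
    | succ k ih => rw [pow_succ, mul_assoc, hfP, ih]
  have hPP : P * P = P := by
    conv_lhs => rw [hP, smul_mul_assoc, hS, Finset.sum_mul]
    rw [Finset.sum_congr rfl fun k _ => hkP k, Finset.sum_const, Finset.card_range,
      ← Nat.cast_smul_eq_nsmul ℝ, smul_smul, inv_mul_cancel₀ hm', one_smul]
  have htP : tr P = finrank ℝ (E × ℝ) := by
    have h1 : tr P = (m : ℝ)⁻¹ * ∑ k ∈ Finset.range m, tr (f ^ k) := by
      let T : BB E →ₗ[ℝ] ℝ :=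
        { toFun := tr
          map_add' := tr_add
          map_smul' := fun c g => by
            show LinearMap.trace ℝ (E × ℝ) ((c • g : BB E) : (E × ℝ) →ₗ[ℝ] (E × ℝ)) = _
            have : ((c • g : BB E) : (E × ℝ) →ₗ[ℝ] (E × ℝ)) = c • (g : (E × ℝ) →ₗ[ℝ] (E × ℝ)) := rfl
            rw [this, map_smul]
            rfl }
      have h2 : T P = (m : ℝ)⁻¹ • T S := by rw [hP, map_smul]
      have h3 : T S = ∑ k ∈ Finset.range m, T (f ^ k) := by rw [hS, map_sum]
      rw [h3] at h2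
      exact h2
    rw [h1, Finset.sum_congr rfl fun k _ => ht k, Finset.sum_const, Finset.card_range,
      nsmul_eq_mul, ← mul_assoc, inv_mul_cancel₀ hm', one_mul]
  have hproj : LinearMap.IsProj (LinearMap.range (P : (E × ℝ) →ₗ[ℝ] (E × ℝ)))
      (P : (E × ℝ) →ₗ[ℝ] (E × ℝ)) := by
    refine ⟨fun x => ⟨x, rfl⟩, ?_⟩
    rintro _ ⟨x, rfl⟩
    exact congrArg (fun g : BB E => g x) hPP
  have h1 : tr P = finrank ℝ (LinearMap.range (P : (E × ℝ) →ₗ[ℝ] (E × ℝ))) := hproj.trace
  rw [htP] at h1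
  have h2 : LinearMap.range (P : (E × ℝ) →ₗ[ℝ] (E × ℝ)) = ⊤ :=
    Submodule.eq_top_of_finrank_eq (by exact_mod_cast h1.symm)
  have h3 : P = 1 := by
    refine ContinuousLinearMap.ext fun x => ?_
    have h4 : x ∈ LinearMap.range (P : (E × ℝ) →ₗ[ℝ] (E × ℝ)) := by rw [h2]; trivial
    obtain ⟨y, rfl⟩ := h4
    exact congrArg (fun g : BB E => g y) hPP
  rw [h3, mul_one] at hfP
  exact hfP

end Pool.Agent.U352.UH
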