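import Pool.Agent.U352.UH.Op

/-!
The operators are invertible near the centre of the bump function.
-/

set_option autoImplicit false
set_option linter.unusedSectionVars false

open Set Filter Topology MeasureTheory

namespace Pool.Agent.U352.UH

variable {Γ E V : Type} [Group Γ] [NormedAddCommGroup E] [NormedSpace ℝ E]
  [FiniteDimensional ℝ E] [NormedAddCommGroup V] [NormedSpace ℝ V] [FiniteDimensional ℝ V]
  {hol : Γ →* (E ≃ᵃ[ℝ] E)} {N : Subgroup Γ} {Ω : Set E} {P : V → E → E} {l : V → E →L[ℝ] E}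
  {m : Γ → E →L[ℝ] E} {A : Γ → V → V}

/-- the cone function -/
noncomputable def cone (x₀ : E) (r : ℝ) (y : E) : ℝ := max 0 (r - ‖y - x₀‖)

theorem cone_bump {x₀ : E} {r : ℝ} (hsub : Metric.closedBall x₀ r ⊆ Ω) :
    Bump Ω (Metric.closedBall x₀ r) (cone x₀ r) := by
  refine ⟨fun x y => ?_, fun x => le_max_left _ _, fun x hx => ?_, isCompact_closedBall _ _, hsub⟩
  · have h1 : |max 0 (r - ‖x - x₀‖) - max 0 (r - ‖y - x₀‖)| ≤
        |(r - ‖x - x₀‖) - (r - ‖y - x₀‖)| := by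
      have := abs_max_sub_max_le_max 0 (r - ‖x - x₀‖) 0 (r - ‖y - x₀‖)
      rw [sub_self, abs_zero,
        max_eq_right (abs_nonneg ((r - ‖x - x₀‖) - (r - ‖y - x₀‖)))] at this
      exact this
    refine h1.trans ?_
    have h2 : (r - ‖x - x₀‖) - (r - ‖y - x₀‖) = ‖y - x₀‖ - ‖x - x₀‖ := by ring
    rw [h2]
    refine (abs_norm_sub_norm_le _ _).trans ?_
    rw [sub_sub_sub_cancel_right, norm_sub_rev]
  · rw [mem_closedBall_iff_norm]
    by_contra h
    apply hx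
    rw [cone]
    exact max_eq_left (by linarith)

theorem cone_pos {x₀ : E} {r : ℝ} {x : E} (hx : x ∈ Metric.ball x₀ r) : cone x₀ r x ≠ 0 := by
  rw [mem_ball_iff_norm] at hx
  have : 0 < r - ‖x - x₀‖ := by linarith
  rw [cone, max_eq_right this.le]
  exact this.ne'

theorem unit_of_near {B : Type} [NormedRing B] [NormedAlgebra ℝ B] [CompleteSpace B] {L : B} {c : ℝ}
    (hc : 0 < c) (h : ‖L - c • 1‖ ≤ c / 2) : IsUnit L := by
  have h1 : ‖1 - c⁻¹ • L‖ < 1 := by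
    have h2 : 1 - c⁻¹ • L = -(c⁻¹ • (L - c • 1)) := by
      rw [smul_sub, smul_smul, inv_mul_cancel₀ hc.ne', one_smul, neg_sub]
    rw [h2, norm_neg, norm_smul, norm_inv, Real.norm_of_nonneg hc.le]
    calc c⁻¹ * ‖L - c • 1‖ ≤ c⁻¹ * (c / 2) := by gcongr
      _ = 1 / 2 := by field_simp
      _ < 1 := by norm_num
  have h3 : IsUnit (c⁻¹ • L) := by
    have := (Units.oneSub _ h1).isUnit
    have h4 : ((Units.oneSub _ h1 : Bˣ) : B) = c⁻¹ • L := by
      rw [Units.val_oneSub, sub_sub_cancel]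
    rwa [h4] at this
  have h5 : L = (algebraMap ℝ B c) * (c⁻¹ • L) := by
    rw [← Algebra.smul_def, smul_smul, mul_inv_cancel₀ hc.ne', one_smul]
  rw [h5]
  refine IsUnit.mul ?_ h3
  exact (IsUnit.mk0 c hc.ne').map (algebraMap ℝ B)

section
variable [MeasurableSpace V] [BorelSpace V]

theorem Sy.unit (S : Sy hol N Ω P l m A) {x₀ : E} {r : ℝ}
    (hsub : Metric.closedBall x₀ r ⊆ Ω)
    (hnear : ∀ s γ y, y ∈ Metric.closedBall x₀ r → P s (hol γ y) ∈ Metric.closedBall x₀ r →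
      ‖l s * m γ - 1‖ ≤ 1 / 2) {x : E} (hx : x ∈ Metric.ball x₀ r) :
    IsUnit (Lop hol N P l m (cone x₀ r) x) := by
  set φ := cone x₀ r with hφ
  have B : Bump Ω (Metric.closedBall x₀ r) φ := cone_bump hsub
  have hxc : x ∈ Metric.closedBall x₀ r := Metric.ball_subset_closedBall hx
  have hxΩ : x ∈ Ω := hsub hxc
  obtain ⟨Q₀, hQ₀⟩ := S.fin_supp B (isCompact_singleton (x := x)) (singleton_subset_iff.2 hxΩ)
  classical
  let q₁ : Γ ⧸ N := ((1 : Γ) : Γ ⧸ N)
  let Q := insert q₁ Q₀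
  have hQ : ∀ y ∈ ({x} : Set E), ∀ q : Γ ⧸ N, (∃ s : V, φ (P (-s) (hol q.out⁻¹ y)) ≠ 0) → q ∈ Q :=
    fun y hy q hq => Finset.mem_insert_of_mem (hQ₀ y hy q hq)
  set μ : Measure V := Measure.addHaar with hμ
  let c : Γ ⧸ N → ℝ := fun q => ∫ s, φ (P (-s) (hol q.out⁻¹ x)) ∂μ
  have hc0 : ∀ q, 0 ≤ c q := fun q => integral_nonneg fun s => B.nonneg _
  have hc1 : 0 < c q₁ := by
    obtain ⟨a, ha⟩ := QuotientGroup.mk_out_eq_mul N (1 : Γ)
    rw [one_mul] at ha
    obtain ⟨u, hu, -⟩ := S.elt a a.2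
    refine Continuous.integral_pos_of_hasCompactSupport_nonneg_nonzero (x := -u)
      (S.int_cont B _) (S.int_comp B (S.hol_inv _ _ hxΩ)) (fun s => B.nonneg _) ?_
    rw [neg_neg]
    show φ (P u (hol (q₁.out)⁻¹ x)) ≠ 0
    rw [hu, ← ha, ← S.hol_mul, mul_inv_cancel, S.hol_one]
    exact cone_pos hx
  let M : ℝ := ∑ q ∈ Q, c q
  have hM : 0 < M := Finset.sum_pos' (fun q _ => hc0 q) ⟨q₁, Finset.mem_insert_self _ _, hc1⟩
  refine unit_of_near hM ?_
  rw [S.Lop_sum hQ rfl]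
  have h1 : (∑ q ∈ Q, Psi hol P l m φ x q.out) - M • (1 : E →L[ℝ] E) =
      ∑ q ∈ Q, (Psi hol P l m φ x q.out - c q • (1 : E →L[ℝ] E)) := by
    rw [Finset.sum_sub_distrib, ← Finset.sum_smul]
  rw [h1]
  have h2 : ∀ q : Γ ⧸ N, ‖Psi hol P l m φ x q.out - c q • (1 : E →L[ℝ] E)‖ ≤ c q / 2 := by
    intro q
    have hy : hol q.out⁻¹ x ∈ Ω := S.hol_inv _ _ hxΩ
    have h3 : Psi hol P l m φ x q.out = ∫ s, φ (P (-s) (hol q.out⁻¹ x)) • (m q.out * l s) ∂μ := by
      have h4 := (ContinuousLinearMap.mul ℝ (E →L[ℝ] E) (m q.out)).integral_comp_comm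
        (S.integrable B hy)
      rw [Psi]
      refine Eq.trans h4.symm ?_
      refine integral_congr_ae (Eventually.of_forall fun s => ?_)
      show m q.out * (φ (P (-s) (hol q.out⁻¹ x)) • l s) = _
      rw [mul_smul_comm]
    have h5 : c q • (1 : E →L[ℝ] E) =
        ∫ s, φ (P (-s) (hol q.out⁻¹ x)) • (1 : E →L[ℝ] E) ∂μ :=
      (integral_smul_const (μ := μ) (fun s : V => φ (P (-s) (hol q.out⁻¹ x)))
        (1 : E →L[ℝ] E)).symm
    have hi1 : Integrable (fun s : V => φ (P (-s) (hol q.out⁻¹ x)) • (m q.out * l s)) μ := by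
      refine Continuous.integrable_of_hasCompactSupport
        ((S.int_cont B _).smul (continuous_const.mul S.l_cont)) ?_
      exact (S.int_comp B hy).smul_right
    have hi2 : Integrable (fun s : V => φ (P (-s) (hol q.out⁻¹ x)) • (1 : E →L[ℝ] E)) μ := by
      refine Continuous.integrable_of_hasCompactSupport
        ((S.int_cont B _).smul continuous_const) ?_
      exact (S.int_comp B hy).smul_right
    rw [h3, h5, ← integral_sub hi1 hi2]
    have hi3 := (S.integrable' B hy).div_const 2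
    refine (norm_integral_le_of_norm_le hi3 (Eventually.of_forall fun s => ?_)).trans ?_
    · show ‖φ (P (-s) (hol q.out⁻¹ x)) • (m q.out * l s) -
        φ (P (-s) (hol q.out⁻¹ x)) • (1 : E →L[ℝ] E)‖ ≤ φ (P (-s) (hol q.out⁻¹ x)) / 2
      rw [← smul_sub, norm_smul, Real.norm_of_nonneg (B.nonneg _)]
      by_cases h0 : φ (P (-s) (hol q.out⁻¹ x)) = 0
      · rw [h0, zero_mul, zero_div]
      · have h6 := B.supp _ h0
        have h7 : P (A q.out s) (hol q.out (P (-s) (hol q.out⁻¹ x))) = x := by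
          rw [← S.comm, S.P_neg', ← S.hol_mul, mul_inv_cancel, S.hol_one]
        have h8 := hnear (A q.out s) q.out _ h6 (by rw [h7]; exact hxc)
        rw [← S.mcomm] at h8
        calc φ (P (-s) (hol q.out⁻¹ x)) * ‖m q.out * l s - 1‖
            ≤ φ (P (-s) (hol q.out⁻¹ x)) * (1 / 2) := by
              exact mul_le_mul_of_nonneg_left h8 (B.nonneg _)
          _ = _ := by ring
    · rw [integral_div]
  calc ‖∑ q ∈ Q, (Psi hol P l m φ x q.out - c q • (1 : E →L[ℝ] E))‖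
      ≤ ∑ q ∈ Q, ‖Psi hol P l m φ x q.out - c q • (1 : E →L[ℝ] E)‖ := norm_sum_le _ _
    _ ≤ ∑ q ∈ Q, c q / 2 := Finset.sum_le_sum fun q _ => h2 q
    _ = M / 2 := by rw [← Finset.sum_div]

end

end Pool.Agent.U352.UH
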